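import Pool.Agent.H15.KM7.Avg

/-!
# The local label potential: two samples, the two cases of a step
-/

set_option autoImplicit false

namespace Pool.KM7

open Finset Real
open Pool.Agent.H49.Ent Pool.Agent.H32.Dense Pool.STK Pool.KA

/-! ### Two samples -/

section Pair

variable {Ω : Type} [Fintype Ω] {GT : Type}

/-- The law of two samples, conditionally independent given `g`. -/
noncomputable def P2 (p : Ω → ℝ) (g : Ω → GT) : Ω × Ω → ℝ := glue p p g g

variable {p : Ω → ℝ} {g : Ω → GT}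

theorem P2_isLaw (hp : IsLaw p) (g : Ω → GT) : IsLaw (P2 p g) :=
  ⟨glue_nonneg hp.nonneg hp.nonneg, (sum_glue hp.nonneg (fun _ => rfl)).trans hp.sum_one⟩

theorem P2_fst (hp : IsLaw p) (g : Ω → GT) : Psh (P2 p g) Prod.fst p := by
  classical
  intro ω
  have h := law_glue_fst hp.nonneg (Z₁ := g) (Z₂ := g) (p₂ := p) (fun _ => rfl) (fun ω => ω) ω
  refine h.trans ?_
  unfold law
  rw [Finset.sum_eq_single ω]
  · simp
  · intro b _ hb
    rw [if_neg hb]
  · intro h
    exact absurd (Finset.mem_univ _) h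

theorem P2_snd (hp : IsLaw p) (g : Ω → GT) : Psh (P2 p g) Prod.snd p := by
  classical
  intro ω
  have h := law_glue_snd hp.nonneg (Z₁ := g) (Z₂ := g) (p₁ := p) (fun _ => rfl) (fun ω => ω) ω
  refine h.trans ?_
  unfold law
  rw [Finset.sum_eq_single ω]
  · simp
  · intro b _ hb
    rw [if_neg hb]
  · intro h
    exact absurd (Finset.mem_univ _) h

theorem P2_pos (hp : IsLaw p) (e : Ω × Ω) :
    0 < P2 p g e ↔ 0 < p e.1 ∧ 0 < p e.2 ∧ g e.1 = g e.2 :=
  glue_pos_iff hp.nonneg hp.nonneg e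

theorem P2_swap (p : Ω → ℝ) (g : Ω → GT) (e : Ω × Ω) : P2 p g e.swap = P2 p g e := by
  unfold P2 glue
  by_cases h : g e.1 = g e.2
  · rw [if_pos h, if_pos (show g e.swap.1 = g e.swap.2 from h.symm)]
    simp only [Prod.fst_swap, Prod.snd_swap]
    rw [h]
    ring
  · rw [if_neg h, if_neg (show ¬ g e.swap.1 = g e.swap.2 from fun h' => h (Eq.symm h'))]

/-- Conditional independence, joint entropy. -/
theorem P2_H (hp : IsLaw p) (g : Ω → GT) {S : Type} (X : Ω → S) :
    H (P2 p g) (fun w => (w.1, (X w.2, g w.2))) =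
      H p (fun ω : Ω => ω) + H p (fun ω => (X ω, g ω)) - H p g := by
  have h0 := hp.nonneg
  have d1 : Det p (fun ω : Ω => ω) g := fun a b _ _ h => by
    have h' : a = b := h
    rw [h']
  have d2 : Det p (fun ω => (X ω, g ω)) g := fun a b _ _ h => (Prod.ext_iff.mp h).2
  have := H_glue_pair (p₁ := p) (p₂ := p) (Z₁ := g) (Z₂ := g) h0 h0 (fun _ => rfl) d1 d2
  exact this

/-- Conditional independence. -/
theorem P2_CH (hp : IsLaw p) (g : Ω → GT) {S : Type} (X : Ω → S) :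
    CH (P2 p g) (fun e => X e.2) (fun e => e.1) = CH p X g := by
  have h2 := (P2_isLaw hp g).nonneg
  have h3 : H (P2 p g) (fun e => (X e.2, e.1)) =
      H (P2 p g) (fun w => (w.1, (X w.2, g w.2))) := by
    refine H_congr h2 ?_ ?_
    · intro a b _ _ h
      have e1 := (Prod.ext_iff.mp h).1
      have e2 := (Prod.ext_iff.mp (Prod.ext_iff.mp h).2).1
      exact Prod.ext e2 e1
    · intro a b ha hb h
      have e1 : X a.2 = X b.2 := (Prod.ext_iff.mp h).1
      have e2 : a.1 = b.1 := (Prod.ext_iff.mp h).2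
      have e3 : g a.2 = g b.2 := by
        rw [← ((P2_pos hp a).mp ha).2.2, ← ((P2_pos hp b).mp hb).2.2, e2]
      exact Prod.ext e2 (Prod.ext e1 e3)
  have h4 : H (P2 p g) (fun e => e.1) = H p (fun ω : Ω => ω) :=
    Psh.H_eq (P2_fst hp g) (fun ω => ω)
  have h1 := P2_H hp g X
  unfold CH
  rw [h3, h1, h4]
  ring

/-- Symmetry of the conditional laws. -/
theorem P2_sym (p : Ω → ℝ) (g : Ω → GT) {σ : Type} (S : Ω × Ω → σ) (s : σ)
    (hS : ∀ e, P2 p g e ≠ 0 → S e.swap = S e) :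
    Psh (Pool.Agent.H49.Ent.cond (P2 p g) S s) Prod.swap
      (Pool.Agent.H49.Ent.cond (P2 p g) S s) := by
  classical
  intro e
  unfold law
  rw [Finset.sum_eq_single e.swap]
  · rw [if_pos (Prod.swap_swap e)]
    unfold Pool.Agent.H49.Ent.cond
    rw [P2_swap]
    by_cases h : P2 p g e = 0
    · rw [h]
      simp
    · rw [hS e h]
  · intro b _ hb
    rw [if_neg]
    intro h
    exact hb (by rw [← h, Prod.swap_swap])
  · intro h
    exact absurd (Finset.mem_univ _) h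

end Pair

/-! ### Arithmetic of the slopes -/

theorem abs_ediv_le {a : ℤ} {p s : ℕ} (h : |a| ≤ 4 * 2 ^ p) (hs : s ≤ p) :
    |a / 2 ^ s| ≤ 4 * 2 ^ (p - s) := by
  have e : (2 : ℤ) ^ p = 2 ^ (p - s) * 2 ^ s := by
    rw [← pow_add, Nat.sub_add_cancel hs]
  rw [abs_le] at h ⊢
  have hpos : (0 : ℤ) < 2 ^ s := by positivity
  constructor
  · rw [Int.le_ediv_iff_mul_le hpos]
    nlinarith [h.1]
  · rw [← Int.lt_add_one_iff, Int.ediv_lt_iff_lt_mul hpos]
    nlinarith [h.2]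

theorem abs_loc_le {a₀ a₁ : ℤ} {s : ℕ} (h : |a₀ - a₁| < 2 ^ (s + 1)) :
    |a₁ - a₀ / 2 ^ s * 2 ^ s| ≤ 4 * 2 ^ s := by
  have hpos : (0 : ℤ) < 2 ^ s := by positivity
  have h1 := Int.emod_nonneg a₀ hpos.ne'
  have h2 := Int.emod_lt_of_pos a₀ hpos
  have h3 := Int.mul_ediv_add_emod a₀ (2 ^ s)
  rw [abs_lt, pow_succ] at h
  rw [abs_le]
  constructor <;> nlinarith [h.1, h.2]

/-! ### Digits again -/

theorem mod_div_mod {T K N i : ℕ} (hi : i < N) :
    T % 2 ^ (K * N) / 2 ^ (K * i) % 2 ^ K = T / 2 ^ (K * i) % 2 ^ K := by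
  have e : K * N = K * i + K * (N - i) := by
    rw [← mul_add]
    congr 1
    omega
  rw [e, pow_add, Nat.mod_mul_right_div_self, Nat.mod_mod_of_dvd]
  refine pow_dvd_pow 2 ?_
  have h1 : 1 ≤ N - i := by omega
  calc K = K * 1 := (mul_one K).symm
    _ ≤ K * (N - i) := Nat.mul_le_mul_left K h1

theorem div_of_mod {a b K N i : ℕ} (hi : i < N) (h1 : a / 2 ^ (K * N) = b / 2 ^ (K * N))
    (h2 : a % 2 ^ (K * N) / 2 ^ (K * (i + 1)) = b % 2 ^ (K * N) / 2 ^ (K * (i + 1))) :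
    a / 2 ^ (K * (i + 1)) = b / 2 ^ (K * (i + 1)) := by
  have e : K * N = K * (i + 1) + K * (N - (i + 1)) := by
    rw [← mul_add]
    congr 1
    omega
  rw [e] at h1 h2
  rw [pow_add, Nat.mod_mul_right_div_self, Nat.mod_mul_right_div_self] at h2
  rw [div_split a (K * (i + 1)) (K * (N - (i + 1))), div_split b (K * (i + 1))
    (K * (N - (i + 1))), h1, h2]

end Pool.KM7
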