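import Pool.Agent.H15.KM7.Stmts

/-!
# The local label potential: copies and mixtures
-/

set_option autoImplicit false

namespace Pool.KM7

open Finset Real
open Pool.Agent.H49.Ent Pool.Agent.H32.Dense Pool.STK Pool.KA

/-! ### Projections -/

section Psh

variable {E Ω Ω₂ : Type} [Fintype E] [Fintype Ω] {p' : E → ℝ} {pr : E → Ω} {p : Ω → ℝ}

theorem Psh.H_eq (h : Psh p' pr p) {S : Type*} (X : Ω → S) :
    H p' (fun e => X (pr e)) = H p X :=
  H_eq_of_marginal pr h X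

theorem Psh.CH_eq (h : Psh p' pr p) {S T : Type*} (X : Ω → S) (Z : Ω → T) :
    CH p' (fun e => X (pr e)) (fun e => Z (pr e)) = CH p X Z := by
  unfold CH
  rw [← h.H_eq Z, ← h.H_eq (fun ω => (X ω, Z ω))]

theorem Psh.Ex_eq (h : Psh p' pr p) (f : Ω → ℝ) : Ex p' (fun e => f (pr e)) = Ex p f := by
  classical
  unfold Ex
  have h1 : ∀ ω, p ω = ∑ e, if pr e = ω then p' e else 0 := fun ω => (h ω).symm.trans (by
    unfold law
    exact Finset.sum_congr rfl fun e _ => by congr)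
  simp_rw [h1, Finset.sum_mul]
  rw [Finset.sum_comm]
  refine Finset.sum_congr rfl fun e _ => ?_
  rw [Finset.sum_eq_single (pr e)]
  · simp
  · intro b _ hb
    rw [if_neg (Ne.symm hb), zero_mul]
  · intro h
    exact absurd (Finset.mem_univ _) h

omit [Fintype Ω] in
theorem Psh.pos (h : Psh p' pr p) (h0 : ∀ e, 0 ≤ p' e) {e : E} (he : 0 < p' e) :
    0 < p (pr e) := by
  rw [← h (pr e)]
  exact law_pos h0 pr he

theorem Psh.law_eq (h : Psh p' pr p) {S : Type*} (X : Ω → S) (x : S) :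
    law p' (fun e => X (pr e)) x = law p X x := by
  classical
  have h1 : ∑ e, p' e * (if X (pr e) = x then (1 : ℝ) else 0) =
      ∑ ω, p ω * (if X ω = x then (1 : ℝ) else 0) :=
    h.Ex_eq (fun ω => if X ω = x then (1 : ℝ) else 0)
  simp only [mul_ite, mul_one, mul_zero] at h1
  unfold law
  convert h1

omit [Fintype Ω] in
theorem Psh.comp (h : Psh p' pr p) {E' : Type} [Fintype E'] {p'' : E' → ℝ} {pr' : E' → E}
    (h' : Psh p'' pr' p') : Psh p'' (fun e => pr (pr' e)) p := by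
  intro ω
  rw [← h ω]
  exact h'.law_eq pr ω

theorem Psh.id (p : Ω → ℝ) : Psh p (fun ω => ω) p := by
  classical
  intro ω
  unfold law
  rw [Finset.sum_eq_single ω]
  · simp
  · intro b _ hb
    rw [if_neg hb]
  · intro h
    exact absurd (Finset.mem_univ _) h

end Psh

/-! ### Elementary properties of `Get` -/

theorem Get.mono {κ : ℝ} {R w : ℕ} {G : Fam 2 w} {x x' : ℝ} (h : x' ≤ x) (hG : Get κ R G x) :
    Get κ R G x' := by
  obtain ⟨E, i, p', hp', pr, q, h1, h2, h3⟩ := hG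
  exact ⟨E, i, p', hp', pr, q, h1, h2, h.trans h3⟩

theorem Get.self {κ : ℝ} {R w : ℕ} (G : Fam 2 w) (q : G.Ω → Sec)
    (hq : ∀ ω, 0 < G.p ω → Ok w R (q ω)) : Get κ R G (Psi κ G q) :=
  ⟨G.Ω, G.fin, G.p, G.isLaw, fun ω => ω, q, Psh.id G.p, hq, le_refl _⟩

theorem Get.of_ext {κ : ℝ} {R w : ℕ} {G : Fam 2 w} {E : Type} [Fintype E] {p' : E → ℝ}
    {hp' : IsLaw p'} {pr : E → G.Ω} (h : Psh p' pr G.p) {x : ℝ}
    (hG : Get κ R (G.ext p' hp' pr) x) : Get κ R G x := by
  obtain ⟨E', i, p'', hp'', pr', q, h1, h2, h3⟩ := hG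
  exact ⟨E', i, p'', hp'', fun e => pr (pr' e), q, h.comp h1, h2, h3⟩

theorem Get.mono_R {κ : ℝ} {R R' w : ℕ} {G : Fam 2 w} {x : ℝ} (h : R ≤ R') (hG : Get κ R G x) :
    Get κ R' G x := by
  obtain ⟨E, i, p', hp', pr, q, h1, h2, h3⟩ := hG
  exact ⟨E, i, p', hp', pr, q, h1, fun e he => ⟨(h2 e he).lo, (h2 e he).hi.trans h,
    (h2 e he).sl⟩, h3⟩

theorem trc_trc {m J : ℕ} (F : Fam m J) (a b : ℕ) (ha : a ≤ J) (hb : b ≤ a) :
    (F.trc a ha).trc b hb = F.trc b (hb.trans ha) := by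
  unfold Fam.trc
  have : (fun ω => F.T ω / 2 ^ (J - a) / 2 ^ (a - b)) = fun ω => F.T ω / 2 ^ (J - b) := by
    funext ω
    rw [Nat.div_div_eq_div_mul, ← pow_add]
    congr 2
    omega
  simp only [this]

/-! ### Disjoint unions -/

section Sig

variable {I : Type} [Fintype I] {E : I → Type} [∀ i, Fintype (E i)] {w : I → ℝ}
  {p : ∀ i, E i → ℝ}

/-- The law on the disjoint union. -/
def sg (w : I → ℝ) (p : ∀ i, E i → ℝ) (e : Σ i, E i) : ℝ := w e.1 * p e.1 e.2

theorem sg_isLaw (hw : ∀ i, 0 ≤ w i) (hw1 : ∑ i, w i = 1) (hp : ∀ i, IsLaw (p i)) :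
    IsLaw (sg w p) := by
  refine ⟨fun e => mul_nonneg (hw _) ((hp _).nonneg _), ?_⟩
  unfold sg
  rw [Fintype.sum_sigma]
  simp only [← Finset.mul_sum, (hp _).sum_one, mul_one]
  exact hw1

theorem sg_Ex (f : (Σ i, E i) → ℝ) :
    Ex (sg w p) f = ∑ i, w i * Ex (p i) (fun e => f ⟨i, e⟩) := by
  unfold Ex sg
  rw [Fintype.sum_sigma]
  refine Finset.sum_congr rfl fun i _ => ?_
  rw [Finset.mul_sum]
  exact Finset.sum_congr rfl fun e _ => by ring

theorem sg_law {S : Type*} (X : (Σ i, E i) → S) (x : S) :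
    law (sg w p) X x = ∑ i, w i * law (p i) (fun e => X ⟨i, e⟩) x := by
  classical
  unfold law sg
  rw [Fintype.sum_sigma]
  refine Finset.sum_congr rfl fun i _ => ?_
  rw [Finset.mul_sum]
  refine Finset.sum_congr rfl fun e _ => ?_
  split_ifs <;> simp

theorem sg_law_pair {S : Type*} (X : (Σ i, E i) → S) (x : S) (i : I) :
    law (sg w p) (fun e => (X e, e.1)) (x, i) = w i * law (p i) (fun e => X ⟨i, e⟩) x := by
  classical
  rw [sg_law, Finset.sum_eq_single i]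
  · congr 1
    unfold law
    refine Finset.sum_congr rfl fun e _ => ?_
    by_cases h : X ⟨i, e⟩ = x
    · simp [h]
    · simp [h]
  · intro j _ hj
    have : law (p j) (fun e => (X ⟨j, e⟩, j)) (x, i) = 0 := by
      unfold law
      refine Finset.sum_eq_zero fun e _ => ?_
      rw [if_neg (fun h' => hj (Prod.ext_iff.mp h').2)]
    rw [this, mul_zero]
  · intro h
    exact absurd (Finset.mem_univ _) h

theorem sg_H (hw : ∀ i, 0 ≤ w i) (hp : ∀ i, IsLaw (p i)) {S : Type*} (X : (Σ i, E i) → S) :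
    H (sg w p) (fun e => (X e, e.1)) =
      ∑ i, w i * H (p i) (fun e => X ⟨i, e⟩) - ∑ i, w i * Real.log (w i) := by
  classical
  unfold H
  rw [Fintype.sum_sigma]
  have h1 : ∀ i, ∑ e, sg w p ⟨i, e⟩ * Real.log (law (sg w p) (fun e => (X e, e.1))
      (X ⟨i, e⟩, i)) = w i * Real.log (w i) +
      w i * ∑ e, p i e * Real.log (law (p i) (fun e => X ⟨i, e⟩) (X ⟨i, e⟩)) := by
    intro i
    have h2 : ∀ e, sg w p ⟨i, e⟩ * Real.log (law (sg w p) (fun e => (X e, e.1))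
        (X ⟨i, e⟩, i)) = p i e * (w i * Real.log (w i)) +
        w i * (p i e * Real.log (law (p i) (fun e => X ⟨i, e⟩) (X ⟨i, e⟩))) := by
      intro e
      rw [sg_law_pair]
      unfold sg
      rcases (hw i).eq_or_lt with h0 | h0
      · simp [← h0]
      rcases ((hp i).nonneg e).eq_or_lt with h3 | h3
      · simp [← h3]
      rw [Real.log_mul h0.ne' (law_pos (hp i).nonneg (fun e => X ⟨i, e⟩) h3).ne']
      ring
    rw [Finset.sum_congr rfl fun e _ => h2 e, Finset.sum_add_distrib, ← Finset.sum_mul,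
      (hp i).sum_one, one_mul, ← Finset.mul_sum]
  rw [Finset.sum_congr rfl fun i _ => h1 i, Finset.sum_add_distrib]
  have h3 : ∑ i, w i * -∑ e, p i e * Real.log (law (p i) (fun e => X ⟨i, e⟩) (X ⟨i, e⟩)) =
      -∑ i, w i * ∑ e, p i e * Real.log (law (p i) (fun e => X ⟨i, e⟩) (X ⟨i, e⟩)) := by
    rw [← Finset.sum_neg_distrib]
    exact Finset.sum_congr rfl fun i _ => by ring
  rw [h3]
  ring

theorem sg_CH (hw : ∀ i, 0 ≤ w i) (hp : ∀ i, IsLaw (p i)) {S T : Type*}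
    (X : (Σ i, E i) → S) (Z : (Σ i, E i) → T) :
    CH (sg w p) X (fun e => (Z e, e.1)) =
      ∑ i, w i * CH (p i) (fun e => X ⟨i, e⟩) (fun e => Z ⟨i, e⟩) := by
  have hn : ∀ e, 0 ≤ sg w p e := fun e => mul_nonneg (hw _) ((hp _).nonneg _)
  have h1 : H (sg w p) (fun e => (X e, (Z e, e.1))) =
      H (sg w p) (fun e => ((X e, Z e), e.1)) := by
    refine H_congr hn ?_ ?_
    · intro a b _ _ h
      simp only [Prod.mk.injEq] at h ⊢
      tauto
    · intro a b _ _ h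
      simp only [Prod.mk.injEq] at h ⊢
      tauto
  unfold CH
  rw [h1, sg_H hw hp, sg_H hw hp]
  simp only [mul_sub, Finset.sum_sub_distrib]
  ring

end Sig

end Pool.KM7
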