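import Pool.Agent.H15.KM7.U
import Pool.Agent.H3.KM7.Conv
import Pool.Agent.H55.KM7.SUBT
import Pool.Agent.H55.KM7.Loc1
import Pool.Agent.H64.KM7.Loc2
import Pool.Agent.H70.KM7.Tow
import Pool.Agent.H34.KM7.FIN
import Pool.Agent.H78.KM7.BASL
import Pool.Agent.H1.KM7.LBL

/-! KM7: the rows without hypotheses (STA is missing).  -/

namespace Pool.KM7

open Finset Real
open Pool.Agent.H49.Ent Pool.Agent.H32.Dense Pool.STK Pool.KA

theorem step_all : STEPStmt := step_thm sub_thm loc1_thm (loc2_thm conv_thm)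

theorem stepU_all : STEPUStmt := stepU sub_thm loc1_thm (loc2_thm conv_thm)

theorem towU_all : TOWUStmt := towU stepU_all

theorem tow_all : TOWStmt := tow_of step_all

theorem lbl_all : LBLStmt := lbl_thm conv_thm

theorem basl_all : BASLStmt := basl_thm lbl_all

/-- The bound for all families from the base case at the level `1`. -/
def THMBUStmt : Prop :=
    ∃ C : ℝ, 0 ≤ C ∧ ∀ (κ : ℝ), 0 < κ → κ ≤ 1 →
    ∀ (A : ℕ), 3 ≤ κ * A → ∀ (Y : Type) (f : Y → ℕ → ℝ) (Λ : ℝ), 0 < Λ → ∀ (K : ℕ), 1 ≤ K →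
    Nng f Λ K → ∀ δ : ℝ, 0 ≤ δ → PNU κ A f Λ K 1 δ →
    ∀ (N : ℕ) (F : Fam 2 (K * N)) (y : ℕ → F.Ω → Y),
      Adm K N F (fun _ => ()) y →
      CH F.p (F.D (K * N)) F.Z ≤ CH F.p (fun ω => (F.X (K * N) ω, F.T ω)) F.Z -
        (K * N : ℕ) * Real.log 2 + cst f Λ K N F (fun _ => ()) y +
        (δ + C * (1 + Λ) * Real.log ((1 + A) * K + 2) / K) * (K * N : ℕ) +
        C * (1 + Λ) * Real.log ((K * N : ℕ) + 2) ^ 2 + C

theorem thmBU_sta (hSTA : STAStmt) : THMBUStmt := thmBU stepU_all towU_all hSTA fin_thm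

end Pool.KM7
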