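import Pool.Agent.H15.KM7.MIX
import Pool.Agent.H13.K2.MZV

/-!
# The local label potential: averages over conditional laws, costs
-/

set_option autoImplicit false

namespace Pool.KM7

open Finset Real
open Pool.Agent.H49.Ent Pool.Agent.H32.Dense Pool.STK Pool.KA

section Avg

variable {Ω : Type} [Fintype Ω] {p : Ω → ℝ} {σ : Type} [DecidableEq σ]

omit [DecidableEq σ] in
theorem cond_isLaw (hp : ∀ ω, 0 ≤ p ω) (S : Ω → σ) {s : σ} (hs : law p S s ≠ 0) :
    IsLaw (Pool.Agent.H49.Ent.cond p S s) :=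
  ⟨cond_nonneg hp S s, sum_cond p S hs⟩

theorem avg_Ex (hp : ∀ ω, 0 ≤ p ω) (S : Ω → σ) (f : Ω → ℝ) :
    Ex p f = ∑ s ∈ univ.image S, law p S s * Ex (Pool.Agent.H49.Ent.cond p S s) f := by
  classical
  unfold Ex
  have h1 : ∀ s, law p S s * ∑ ω, Pool.Agent.H49.Ent.cond p S s ω * f ω =
      ∑ ω, if S ω = s then p ω * f ω else 0 := by
    intro s
    rw [Finset.mul_sum]
    refine Finset.sum_congr rfl fun ω _ => ?_
    unfold Pool.Agent.H49.Ent.cond
    split_ifs with h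
    · by_cases h0 : law p S s = 0
      · have h2 : p ω = 0 := by
          have h3 := le_law hp S ω
          rw [h, h0] at h3
          exact le_antisymm h3 (hp ω)
        rw [h2]
        simp
      · field_simp
    · ring
  rw [Finset.sum_congr rfl fun s _ => h1 s, Finset.sum_comm]
  refine Finset.sum_congr rfl fun ω _ => ?_
  rw [Finset.sum_ite_eq]
  simp

theorem avg_CH (hp : ∀ ω, 0 ≤ p ω) (S : Ω → σ) {T U : Type} (X : Ω → T) (Y : Ω → U) :
    CH p X (fun ω => (Y ω, S ω)) =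
      ∑ s ∈ univ.image S, law p S s * CH (Pool.Agent.H49.Ent.cond p S s) X Y := by
  rw [Pool.KA.MZV.CH_avg hp X Y S]
  refine Finset.sum_congr rfl fun s _ => ?_
  congr 1
  have hr := cond_nonneg hp S s
  refine CH_congr hr ?_ ?_ ?_ ?_
  · intro a b _ _ hh
    exact (Prod.ext_iff.mp hh).1
  · intro a b _ _ hh
    exact (Prod.ext_iff.mp hh).1
  · intro a b _ _ hh
    exact (Prod.ext_iff.mp hh).1
  · intro a b ha hb hh
    exact Prod.ext hh (((cond_pos_iff hp S s a).mp ha).2.trans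
      ((cond_pos_iff hp S s b).mp hb).2.symm)

end Avg

/-! ### Digits of the time -/

section Dig

variable {Ω : Type} [Fintype Ω] {p : Ω → ℝ} {V : Type*}

theorem mod_split (T a b : ℕ) : T % 2 ^ (a + b) = T / 2 ^ a % 2 ^ b * 2 ^ a + T % 2 ^ a := by
  rw [pow_add, Nat.mod_mul]
  ring

theorem div_split (T a b : ℕ) : T / 2 ^ a = T / 2 ^ (a + b) * 2 ^ b + T / 2 ^ a % 2 ^ b := by
  rw [pow_add, ← Nat.div_div_eq_div_mul, Nat.div_add_mod']

/-- Chain rule for the digits. -/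
theorem chn (hp : ∀ ω, 0 ≤ p ω) (T : Ω → ℕ) (v : Ω → V) (a b : ℕ) :
    CH p (fun ω => T ω % 2 ^ (a + b)) (fun ω => (v ω, T ω / 2 ^ (a + b))) =
      CH p (fun ω => T ω / 2 ^ a % 2 ^ b) (fun ω => (v ω, T ω / 2 ^ (a + b))) +
      CH p (fun ω => T ω % 2 ^ a) (fun ω => (v ω, T ω / 2 ^ a)) := by
  have h1 : CH p (fun ω => T ω % 2 ^ (a + b)) (fun ω => (v ω, T ω / 2 ^ (a + b))) =
      CH p (fun ω => (T ω % 2 ^ a, T ω / 2 ^ a % 2 ^ b)) (fun ω => (v ω, T ω / 2 ^ (a + b))) := by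
    refine CH_congr hp ?_ ?_ (fun _ _ _ _ h => h) (fun _ _ _ _ h => h)
    · intro x y _ _ hh
      have h := (Prod.ext_iff.mp hh).1
      simp only at h
      have e1 : T x % 2 ^ (a + b) % 2 ^ a = T y % 2 ^ (a + b) % 2 ^ a := by rw [h]
      have e2 : T x % 2 ^ (a + b) / 2 ^ a = T y % 2 ^ (a + b) / 2 ^ a := by rw [h]
      rw [Nat.mod_mod_of_dvd _ (pow_dvd_pow 2 (Nat.le_add_right a b)),
        Nat.mod_mod_of_dvd _ (pow_dvd_pow 2 (Nat.le_add_right a b))] at e1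
      rw [pow_add, Nat.mod_mul_right_div_self, Nat.mod_mul_right_div_self] at e2
      exact Prod.ext e1 e2
    · intro x y _ _ hh
      have h := (Prod.ext_iff.mp hh).1
      simp only [Prod.mk.injEq] at h
      change T x % 2 ^ (a + b) = T y % 2 ^ (a + b)
      rw [mod_split, mod_split, h.1, h.2]
  rw [h1, CH_chain hp]
  congr 1
  refine CH_congr hp ?_ ?_ ?_ ?_
  · intro x y _ _ hh
    exact (Prod.ext_iff.mp hh).1
  · intro x y _ _ hh
    exact (Prod.ext_iff.mp hh).1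
  · intro x y _ _ hh
    simp only [Prod.mk.injEq] at hh ⊢
    refine ⟨hh.2.1, ?_⟩
    rw [div_split (T x) a b, div_split (T y) a b, hh.1, hh.2.2]
  · intro x y _ _ hh
    simp only [Prod.mk.injEq] at hh ⊢
    refine ⟨by rw [hh.2], hh.1, ?_⟩
    rw [pow_add, ← Nat.div_div_eq_div_mul, ← Nat.div_div_eq_div_mul, hh.2]

end Dig

/-! ### The cost -/

section Cost

variable {Y : Type} {f : Y → ℕ → ℝ} {Λ : ℝ} {K : ℕ}

theorem cst_zero {w : ℕ} (G : Fam 2 w) {κ₁ : Type} (v : G.Ω → κ₁) (y : ℕ → G.Ω → Y) :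
    cst f Λ K 0 G v y = 0 := by
  unfold cst
  have : CH G.p (fun ω => G.T ω % 2 ^ (K * 0))
      (fun ω => ((v ω, (G.l ω, G.Z ω)), G.T ω / 2 ^ (K * 0))) = 0 := by
    refine CH_eq_zero G.isLaw.nonneg ?_
    intro a b _ _ _
    simp [Nat.mod_one]
  rw [this]
  simp

/-- The cost of one more block. -/
theorem cst_succ {w : ℕ} (G : Fam 2 w) {κ₁ : Type} (v : G.Ω → κ₁) (y : ℕ → G.Ω → Y) (N : ℕ) :
    cst f Λ K (N + 1) G v y = cst f Λ K N G v y +
      (Ex G.p (fun ω => f (y N ω) (G.T ω / 2 ^ (K * N) % 2 ^ K)) -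
        Λ * CH G.p (fun ω => G.T ω / 2 ^ (K * N) % 2 ^ K)
          (fun ω => ((v ω, (G.l ω, G.Z ω)), G.T ω / 2 ^ (K * N + K)))) := by
  unfold cst
  rw [Finset.sum_range_succ]
  have h := chn G.isLaw.nonneg G.T (fun ω => (v ω, (G.l ω, G.Z ω))) (K * N) K
  rw [show K * (N + 1) = K * N + K from rfl, h]
  ring

/-- Gibbs inequality for one block. -/
theorem gibbs (hΛ : 0 < Λ) (hf : Nng f Λ K) {Ω : Type} [Fintype Ω] {p : Ω → ℝ} (hp : IsLaw p)
    (y : Ω → Y) (t : Ω → ℕ) (ht : ∀ ω, t ω < 2 ^ K) {V : Type*} (W : Ω → V) (hW : Det p W y) :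
    Λ * CH p t W ≤ Ex p (fun ω => f (y ω) (t ω)) := by
  classical
  have h1 : CH p t W ≤ CH p t y := CH_mono_cond hp.nonneg hW
  have h2 := CH_le_cross hp.nonneg hp.sum_one t y
    (fun y x => if x < 2 ^ K then Real.exp (-f y x / Λ) else 0)
    (fun ω _ => by rw [if_pos (ht ω)]; exact Real.exp_pos _)
    (fun y x => by split_ifs; exacts [(Real.exp_pos _).le, le_refl _])
    (fun ω _ F => by
      refine le_trans ?_ (hf (y ω))
      rw [← Finset.sum_filter]
      refine Finset.sum_le_sum_of_subset_of_nonneg ?_ fun _ _ _ => (Real.exp_pos _).le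
      intro x hx
      exact Finset.mem_range.mpr (Finset.mem_filter.mp hx).2)
  have h3 : Ex p (fun ω => -Real.log (if t ω < 2 ^ K then Real.exp (-f (y ω) (t ω) / Λ) else 0)) =
      Λ⁻¹ * Ex p (fun ω => f (y ω) (t ω)) := by
    rw [← Ex_smul]
    unfold Ex
    refine Finset.sum_congr rfl fun ω _ => ?_
    simp only [if_pos (ht ω), Real.log_exp]
    ring
  rw [h3] at h2
  calc Λ * CH p t W ≤ Λ * (Λ⁻¹ * Ex p (fun ω => f (y ω) (t ω))) :=
        mul_le_mul_of_nonneg_left (h1.trans h2) hΛ.le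
    _ = Ex p (fun ω => f (y ω) (t ω)) := by
        field_simp

theorem cst_nonneg (hΛ : 0 < Λ) (hf : Nng f Λ K) {w : ℕ} (G : Fam 2 w) {κ₁ : Type}
    (v : G.Ω → κ₁) (y : ℕ → G.Ω → Y) (N : ℕ) (hA : Adm K N G v y) :
    0 ≤ cst f Λ K N G v y := by
  induction N with
  | zero => rw [cst_zero]
  | succ N ih =>
    rw [cst_succ]
    have h1 := ih (fun i hi => hA i (Nat.lt_succ_of_lt hi))
    have h2 := gibbs hΛ hf G.isLaw (y N) (fun ω => G.T ω / 2 ^ (K * N) % 2 ^ K)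
      (fun ω => Nat.mod_lt _ (by positivity)) _ (hA N (Nat.lt_succ_self N))
    have h3 : K * (N + 1) = K * N + K := rfl
    rw [h3] at h2
    linarith

end Cost

end Pool.KM7
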