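import Pool.Agent.H9.KA.Defs
import Pool.Agent.H32.Dense.EntX

/-!
# The local label potential: definitions

Labels of a family of lines in the plane at a window of the time: the window, a section (a thin
parallelogram, whose slope is a dyadic number), the position at the beginning of the window and the
direction, both rounded in the coordinates of the section. The potential of a label is the length of
the window (in digits) plus the volume exponent of the section, minus the entropy of the label,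
minus a small multiple of the excentricity of the section. `Get κ R G x` says that some label
of some copy of `G` has potential at least `x`.
-/

set_option autoImplicit false

namespace Pool.KM7

open Finset Real
open Pool.Agent.H49.Ent Pool.Agent.H32.Dense Pool.STK Pool.KA

/-! ### Sections -/

/-- A section: the chart, the coarse precision, the excess of the fine precision, and the slope
`a / 2 ^ p`. -/
structure Sec where
  /-- the chart -/
  c : Bool
  /-- the coarse precision -/
  h : ℕ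
  /-- the excess of the fine precision -/
  p : ℕ
  /-- the numerator of the slope -/
  a : ℤ

/-- The coordinate of the fine direction. -/
def ix (c : Bool) : Fin 2 := bif c then 1 else 0

/-- The coordinate of the coarse direction. -/
def iy (c : Bool) : Fin 2 := bif c then 0 else 1

/-- The coordinates of the section. -/
noncomputable def Sec.co (q : Sec) (x : Fin 2 → ℝ) : Fin 2 → ℝ :=
  ![2 ^ q.h * (2 ^ q.p * x (ix q.c) + q.a * x (iy q.c)), 2 ^ q.h * x (iy q.c)]

/-- The rounded coordinates of the section. -/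
noncomputable def Sec.lb (q : Sec) (x : Fin 2 → ℝ) : Fin 2 → ℤ := fun i => ⌊q.co x i⌋

/-- Admissible sections: between the precisions `w` and `R`. -/
structure Ok (w R : ℕ) (q : Sec) : Prop where
  lo : w ≤ q.h
  hi : q.h + q.p ≤ R
  sl : |q.a| ≤ 4 * 2 ^ q.p

/-! ### Labels and the potential -/

/-- The label of a family with a random section, at a window with `w` digits. -/
noncomputable def Lab {w : ℕ} (G : Fam 2 w) (q : G.Ω → Sec) (ω : G.Ω) :
    (ℕ × Sec) × ((Fin 2 → ℤ) × (Fin 2 → ℤ)) :=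
  ((G.T ω, q ω), ((q ω).lb (G.x ω), (q ω).lb (fun i => G.d ω i / 2 ^ w)))

/-- The potential of the label. -/
noncomputable def Psi (κ : ℝ) {w : ℕ} (G : Fam 2 w) (q : G.Ω → Sec) : ℝ :=
  w * Real.log 2 + Ex G.p (fun ω => (2 * ((q ω).h : ℝ) + (1 - κ) * (q ω).p) * Real.log 2) -
    CH G.p (Lab G q) G.Z

/-- `p'` is a law on a larger space, with projection `pr` to `p`. -/
def Psh {E Ω : Type} [Fintype E] (p' : E → ℝ) (pr : E → Ω) (p : Ω → ℝ) : Prop :=
  ∀ ω, law p' pr ω = p ω

/-- Some copy of `G` (additional randomness) has a label with potential at least `x`. -/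
def Get (κ : ℝ) (R : ℕ) {w : ℕ} (G : Fam 2 w) (x : ℝ) : Prop :=
  ∃ (E : Type) (_ : Fintype E) (p' : E → ℝ) (hp' : IsLaw p') (pr : E → G.Ω) (q : E → Sec),
    Psh p' pr G.p ∧ (∀ e, 0 < p' e → Ok w R (q e)) ∧ x ≤ Psi κ (G.ext p' hp' pr) q

/-- Another time. -/
def setT {m J : ℕ} (G : Fam m J) (T' : G.Ω → ℕ) (hT' : ∀ ω, T' ω < 2 ^ J) : Fam m J where
  Ω := G.Ω
  ζ := G.ζ
  fin := G.fin
  p := G.p
  u := G.u
  d := G.d
  T := T'
  Z := G.Z
  isLaw := G.isLaw
  dir := G.dir
  tim := hT'

/-- The local family in the coordinates of the label with the section `q`, with time `τ` inside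
the window. -/
noncomputable def loc {w : ℕ} (G : Fam 2 w) (q : G.Ω → Sec) (L : ℕ) (τ : G.Ω → ℕ)
    (hτ : ∀ ω, τ ω < 2 ^ L) : Fam 2 L where
  Ω := G.Ω
  ζ := ((ℕ × Sec) × ((Fin 2 → ℤ) × (Fin 2 → ℤ))) × G.ζ
  fin := G.fin
  p := G.p
  u := fun ω i => Int.fract ((q ω).co (G.x ω) i)
  d := fun ω i => Int.fract ((q ω).co (fun i => G.d ω i / 2 ^ w) i)
  T := τ
  Z := fun ω => (Lab G q ω, G.Z ω)
  isLaw := G.isLaw
  dir := fun ω i => by
    rw [abs_of_nonneg (Int.fract_nonneg _)]
    exact (Int.fract_lt_one _).le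
  tim := hτ

/-! ### The cost of the times -/

/-- The cost of the last `N` blocks of `K` digits of the time: `y i` is the state of the block `i`
(counted from the end), `f` the cost of the digits in this state, `v` a hidden variable. -/
noncomputable def cst {Y : Type} (f : Y → ℕ → ℝ) (Λ : ℝ) (K N : ℕ) {w : ℕ} (G : Fam 2 w)
    {κ₁ : Type} (v : G.Ω → κ₁) (y : ℕ → G.Ω → Y) : ℝ :=
  ∑ i ∈ range N, Ex G.p (fun ω => f (y i ω) (G.T ω / 2 ^ (K * i) % 2 ^ K)) -
    Λ * CH G.p (fun ω => G.T ω % 2 ^ (K * N))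
      (fun ω => ((v ω, (G.l ω, G.Z ω)), G.T ω / 2 ^ (K * N)))

/-- The state of a block is a function of the hidden variable, of the line, and of the digits before
the block. -/
def Adm {Y : Type} (K N : ℕ) {w : ℕ} (G : Fam 2 w) {κ₁ : Type} (v : G.Ω → κ₁)
    (y : ℕ → G.Ω → Y) : Prop :=
  ∀ i < N, Det G.p (fun ω => ((v ω, (G.l ω, G.Z ω)), G.T ω / 2 ^ (K * (i + 1)))) (y i)

/-- **The loss of `N` blocks is at most their cost**, in standard local problems. -/
def PN (κ : ℝ) (A : ℕ) {Y : Type} (f : Y → ℕ → ℝ) (Λ : ℝ) (K N : ℕ) (δ : ℝ) : Prop :=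
  ∀ (G : Fam 2 (K * N)) (κ₁ : Type) (v : G.Ω → κ₁) (y : ℕ → G.Ω → Y), Adm K N G v y →
    (∀ ω i, |G.u ω i| ≤ 1) → ∀ s ≤ A * (K * N), ∀ q : G.Ω → Sec,
    (∀ ω, 0 < G.p ω → (q ω).c = false ∧ (q ω).h = K * N ∧ (q ω).p = s ∧
      |(q ω).a| ≤ 4 * 2 ^ s) →
    Get κ (K * N + s) (G.trc 0 (Nat.zero_le _))
      (Psi κ G q - cst f Λ K N G v y - δ * (K * N : ℕ))

/-- The cost is not negative (Gibbs inequality). -/
def Nng {Y : Type} (f : Y → ℕ → ℝ) (Λ : ℝ) (K : ℕ) : Prop :=
  ∀ y : Y, ∑ t ∈ range (2 ^ K), Real.exp (-f y t / Λ) ≤ 1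

end Pool.KM7
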