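import Pool.Agent.H15.KM7.Ops

/-!
# The local label potential: mixtures
-/

set_option autoImplicit false

namespace Pool.KM7

open Finset Real
open Pool.Agent.H49.Ent Pool.Agent.H32.Dense Pool.STK Pool.KA

theorem mix_thm : MIXStmt := by
  intro κ R w G σ _ S h x hget
  classical
  set I := {s // s ∈ (univ.image S).filter (fun s => law G.p S s ≠ 0)} with hI
  have hne : ∀ i : I, law G.p S i.1 ≠ 0 := fun i => (Finset.mem_filter.mp i.2).2
  have hget' : ∀ i : I, ∃ (E : Type) (_ : Fintype E) (p' : E → ℝ) (hp' : IsLaw p')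
      (pr : E → G.Ω) (q : E → Sec), Psh p' pr (cond G.p S i.1) ∧
      (∀ e, 0 < p' e → Ok w R (q e)) ∧ x i.1 ≤ Psi κ (G.ext p' hp' pr) q :=
    fun i => hget i.1 (hne i)
  choose E inst p' hp' pr q hpsh hok hx using hget'
  set wt : I → ℝ := fun i => law G.p S i.1 with hwt
  have hw0 : ∀ i, 0 ≤ wt i := fun i => law_nonneg G.isLaw.nonneg _ _
  have hsum : ∀ f : σ → ℝ, (∀ s, law G.p S s = 0 → f s = 0) →
      ∑ i : I, f i.1 = ∑ s ∈ univ.image S, f s := by
    intro f hf
    rw [Finset.sum_coe_sort ((univ.image S).filter (fun s => law G.p S s ≠ 0)) f,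
      Finset.sum_filter]
    refine Finset.sum_congr rfl fun s _ => ?_
    split_ifs with h1
    · rfl
    · exact (hf s (not_not.mp h1)).symm
  have hw1 : ∑ i, wt i = 1 := by
    have h1 := hsum (fun s => law G.p S s) (fun s hs => hs)
    have h2 := sum_law G.p S
    rw [G.isLaw.sum_one] at h2
    exact h1.trans h2
  set P := sg wt p' with hP
  have hPl : IsLaw P := sg_isLaw hw0 hw1 hp'
  have hpos : ∀ e, 0 < P e → 0 < wt e.1 ∧ 0 < p' e.1 e.2 := by
    intro e he
    rw [hP] at he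
    unfold sg at he
    rcases (hw0 e.1).eq_or_lt with h0 | h0
    · rw [← h0, zero_mul] at he
      exact absurd he (lt_irrefl _)
    rcases ((hp' e.1).nonneg e.2).eq_or_lt with h3 | h3
    · rw [← h3, mul_zero] at he
      exact absurd he (lt_irrefl _)
    exact ⟨h0, h3⟩
  have hS : ∀ e, 0 < P e → S (pr e.1 e.2) = e.1.1 := by
    intro e he
    have h1 : 0 < cond G.p S e.1.1 (pr e.1 e.2) :=
      (hpsh e.1).pos (hp' e.1).nonneg (hpos e he).2
    exact ((cond_pos_iff G.isLaw.nonneg S e.1.1 _).mp h1).2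
  have hPsh : Psh P (fun e : (Σ i, E i) => (pr e.1 e.2 : G.Ω)) G.p := by
    intro ω
    rw [hP, sg_law]
    have h1 : ∀ i : I, wt i * law (p' i) (fun e => pr i e) ω =
        if S ω = i.1 then G.p ω else 0 := by
      intro i
      have h2 : law (p' i) (fun e => pr i e) ω = cond G.p S i.1 ω := hpsh i ω
      rw [h2]
      unfold Pool.Agent.H49.Ent.cond
      split_ifs with h3
      · rw [hwt]
        field_simp [hne i]
      · rw [mul_zero]
    refine (Finset.sum_congr rfl fun i _ => h1 i).trans ?_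
    rcases (G.isLaw.nonneg ω).eq_or_lt with h0 | h0
    · rw [← h0]
      simp
    · have h4 : S ω ∈ (univ.image S).filter (fun s => law G.p S s ≠ 0) :=
        Finset.mem_filter.mpr ⟨Finset.mem_image_of_mem _ (Finset.mem_univ _),
          (law_pos G.isLaw.nonneg S h0).ne'⟩
      rw [Finset.sum_eq_single (⟨S ω, h4⟩ : I)]
      · simp
      · intro b _ hb
        rw [if_neg]
        intro h5
        exact hb (Subtype.ext h5.symm)
      · intro h5
        exact absurd (Finset.mem_univ _) h5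
  refine ⟨Σ i, E i, inferInstance, P, hPl, fun e => pr e.1 e.2, fun e => q e.1 e.2, hPsh,
    fun e he => hok e.1 e.2 (hpos e he).2, ?_⟩
  set F := G.ext P hPl (fun e : (Σ i, E i) => (pr e.1 e.2 : G.Ω)) with hF
  have hN := hPl.nonneg
  -- the entropy of the label
  have e1 := CH_le_add hN (Lab F (fun e => q e.1 e.2)) (fun e : (Σ i, E i) => e.1) F.Z
  have e2 : CH P (fun e : (Σ i, E i) => e.1) F.Z ≤ CH G.p S G.Z := by
    rw [← hPsh.CH_eq S G.Z]
    refine CH_mono_left hN ?_
    intro a b ha hb hab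
    have h1 : S (pr a.1 a.2) = S (pr b.1 b.2) := (Prod.ext_iff.mp hab).1
    rw [hS a ha, hS b hb] at h1
    exact Subtype.ext h1
  have e3 : CH P (Lab F (fun e => q e.1 e.2)) (fun e => (e.1, F.Z e)) =
      ∑ i, wt i * CH (p' i) (Lab (G.ext (p' i) (hp' i) (pr i)) (q i))
        (fun e => G.Z (pr i e)) := by
    have h1 := sg_CH hw0 hp' (Lab F (fun e => q e.1 e.2)) F.Z
    have h2 : CH P (Lab F (fun e => q e.1 e.2)) (fun e => (e.1, F.Z e)) =
        CH P (Lab F (fun e => q e.1 e.2)) (fun e => (F.Z e, e.1)) := by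
      refine CH_congr hN ?_ ?_ ?_ ?_
      · intro a b _ _ hh
        exact (Prod.ext_iff.mp hh).1
      · intro a b _ _ hh
        exact (Prod.ext_iff.mp hh).1
      · intro a b _ _ hh
        exact Prod.ext (Prod.ext_iff.mp hh).2 (Prod.ext_iff.mp hh).1
      · intro a b _ _ hh
        exact Prod.ext (Prod.ext_iff.mp hh).2 (Prod.ext_iff.mp hh).1
    rw [h2]
    exact h1
  have e4 : Ex P (fun e : (Σ i, E i) => (2 * ((q e.1 e.2).h : ℝ) + (1 - κ) * (q e.1 e.2).p) *
      Real.log 2) = ∑ i, wt i * Ex (p' i) (fun e => (2 * ((q i e).h : ℝ) +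
        (1 - κ) * (q i e).p) * Real.log 2) := sg_Ex _
  have e5 : ∑ s ∈ univ.image S, law G.p S s * x s = ∑ i, wt i * x i.1 :=
    (hsum (fun s => law G.p S s * x s) (fun s hs => by rw [hs, zero_mul])).symm
  have e6 : ∑ i, wt i * x i.1 ≤ ∑ i, wt i *
      Psi κ (G.ext (p' i) (hp' i) (pr i)) (q i) :=
    Finset.sum_le_sum fun i _ => mul_le_mul_of_nonneg_left (hx i) (hw0 i)
  have e7 : ∑ i, wt i * Psi κ (G.ext (p' i) (hp' i) (pr i)) (q i) =
      w * Real.log 2 + Ex P (fun e : (Σ i, E i) => (2 * ((q e.1 e.2).h : ℝ) +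
        (1 - κ) * (q e.1 e.2).p) * Real.log 2) -
        CH P (Lab F (fun e => q e.1 e.2)) (fun e => (e.1, F.Z e)) := by
    rw [e3, e4]
    unfold Psi
    simp only [mul_sub, mul_add, Finset.sum_sub_distrib, Finset.sum_add_distrib]
    rw [← Finset.sum_mul, hw1, one_mul]
    rfl
  have e8 : Psi κ F (fun e => q e.1 e.2) = w * Real.log 2 +
      Ex P (fun e : (Σ i, E i) => (2 * ((q e.1 e.2).h : ℝ) +
        (1 - κ) * (q e.1 e.2).p) * Real.log 2) - CH P (Lab F (fun e => q e.1 e.2)) F.Z := rfl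
  have e1' : CH P (Lab F (fun e => q e.1 e.2)) F.Z ≤ CH P (fun e : (Σ i, E i) => e.1) F.Z +
      CH P (Lab F (fun e => q e.1 e.2)) (fun e => (e.1, F.Z e)) := e1
  refine le_trans ?_ e8.ge
  rw [e5]
  linarith

end Pool.KM7
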