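import Pool.Agent.H15.KM7.Pair

/-!
# The local label potential: one piece of a step
-/

set_option autoImplicit false

namespace Pool.KM7

open Finset Real
open Pool.Agent.H49.Ent Pool.Agent.H32.Dense Pool.STK Pool.KA

variable {Y : Type} {f : Y → ℕ → ℝ} {Λ : ℝ} {K N : ℕ}

/-- The admissibility passes to the local family. -/
theorem adm_loc {w : ℕ} {G : Fam 2 (w + K * N)} {T' : G.Ω → ℕ}
    (hT' : ∀ ω, T' ω < 2 ^ (w + K * N)) {κ₁ : Type} {v : G.Ω → κ₁} {y : ℕ → G.Ω → Y}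
    (htm : ∀ ω, 0 < G.p ω → T' ω / 2 ^ (K * N) = G.T ω / 2 ^ (K * N))
    (hv : Det G.p v (fun ω => ((G.l ω, G.Z ω), G.T ω / 2 ^ (K * N))))
    (hA : Adm K N (setT G T' hT') v y) (qC : G.Ω → Sec) :
    Adm K N (loc (G.trc w (Nat.le_add_right w (K * N))) qC (K * N)
      (fun ω => T' ω % 2 ^ (K * N)) (fun _ => Nat.mod_lt _ (by positivity))) v y := by
  intro i hi a b ha hb hab
  have e1 : v a = v b := (Prod.ext_iff.mp (Prod.ext_iff.mp hab).1).1
  have e2 : T' a % 2 ^ (K * N) / 2 ^ (K * (i + 1)) = T' b % 2 ^ (K * N) / 2 ^ (K * (i + 1)) :=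
    (Prod.ext_iff.mp hab).2
  have e3 := hv a b ha hb e1
  have e4 : (G.l a, G.Z a) = (G.l b, G.Z b) := (Prod.ext_iff.mp e3).1
  have e5 : G.T a / 2 ^ (K * N) = G.T b / 2 ^ (K * N) := (Prod.ext_iff.mp e3).2
  have e6 : T' a / 2 ^ (K * N) = T' b / 2 ^ (K * N) := by rw [htm a ha, htm b hb, e5]
  exact hA i hi a b ha hb (Prod.ext (Prod.ext e1 e4) (div_of_mod hi e6 e2))

/-- The cost of the local family. -/
theorem cst_loc {w : ℕ} {G : Fam 2 (w + K * N)} {T' : G.Ω → ℕ}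
    (hT' : ∀ ω, T' ω < 2 ^ (w + K * N)) {κ₁ : Type} {v : G.Ω → κ₁} (y : ℕ → G.Ω → Y)
    (htm : ∀ ω, 0 < G.p ω → T' ω / 2 ^ (K * N) = G.T ω / 2 ^ (K * N))
    (qC : G.Ω → Sec)
    (hv : Det G.p v (fun ω => (((G.l ω, G.Z ω), G.T ω / 2 ^ (K * N)), qC ω))) :
    cst f Λ K N (loc (G.trc w (Nat.le_add_right w (K * N))) qC (K * N)
      (fun ω => T' ω % 2 ^ (K * N)) (fun _ => Nat.mod_lt _ (by positivity))) v y =
      cst f Λ K N (setT G T' hT') v y := by
  unfold cst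
  congr 1
  · refine Finset.sum_congr rfl fun i hi => ?_
    have h1 : ∀ ω, T' ω % 2 ^ (K * N) / 2 ^ (K * i) % 2 ^ K = T' ω / 2 ^ (K * i) % 2 ^ K :=
      fun ω => mod_div_mod (Finset.mem_range.mp hi)
    have h2 : (fun ω => f (y i ω) (T' ω % 2 ^ (K * N) / 2 ^ (K * i) % 2 ^ K)) =
        fun ω => f (y i ω) (T' ω / 2 ^ (K * i) % 2 ^ K) := by
      funext ω
      rw [h1]
    exact congrArg (Ex G.p) h2
  · congr 1
    have hl : Det G.p v (fun ω => (G.l ω, G.Z ω)) := fun a b ha hb hab =>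
      (Prod.ext_iff.mp (Prod.ext_iff.mp (hv a b ha hb hab)).1).1
    have ht : Det G.p v (fun ω => G.T ω / 2 ^ (K * N)) := fun a b ha hb hab =>
      (Prod.ext_iff.mp (Prod.ext_iff.mp (hv a b ha hb hab)).1).2
    have hq : Det G.p v qC := fun a b ha hb hab => (Prod.ext_iff.mp (hv a b ha hb hab)).2
    set G₀ := G.trc w (Nat.le_add_right w (K * N)) with hG₀
    have hT₀ : ∀ ω, G₀.T ω = G.T ω / 2 ^ (K * N) := by
      intro ω
      change G.T ω / 2 ^ (w + K * N - w) = _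
      rw [Nat.add_sub_cancel_left]
    have hx : Det G.p v G₀.x := by
      intro a b ha hb hab
      have e1 : G.l a = G.l b := (Prod.ext_iff.mp (hl a b ha hb hab)).1
      have e2 : G₀.T a = G₀.T b := (hT₀ a).trans ((ht a b ha hb hab).trans (hT₀ b).symm)
      have e3 : G.u a = G.u b := (Prod.ext_iff.mp e1).1
      have e4 : G.d a = G.d b := (Prod.ext_iff.mp e1).2
      funext i
      change G.u a i + (G₀.T a : ℝ) / 2 ^ w * G.d a i = G.u b i + (G₀.T b : ℝ) / 2 ^ w * G.d b i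
      rw [e2, e3, e4]
    have hd : Det G.p v G.d := fun a b ha hb hab =>
      (Prod.ext_iff.mp (Prod.ext_iff.mp (hl a b ha hb hab)).1).2
    have hLab : Det G.p v (Lab G₀ qC) := by
      intro a b ha hb hab
      have e1 : G₀.T a = G₀.T b := (hT₀ a).trans ((ht a b ha hb hab).trans (hT₀ b).symm)
      have e2 : qC a = qC b := hq a b ha hb hab
      have e3 : G₀.x a = G₀.x b := hx a b ha hb hab
      have e4 : G₀.d a = G₀.d b := hd a b ha hb hab
      unfold Lab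
      rw [e1, e2, e3, e4]
    have hu' : Det G.p v (fun ω => (fun i => Int.fract ((qC ω).co (G₀.x ω) i) : Fin 2 → ℝ)) := by
      intro a b ha hb hab
      have e2 : qC a = qC b := hq a b ha hb hab
      have e3 : G₀.x a = G₀.x b := hx a b ha hb hab
      simp only [e2, e3]
    have hd' : Det G.p v (fun ω =>
        (fun i => Int.fract ((qC ω).co (fun i => G₀.d ω i / 2 ^ w) i) : Fin 2 → ℝ)) := by
      intro a b ha hb hab
      have e2 : qC a = qC b := hq a b ha hb hab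
      have e4 : G₀.d a = G₀.d b := hd a b ha hb hab
      simp only [e2, e4]
    have hmm : ∀ ω, T' ω % 2 ^ (K * N) % 2 ^ (K * N) = T' ω % 2 ^ (K * N) := fun ω =>
      Nat.mod_mod _ _
    have hdm : ∀ ω, T' ω % 2 ^ (K * N) / 2 ^ (K * N) = 0 := fun ω =>
      Nat.div_eq_of_lt (Nat.mod_lt _ (by positivity))
    change CH G.p (fun ω => T' ω % 2 ^ (K * N) % 2 ^ (K * N)) (fun ω => ((v ω,
        (((fun i => Int.fract ((qC ω).co (G₀.x ω) i) : Fin 2 → ℝ),
          (fun i => Int.fract ((qC ω).co (fun i => G₀.d ω i / 2 ^ w) i) : Fin 2 → ℝ)),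
          (Lab G₀ qC ω, G.Z ω))), T' ω % 2 ^ (K * N) / 2 ^ (K * N))) =
      CH G.p (fun ω => T' ω % 2 ^ (K * N))
        (fun ω => ((v ω, (G.l ω, G.Z ω)), T' ω / 2 ^ (K * N)))
    simp only [hmm, hdm]
    refine CH_congr G.isLaw.nonneg ?_ ?_ ?_ ?_
    · intro a b _ _ hab
      exact (Prod.ext_iff.mp hab).1
    · intro a b _ _ hab
      exact (Prod.ext_iff.mp hab).1
    · intro a b ha hb hab
      have e1 : v a = v b := (Prod.ext_iff.mp (Prod.ext_iff.mp hab).1).1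
      refine Prod.ext (Prod.ext e1 (hl a b ha hb e1)) ?_
      change T' a / 2 ^ (K * N) = T' b / 2 ^ (K * N)
      rw [htm a ha, htm b hb]
      exact ht a b ha hb e1
    · intro a b ha hb hab
      have e1 : v a = v b := (Prod.ext_iff.mp (Prod.ext_iff.mp hab).1).1
      refine Prod.ext (Prod.ext e1 ?_) rfl
      refine Prod.ext (Prod.ext (hu' a b ha hb e1) (hd' a b ha hb e1))
        (Prod.ext (hLab a b ha hb e1) ?_)
      exact (Prod.ext_iff.mp (hl a b ha hb e1)).2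

/-- **One piece of a step.** -/
theorem piece (hSUB : SUBStmt) (hLOC1 : LOC1Stmt) (hLOC2 : LOC2Stmt) :
    ∃ C : ℝ, 0 ≤ C ∧ ∀ (κ : ℝ), 0 < κ → κ ≤ 1 → ∀ (A : ℕ), 3 ≤ κ * A →
    ∀ (Y : Type) (f : Y → ℕ → ℝ) (Λ : ℝ), 0 < Λ → ∀ (K N : ℕ), Nng f Λ K →
    ∀ δ : ℝ, 0 ≤ δ → PN κ A f Λ K N δ →
    ∀ (w R : ℕ) (G : Fam 2 (w + K * N)) (T' : G.Ω → ℕ) (hT' : ∀ ω, T' ω < 2 ^ (w + K * N))
      (q₀ q₁ : G.Ω → Sec) (c : Bool) (h p s : ℕ) (κ₁ : Type) (v : G.Ω → κ₁)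
      (y : ℕ → G.Ω → Y),
    Two G T' q₀ q₁ c h p → h + p ≤ R → s ≤ p →
    (∀ ω, 0 < G.p ω → s = Nat.log 2 ((q₀ ω).a - (q₁ ω).a).natAbs) →
    Psi κ G q₀ = Psi κ (setT G T' hT') q₁ →
    Det G.p v (fun ω => (((G.l ω, G.Z ω), G.T ω / 2 ^ (K * N)), q₀ ω)) →
    Adm K N (setT G T' hT') v y →
    Get κ R (G.trc w (Nat.le_add_right w (K * N)))
      (Psi κ (setT G T' hT') q₁ - cst f Λ K N (setT G T' hT') v y - δ * (K * N : ℕ) - C) := by
  obtain ⟨C₀, hC₀, hS⟩ := hSUB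
  obtain ⟨C₁, hC₁, hL1⟩ := hLOC1
  obtain ⟨C₂, hC₂, hL2⟩ := hLOC2
  refine ⟨C₀ + C₁ + C₂, by linarith, ?_⟩
  intro κ hκ hκ1 A hA Y f Λ hΛ K N hf δ hδ hP w R G T' hT' q₀ q₁ c h p s κ₁ v y hTwo hhR hsp
    hs hsym hv hAdm
  have hl2 : 0 < Real.log 2 := Real.log_pos (by norm_num)
  have hup : ∀ ω, 0 < G.p ω → |(q₀ ω).a - (q₁ ω).a| < 2 ^ (s + 1) := by
    intro ω hω
    have h1 := Nat.lt_pow_succ_log_self (b := 2) (by norm_num) ((q₀ ω).a - (q₁ ω).a).natAbs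
    rw [← hs ω hω] at h1
    rw [Int.abs_eq_natAbs]
    exact_mod_cast h1
  by_cases hcase : A * (K * N) < s
  · -- the sections turn
    have hs1 : s ≠ 0 := by omega
    have hlow : ∀ ω, 0 < G.p ω → 2 ^ s ≤ |(q₀ ω).a - (q₁ ω).a| := by
      intro ω hω
      have h0 : ((q₀ ω).a - (q₁ ω).a).natAbs ≠ 0 := by
        intro h0
        have := hs ω hω
        rw [h0, Nat.log_zero_right] at this
        exact hs1 this
      have h1 := Nat.pow_log_le_self 2 h0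
      rw [← hs ω hω] at h1
      rw [Int.abs_eq_natAbs]
      exact_mod_cast h1
    have h1 := hS κ hκ.le hκ1 w (K * N) R G T' hT' q₀ q₁ c h p s hTwo hhR hsp
      (fun ω hω => ⟨hlow ω hω, hup ω hω⟩)
    refine h1.mono ?_
    rw [hsym]
    have h2 := cst_nonneg hΛ hf (setT G T' hT') v y N hAdm
    have h3 : 3 * (((K * N : ℕ) : ℝ) * Real.log 2) ≤ κ * (s * Real.log 2) := by
      have h4 : ((A * (K * N) : ℕ) : ℝ) ≤ s := by exact_mod_cast hcase.le
      have h5 : (0 : ℝ) ≤ ((K * N : ℕ) : ℝ) := Nat.cast_nonneg _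
      have h6 : 3 * ((K * N : ℕ) : ℝ) ≤ κ * s := by
        calc 3 * ((K * N : ℕ) : ℝ) ≤ κ * A * ((K * N : ℕ) : ℝ) :=
              mul_le_mul_of_nonneg_right hA h5
          _ = κ * ((A * (K * N) : ℕ) : ℝ) := by push_cast; ring
          _ ≤ κ * s := mul_le_mul_of_nonneg_left h4 hκ.le
      nlinarith
    have h7 : 0 ≤ δ * ((K * N : ℕ) : ℝ) := mul_nonneg hδ (Nat.cast_nonneg _)
    linarith
  · -- the local problem
    set G₀ := G.trc w (Nat.le_add_right w (K * N)) with hG₀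
    set qC : G.Ω → Sec := fun ω => ⟨c, h - K * N, p - s, (q₀ ω).a / 2 ^ s⟩ with hqC
    set ql : G.Ω → Sec := fun ω => ⟨false, K * N, s, (q₁ ω).a - (q₀ ω).a / 2 ^ s * 2 ^ s⟩ with hql
    have h1 := hL1 κ hκ.le hκ1 w (K * N) G T' hT' q₀ q₁ c h p s hTwo hsp hup
    have hv' : Det G.p v (fun ω => (((G.l ω, G.Z ω), G.T ω / 2 ^ (K * N)), qC ω)) := by
      intro a b ha hb hab
      have e1 := hv a b ha hb hab
      refine Prod.ext (Prod.ext_iff.mp e1).1 ?_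
      have e2 : q₀ a = q₀ b := (Prod.ext_iff.mp e1).2
      change qC a = qC b
      simp only [hqC, e2]
    have hv'' : Det G.p v (fun ω => ((G.l ω, G.Z ω), G.T ω / 2 ^ (K * N))) :=
      fun a b ha hb hab => (Prod.ext_iff.mp (hv' a b ha hb hab)).1
    have h2 := hP (loc G₀ qC (K * N) (fun ω => T' ω % 2 ^ (K * N))
      (fun _ => Nat.mod_lt _ (by positivity))) κ₁ v y
      (adm_loc hT' hTwo.tm hv'' hAdm qC)
      (fun ω i => by
        change |Int.fract _| ≤ 1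
        rw [abs_of_nonneg (Int.fract_nonneg _)]
        exact (Int.fract_lt_one _).le) s (by omega) ql
      (fun ω hω => ⟨rfl, rfl, rfl, abs_loc_le (hup ω hω)⟩)
    rw [cst_loc hT' y hTwo.tm qC hv'] at h2
    have hok : ∀ ω, 0 < G₀.p ω → Ok w (h - K * N + (p - s)) (qC ω) := by
      intro ω hω
      refine ⟨?_, le_refl _, ?_⟩
      · have := hTwo.lo
        change w ≤ h - K * N
        omega
      · exact abs_ediv_le (hTwo.c0 ω hω).2.2.2 hsp
    have h3 := hL2 κ hκ.le hκ1 w (K * N) R (h - K * N + (p - s)) (K * N + s) G₀ qC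
      (fun ω => T' ω % 2 ^ (K * N)) (fun _ => Nat.mod_lt _ (by positivity)) hok
      (by have := hTwo.lo; omega) _ h2
    refine h3.mono ?_
    have h4 : Psi κ (setT G T' hT') q₁ ≤ Psi κ G₀ qC + Psi κ (loc G₀ qC (K * N)
      (fun ω => T' ω % 2 ^ (K * N)) (fun _ => Nat.mod_lt _ (by positivity))) ql + C₁ := h1
    linarith

end Pool.KM7
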