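import Pool.Agent.H15.KM7.All

/-!
# The local label potential: the start
-/

set_option autoImplicit false

namespace Pool.KM7

open Finset Real
open Pool.Agent.H49.Ent Pool.Agent.H32.Dense Pool.STK Pool.KA

theorem sta_thm : STAStmt := by
  classical
  obtain ⟨FS, hFS⟩ : ∃ FS : Finset (Fin 2 → ℤ), FS = Fintype.piFinset fun _ => Icc (-1) 1 :=
    ⟨_, rfl⟩
  have hc0 : 0 ≤ Real.log FS.card := Real.log_natCast_nonneg _
  refine ⟨Real.log FS.card, hc0, fun κ J F => ?_⟩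
  have hp := F.isLaw.nonneg
  have h1 : Psi κ F (fun _ => ⟨false, J, 0, 0⟩) = 3 * (J * Real.log 2) -
      CH F.p (Lab F (fun _ => ⟨false, J, 0, 0⟩)) F.Z := by
    unfold Psi
    have h2 : (fun _ : F.Ω => (2 * (J : ℝ) + (1 - κ) * ((0 : ℕ) : ℝ)) * Real.log 2) =
        fun _ => 2 * (J * Real.log 2) := by
      funext ω
      push_cast
      ring
    change (J : ℝ) * Real.log 2 + Ex F.p
      (fun _ : F.Ω => (2 * (J : ℝ) + (1 - κ) * ((0 : ℕ) : ℝ)) * Real.log 2) - _ = _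
    rw [h2, Ex_const F.isLaw.sum_one]
    ring
  rw [h1]
  have hfl : ∀ x : Fin 2 → ℝ, (⟨false, J, 0, 0⟩ : Sec).lb x = fl J x := by
    intro x
    funext i
    unfold Sec.lb Sec.co fl rd
    fin_cases i <;> simp [ix, iy]
  have h2 : CH F.p (Lab F (fun _ => ⟨false, J, 0, 0⟩)) F.Z ≤
      CH F.p (fun ω => (F.X J ω, F.T ω)) F.Z + CH F.p (Lab F (fun _ => ⟨false, J, 0, 0⟩))
        (fun ω => ((F.X J ω, F.T ω), F.Z ω)) := CH_le_add hp _ _ _
  have h3 : CH F.p (Lab F (fun _ => ⟨false, J, 0, 0⟩)) (fun ω => ((F.X J ω, F.T ω), F.Z ω)) ≤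
      CH F.p (fun ω => fl J (fun i => F.d ω i / 2 ^ J))
        (fun ω => ((F.X J ω, F.T ω), F.Z ω)) := by
    refine CH_mono_left hp fun ω ω' _ _ h => ?_
    simp only [Prod.mk.injEq] at h
    obtain ⟨h4, ⟨h5, h6⟩, -⟩ := h
    unfold Lab
    simp only [hfl]
    rw [h4, h6]
    exact congrArg (fun z => ((F.T ω', (⟨false, J, 0, 0⟩ : Sec)), (z, _))) h5
  have h4 : CH F.p (fun ω => fl J (fun i => F.d ω i / 2 ^ J))
        (fun ω => ((F.X J ω, F.T ω), F.Z ω)) ≤ Real.log FS.card := by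
    refine CH_le_log F.isLaw _ _ FS fun ω _ => ?_
    rw [hFS, Fintype.mem_piFinset]
    intro i
    unfold fl rd
    have h5 := F.dir ω i
    rw [abs_le] at h5
    have h6 : (2 : ℝ) ^ J * (F.d ω i / 2 ^ J) = F.d ω i := by field_simp
    rw [Finset.mem_Icc]
    dsimp only
    rw [h6]
    constructor
    · rw [Int.le_floor]
      push_cast
      linarith
    · have : ⌊F.d ω i⌋ < 2 := by
        rw [Int.floor_lt]
        push_cast
        linarith
      omega
  linarith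

theorem thmBU_all : THMBUStmt := thmBU_sta sta_thm

end Pool.KM7
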