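import Pool.Agent.H15.KM7.Piece

/-!
# The local label potential: one step
-/

set_option autoImplicit false

namespace Pool.KM7

open Finset Real
open Pool.Agent.H49.Ent Pool.Agent.H32.Dense Pool.STK Pool.KA

/-- The type of a section. -/
def ty (q : Sec) : (Bool × ℕ) × (ℕ × ℤ) := ((q.c, q.h), (q.p, q.a / 2 ^ q.p))

theorem log_le_of_ty {a b : ℤ} {p : ℕ} (h : a / 2 ^ p = b / 2 ^ p) :
    Nat.log 2 (a - b).natAbs ≤ p := by
  have hpos : (0 : ℤ) < 2 ^ p := by positivity
  have h1 := Int.emod_nonneg a hpos.ne'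
  have h2 := Int.emod_lt_of_pos a hpos
  have h3 := Int.mul_ediv_add_emod a (2 ^ p)
  have h4 := Int.emod_nonneg b hpos.ne'
  have h5 := Int.emod_lt_of_pos b hpos
  have h6 := Int.mul_ediv_add_emod b (2 ^ p)
  rw [h] at h3
  have h7 : |a - b| ≤ 2 ^ p := by
    rw [abs_le]
    constructor <;> linarith
  rw [Int.abs_eq_natAbs] at h7
  have h8 : (a - b).natAbs ≤ 2 ^ p := by exact_mod_cast h7
  calc Nat.log 2 (a - b).natAbs ≤ Nat.log 2 (2 ^ p) := Nat.log_mono_right h8
    _ = p := Nat.log_pow (by norm_num) p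

theorem CH_le_log {Ω : Type} [Fintype Ω] {p : Ω → ℝ} (hp : IsLaw p) {S T : Type*} (X : Ω → S)
    (W : Ω → T) (F : Finset S) (hF : ∀ ω, 0 < p ω → X ω ∈ F) :
    CH p X W ≤ Real.log F.card := by
  have h := CH_le_card hp.nonneg hp.sum_one X W (fun _ => F) hF
  rwa [Ex_const hp.sum_one] at h

theorem step_thm (hSUB : SUBStmt) (hLOC1 : LOC1Stmt) (hLOC2 : LOC2Stmt) : STEPStmt := by
  obtain ⟨C₀, hC₀, hpiece⟩ := piece hSUB hLOC1 hLOC2
  have hl2 : 0 < Real.log 2 := Real.log_pos (by norm_num)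
  refine ⟨C₀ / Real.log 2 + 11, by positivity, ?_⟩
  intro κ hκ hκ1 A hA Y f Λ hΛ K N hf δ hδ hP w R G κ₁ v y hAdm q hok
  classical
  set base : G.Ω → (κ₁ × (((Fin 2 → ℝ) × (Fin 2 → ℝ)) × G.ζ)) × ℕ :=
    fun ω => ((v ω, (G.l ω, G.Z ω)), G.T ω / 2 ^ (K * N)) with hbase
  set g : G.Ω → ((κ₁ × (((Fin 2 → ℝ) × (Fin 2 → ℝ)) × G.ζ)) × ℕ) × ((Bool × ℕ) × (ℕ × ℤ)) :=
    fun ω => (base ω, ty (q ω)) with hg
  set P := P2 G.p g with hPdef
  have hPl : IsLaw P := P2_isLaw G.isLaw g
  have hfst : Psh P Prod.fst G.p := P2_fst G.isLaw g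
  have hsnd : Psh P Prod.snd G.p := P2_snd G.isLaw g
  have hpos : ∀ e, 0 < P e → 0 < G.p e.1 ∧ 0 < G.p e.2 ∧ g e.1 = g e.2 := fun e he =>
    (P2_pos G.isLaw e).mp he
  set T' : G.Ω × G.Ω → ℕ := fun e => G.T e.2 with hT'def
  have hT' : ∀ e, T' e < 2 ^ (w + K * N) := fun e => G.tim e.2
  set S : G.Ω × G.Ω → (Bool × ℕ) × (ℕ × ℕ) := fun e =>
    (((q e.1).c, (q e.1).h), ((q e.1).p, Nat.log 2 ((q e.1).a - (q e.2).a).natAbs)) with hS
  -- the two samples on the support
  have hg1 : ∀ e, 0 < P e → base e.1 = base e.2 := fun e he =>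
    (Prod.ext_iff.mp (hpos e he).2.2).1
  have hg2 : ∀ e, 0 < P e → ty (q e.1) = ty (q e.2) := fun e he =>
    (Prod.ext_iff.mp (hpos e he).2.2).2
  have hty : ∀ e, 0 < P e → (q e.1).c = (q e.2).c ∧ (q e.1).h = (q e.2).h ∧
      (q e.1).p = (q e.2).p ∧ (q e.1).a / 2 ^ (q e.1).p = (q e.2).a / 2 ^ (q e.2).p := by
    intro e he
    have h1 := hg2 e he
    unfold ty at h1
    simp only [Prod.mk.injEq] at h1
    exact ⟨h1.1.1, h1.1.2, h1.2.1, h1.2.2⟩
  have hline : ∀ e, 0 < P e → v e.1 = v e.2 ∧ G.u e.1 = G.u e.2 ∧ G.d e.1 = G.d e.2 ∧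
      G.Z e.1 = G.Z e.2 ∧ G.T e.1 / 2 ^ (K * N) = G.T e.2 / 2 ^ (K * N) := by
    intro e he
    have h1 := hg1 e he
    simp only [hbase, Fam.l, Prod.mk.injEq] at h1
    exact ⟨h1.1.1, h1.1.2.1.1, h1.1.2.1.2, h1.1.2.2, h1.2⟩
  have hswap : ∀ e, P2 G.p g e ≠ 0 → S e.swap = S e := by
    intro e he
    have he' : 0 < P e := lt_of_le_of_ne (hPl.nonneg e) (Ne.symm he)
    obtain ⟨h1, h2, h3, _⟩ := hty e he'
    simp only [hS, Prod.fst_swap, Prod.snd_swap]
    rw [h1, h2, h3, ← Int.natAbs_neg, neg_sub]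
  -- the pieces
  set L1 : G.Ω × G.Ω → (ℕ × Sec) × ((Fin 2 → ℤ) × (Fin 2 → ℤ)) :=
    Lab (setT (G.ext P hPl Prod.fst) T' hT') (fun e => q e.2) with hL1
  set F1 : G.Ω × G.Ω → ℝ := fun e =>
    (2 * ((q e.2).h : ℝ) + (1 - κ) * (q e.2).p) * Real.log 2 with hF1
  set M1 : G.Ω × G.Ω → ℕ := fun e => T' e % 2 ^ (K * N) with hM1
  set V1 : G.Ω × G.Ω → ((G.Ω × G.Ω → G.Ω) → Unit) → Unit := fun _ _ => () with hV1
  clear hV1 V1
  set V1 := (fun e : G.Ω × G.Ω => ((e.1, (G.l e.1, G.Z e.1)), T' e / 2 ^ (K * N))) with hV1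
  set fi : ℕ → G.Ω × G.Ω → ℝ := fun i e => f (y i e.2) (T' e / 2 ^ (K * i) % 2 ^ K) with hfi
  set x : (Bool × ℕ) × (ℕ × ℕ) → ℝ := fun s =>
    ((w + K * N : ℕ) * Real.log 2 + Ex (Pool.Agent.H49.Ent.cond P S s) F1 -
      CH (Pool.Agent.H49.Ent.cond P S s) L1 (fun e => G.Z e.1)) -
    (∑ i ∈ range N, Ex (Pool.Agent.H49.Ent.cond P S s) (fi i) -
      Λ * CH (Pool.Agent.H49.Ent.cond P S s) M1 V1) - δ * (K * N : ℕ) - C₀ with hx
  have hmix := mix_thm κ R w ((G.ext P hPl Prod.fst).trc w (Nat.le_add_right w (K * N)))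
    ((Bool × ℕ) × (ℕ × ℕ)) S (fun s hs => cond_isLaw hPl.nonneg S hs) x (by
      rintro ⟨⟨c, h⟩, ⟨p, s⟩⟩ hs
      have hs' : law P S ((c, h), (p, s)) ≠ 0 := hs
      set Q := Pool.Agent.H49.Ent.cond P S ((c, h), (p, s)) with hQ
      have hQl : IsLaw Q := cond_isLaw hPl.nonneg S hs'
      have hQpos : ∀ e, 0 < Q e → 0 < P e ∧ (q e.1).c = c ∧ (q e.1).h = h ∧ (q e.1).p = p ∧
          Nat.log 2 ((q e.1).a - (q e.2).a).natAbs = s := by
        intro e he
        obtain ⟨h1, h2⟩ := (cond_pos_iff hPl.nonneg S _ e).mp he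
        simp only [hS, Prod.mk.injEq] at h2
        exact ⟨h1, h2.1.1, h2.1.2, h2.2.1, h2.2.2⟩
      obtain ⟨e₀, he₀⟩ : ∃ e, 0 < Q e := by
        by_contra hcon
        push Not at hcon
        have h1 := hQl.sum_one
        have h2 : ∑ e, Q e = 0 := Finset.sum_eq_zero fun e _ =>
          le_antisymm (hcon e) (hQl.nonneg e)
        rw [h2] at h1
        exact zero_ne_one h1
      set Gs := G.ext Q hQl Prod.fst with hGs
      have hTwo : Two Gs T' (fun e => q e.1) (fun e => q e.2) c h p := by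
        refine ⟨fun e he => ?_, fun e he => ?_, fun e he => ?_, ?_⟩
        · exact ((hline e (hQpos e he).1).2.2.2.2).symm
        · obtain ⟨h1, h2, h3, h4, _⟩ := hQpos e he
          refine ⟨h2, h3, h4, ?_⟩
          rw [← h4]
          exact (hok e.1 (hpos e h1).1).sl
        · obtain ⟨h1, h2, h3, h4, _⟩ := hQpos e he
          obtain ⟨k1, k2, k3, _⟩ := hty e h1
          refine ⟨k1 ▸ h2, k2 ▸ h3, k3 ▸ h4, ?_⟩
          rw [← h4, k3]
          exact (hok e.2 (hpos e h1).2.1).sl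
        · obtain ⟨h1, h2, h3, h4, _⟩ := hQpos e₀ he₀
          rw [← h3]
          exact (hok e₀.1 (hpos e₀ h1).1).lo
      have hhR : h + p ≤ R := by
        obtain ⟨h1, h2, h3, h4, _⟩ := hQpos e₀ he₀
        rw [← h3, ← h4]
        exact (hok e₀.1 (hpos e₀ h1).1).hi
      have hsp : s ≤ p := by
        obtain ⟨h1, h2, h3, h4, h5⟩ := hQpos e₀ he₀
        obtain ⟨k1, k2, k3, k4⟩ := hty e₀ h1
        rw [← h5, ← h4]
        rw [← k3] at k4
        exact log_le_of_ty k4
      have hsym : Psi κ Gs (fun e => q e.1) = Psi κ (setT Gs T' hT') (fun e => q e.2) := by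
        have hsw : Psh Q Prod.swap Q := P2_sym G.p g S _ hswap
        have e1 : Ex Q (fun e => (2 * ((q e.1).h : ℝ) + (1 - κ) * (q e.1).p) * Real.log 2) =
            Ex Q (fun e => (2 * ((q e.2).h : ℝ) + (1 - κ) * (q e.2).p) * Real.log 2) :=
          (hsw.Ex_eq (fun e => (2 * ((q e.1).h : ℝ) + (1 - κ) * (q e.1).p) *
            Real.log 2)).symm
        have e2 : CH Q (Lab G q ∘ Prod.fst) (fun e => G.Z e.1) =
            CH Q (Lab G q ∘ Prod.snd) (fun e => G.Z e.2) :=
          (hsw.CH_eq (Lab G q ∘ Prod.fst) (fun e => G.Z e.1)).symm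
        have e3 : CH Q (Lab G q ∘ Prod.snd) (fun e => G.Z e.2) =
            CH Q (Lab (setT Gs T' hT') (fun e => q e.2)) (fun e => G.Z e.1) := by
          have hlab : ∀ e, 0 < Q e → Lab G q e.2 = Lab (setT Gs T' hT') (fun e => q e.2) e := by
            intro e he
            obtain ⟨_, k2, k3, _, _⟩ := hline e (hQpos e he).1
            have hxx : G.x e.2 = (setT Gs T' hT').x e := by
              funext i
              change G.u e.2 i + (G.T e.2 : ℝ) / 2 ^ (w + K * N) * G.d e.2 i =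
                G.u e.1 i + (G.T e.2 : ℝ) / 2 ^ (w + K * N) * G.d e.1 i
              rw [k2, k3]
            unfold Lab
            refine Prod.ext rfl (Prod.ext ?_ ?_)
            · change (q e.2).lb (G.x e.2) = (q e.2).lb ((setT Gs T' hT').x e)
              rw [hxx]
            · change (q e.2).lb (fun i => G.d e.2 i / 2 ^ (w + K * N)) =
                (q e.2).lb (fun i => G.d e.1 i / 2 ^ (w + K * N))
              rw [k3]
          have hZ : ∀ e, 0 < Q e → G.Z e.2 = G.Z e.1 := fun e he =>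
            ((hline e (hQpos e he).1).2.2.2.1).symm
          refine CH_congr hQl.nonneg ?_ ?_ ?_ ?_
          · intro a b ha hb hab
            rw [← hlab a ha, ← hlab b hb]
            exact (Prod.ext_iff.mp hab).1
          · intro a b ha hb hab
            change Lab G q a.2 = Lab G q b.2
            rw [hlab a ha, hlab b hb]
            exact (Prod.ext_iff.mp hab).1
          · intro a b ha hb hab
            change G.Z a.1 = G.Z b.1
            rw [← hZ a ha, ← hZ b hb]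
            exact hab
          · intro a b ha hb hab
            change G.Z a.2 = G.Z b.2
            rw [hZ a ha, hZ b hb]
            exact hab
        change (w + K * N : ℕ) * Real.log 2 + Ex Q (fun e => (2 * ((q e.1).h : ℝ) +
            (1 - κ) * (q e.1).p) * Real.log 2) - CH Q (Lab G q ∘ Prod.fst) (fun e => G.Z e.1) =
          (w + K * N : ℕ) * Real.log 2 + Ex Q (fun e => (2 * ((q e.2).h : ℝ) +
            (1 - κ) * (q e.2).p) * Real.log 2) -
            CH Q (Lab (setT Gs T' hT') (fun e => q e.2)) (fun e => G.Z e.1)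
        rw [e1, e2, e3]
      have hv : Det Gs.p (fun e : G.Ω × G.Ω => e.1) (fun e => (((Gs.l e, Gs.Z e),
          Gs.T e / 2 ^ (K * N)), q e.1)) := by
        intro a b _ _ hab
        have hab' : a.1 = b.1 := hab
        change (((G.l a.1, G.Z a.1), G.T a.1 / 2 ^ (K * N)), q a.1) =
          (((G.l b.1, G.Z b.1), G.T b.1 / 2 ^ (K * N)), q b.1)
        rw [hab']
      have hAdm' : Adm K N (setT Gs T' hT') (fun e : G.Ω × G.Ω => e.1)
          (fun i e => y i e.2) := by
        intro i hi a b ha hb hab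
        have hab1 : a.1 = b.1 := (Prod.ext_iff.mp (Prod.ext_iff.mp hab).1).1
        have hab2 : G.T a.2 / 2 ^ (K * (i + 1)) = G.T b.2 / 2 ^ (K * (i + 1)) :=
          (Prod.ext_iff.mp hab).2
        obtain ⟨ha1, _⟩ := hQpos a ha
        obtain ⟨hb1, _⟩ := hQpos b hb
        have h1 := hg1 a ha1
        have h2 := hg1 b hb1
        rw [hab1] at h1
        have h3 : base a.2 = base b.2 := h1.symm.trans h2
        refine hAdm i hi a.2 b.2 (hpos a ha1).2.1 (hpos b hb1).2.1 (Prod.ext ?_ hab2)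
        exact (Prod.ext_iff.mp h3).1
      exact hpiece κ hκ hκ1 A hA Y f Λ hΛ K N hf δ hδ hP w R Gs T' hT' (fun e => q e.1)
        (fun e => q e.2) c h p s G.Ω (fun e => e.1) (fun i e => y i e.2) hTwo hhR hsp
        (fun e he => (hQpos e he).2.2.2.2.symm) hsym hv hAdm')
  have hget : Get κ R ((G.trc w (Nat.le_add_right w (K * N))).ext P hPl Prod.fst)
      (∑ s ∈ univ.image S, law P S s * x s - CH P S (fun e => G.Z e.1)) := hmix
  have hget2 := Get.of_ext (G := G.trc w (Nat.le_add_right w (K * N))) hfst hget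
  refine hget2.mono ?_
  -- the averages
  have a1 := avg_Ex hPl.nonneg S F1
  have a2 := avg_CH hPl.nonneg S L1 (fun e => G.Z e.1)
  have a3 : ∀ i, Ex P (fi i) = ∑ s ∈ univ.image S, law P S s *
      Ex (Pool.Agent.H49.Ent.cond P S s) (fi i) := fun i => avg_Ex hPl.nonneg S (fi i)
  have a4 := avg_CH hPl.nonneg S M1 V1
  have a5 : ∑ s ∈ univ.image S, law P S s = 1 := (sum_law P S).trans hPl.sum_one
  have hsumx : ∑ s ∈ univ.image S, law P S s * x s =
      ((w + K * N : ℕ) * Real.log 2 + Ex P F1 - CH P L1 (fun e => (G.Z e.1, S e))) -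
      (∑ i ∈ range N, Ex P (fi i) - Λ * CH P M1 (fun e => (V1 e, S e))) -
      δ * (K * N : ℕ) - C₀ := by
    have h1 : ∀ s, law P S s * x s = law P S s * ((w + K * N : ℕ) * Real.log 2) +
        law P S s * Ex (Pool.Agent.H49.Ent.cond P S s) F1 -
        law P S s * CH (Pool.Agent.H49.Ent.cond P S s) L1 (fun e => G.Z e.1) -
        (∑ i ∈ range N, law P S s * Ex (Pool.Agent.H49.Ent.cond P S s) (fi i) -
          Λ * (law P S s * CH (Pool.Agent.H49.Ent.cond P S s) M1 V1)) -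
        law P S s * (δ * (K * N : ℕ)) - law P S s * C₀ := by
      intro s
      rw [hx, ← Finset.mul_sum]
      ring
    rw [Finset.sum_congr rfl fun s _ => h1 s]
    simp only [Finset.sum_sub_distrib, Finset.sum_add_distrib]
    rw [← Finset.sum_mul, ← Finset.sum_mul, ← Finset.sum_mul, a5, ← a1, ← a2,
      Finset.sum_comm, ← Finset.mul_sum, ← a4]
    rw [Finset.sum_congr rfl fun i _ => (a3 i).symm]
    ring
  rw [hsumx]
  -- the label of the second sample
  have b1 : Ex P F1 = Ex G.p (fun ω => (2 * ((q ω).h : ℝ) + (1 - κ) * (q ω).p) *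
      Real.log 2) := hsnd.Ex_eq (fun ω => (2 * ((q ω).h : ℝ) + (1 - κ) * (q ω).p) *
      Real.log 2)
  have b2 : CH P L1 (fun e => (G.Z e.1, S e)) ≤ CH G.p (Lab G q) G.Z := by
    have h1 : CH P L1 (fun e => (G.Z e.1, S e)) ≤ CH P L1 (fun e => G.Z e.1) :=
      CH_mono_cond hPl.nonneg (fun a b _ _ h => (Prod.ext_iff.mp h).1)
    have h2 : CH P (fun e => Lab G q e.2) (fun e => G.Z e.2) = CH G.p (Lab G q) G.Z :=
      hsnd.CH_eq (Lab G q) G.Z
    have hlab : ∀ e, 0 < P e → Lab G q e.2 = L1 e := by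
      intro e he
      obtain ⟨_, k2, k3, _, _⟩ := hline e he
      have hxx : G.x e.2 = (setT (G.ext P hPl Prod.fst) T' hT').x e := by
        funext i
        change G.u e.2 i + (G.T e.2 : ℝ) / 2 ^ (w + K * N) * G.d e.2 i =
          G.u e.1 i + (G.T e.2 : ℝ) / 2 ^ (w + K * N) * G.d e.1 i
        rw [k2, k3]
      rw [hL1]
      unfold Lab
      refine Prod.ext rfl (Prod.ext ?_ ?_)
      · change (q e.2).lb (G.x e.2) =
          (q e.2).lb ((setT (G.ext P hPl Prod.fst) T' hT').x e)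
        rw [hxx]
      · change (q e.2).lb (fun i => G.d e.2 i / 2 ^ (w + K * N)) =
          (q e.2).lb (fun i => G.d e.1 i / 2 ^ (w + K * N))
        rw [k3]
    have hZ : ∀ e, 0 < P e → G.Z e.2 = G.Z e.1 := fun e he => ((hline e he).2.2.2.1).symm
    have h3 : CH P (fun e => Lab G q e.2) (fun e => G.Z e.2) = CH P L1 (fun e => G.Z e.1) := by
      refine CH_congr hPl.nonneg ?_ ?_ ?_ ?_
      · intro a b ha hb hab
        rw [← hlab a ha, ← hlab b hb]
        exact (Prod.ext_iff.mp hab).1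
      · intro a b ha hb hab
        change Lab G q a.2 = Lab G q b.2
        rw [hlab a ha, hlab b hb]
        exact (Prod.ext_iff.mp hab).1
      · intro a b ha hb hab
        change G.Z a.1 = G.Z b.1
        rw [← hZ a ha, ← hZ b hb]
        exact hab
      · intro a b ha hb hab
        change G.Z a.2 = G.Z b.2
        rw [hZ a ha, hZ b hb]
        exact hab
    linarith only [h1, h2, h3]
  -- the times
  have c1 : ∀ i, Ex P (fi i) = Ex G.p (fun ω => f (y i ω) (G.T ω / 2 ^ (K * i) % 2 ^ K)) :=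
    fun i => hsnd.Ex_eq (fun ω => f (y i ω) (G.T ω / 2 ^ (K * i) % 2 ^ K))
  set M : G.Ω → ℕ := fun ω => G.T ω % 2 ^ (K * N) with hM
  have c2 : CH P M1 V1 = CH G.p M g := by
    have h1 := P2_CH G.isLaw g M
    rw [← h1]
    refine CH_congr hPl.nonneg ?_ ?_ ?_ ?_
    · intro a b _ _ hab
      exact (Prod.ext_iff.mp hab).1
    · intro a b _ _ hab
      exact (Prod.ext_iff.mp hab).1
    · intro a b _ _ hab
      exact (Prod.ext_iff.mp (Prod.ext_iff.mp hab).1).1
    · intro a b ha hb hab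
      have hab' : a.1 = b.1 := hab
      refine Prod.ext (Prod.ext hab' ?_) ?_
      · change (G.l a.1, G.Z a.1) = (G.l b.1, G.Z b.1)
        rw [hab']
      · change G.T a.2 / 2 ^ (K * N) = G.T b.2 / 2 ^ (K * N)
        rw [← (hline a ha).2.2.2.2, ← (hline b hb).2.2.2.2, hab']
  have c3 : CH P M1 V1 ≤ CH P S V1 + CH P M1 (fun e => (S e, V1 e)) :=
    CH_le_add hPl.nonneg M1 S V1
  have c4 : CH P M1 (fun e => (S e, V1 e)) = CH P M1 (fun e => (V1 e, S e)) := by
    refine CH_congr hPl.nonneg ?_ ?_ ?_ ?_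
    · intro a b _ _ hab
      exact (Prod.ext_iff.mp hab).1
    · intro a b _ _ hab
      exact (Prod.ext_iff.mp hab).1
    · intro a b _ _ hh
      exact Prod.ext (Prod.ext_iff.mp hh).2 (Prod.ext_iff.mp hh).1
    · intro a b _ _ hh
      exact Prod.ext (Prod.ext_iff.mp hh).2 (Prod.ext_iff.mp hh).1
  have c5 : CH G.p M base ≤ CH G.p (fun ω => ty (q ω)) base +
      CH G.p M (fun ω => (ty (q ω), base ω)) := CH_le_add G.isLaw.nonneg M _ base
  have c6 : CH G.p M (fun ω => (ty (q ω), base ω)) = CH G.p M g := by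
    refine CH_congr G.isLaw.nonneg ?_ ?_ ?_ ?_
    · intro a b _ _ hab
      exact (Prod.ext_iff.mp hab).1
    · intro a b _ _ hab
      exact (Prod.ext_iff.mp hab).1
    · intro a b _ _ hh
      exact Prod.ext (Prod.ext_iff.mp hh).2 (Prod.ext_iff.mp hh).1
    · intro a b _ _ hh
      exact Prod.ext (Prod.ext_iff.mp hh).2 (Prod.ext_iff.mp hh).1
  -- the cardinalities
  set lR := Real.log ((R : ℝ) + 2) with hlR
  have hR2 : (2 : ℝ) ≤ (R : ℝ) + 2 := by
    have : (0 : ℝ) ≤ R := Nat.cast_nonneg R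
    linarith only
  have hlR2 : Real.log 2 ≤ lR := Real.log_le_log (by norm_num) hR2
  have hcS : ∀ (T : Type) (W : G.Ω × G.Ω → T), CH P S W ≤ 4 * lR := by
    intro T W
    have h1 := CH_le_log hPl S W (((Finset.univ : Finset Bool) ×ˢ range (R + 1)) ×ˢ
      (range (R + 1) ×ˢ range (R + 1))) (by
        intro e he
        obtain ⟨p1, p2, _⟩ := hpos e he
        have hk := hok e.1 p1
        obtain ⟨k1, k2, k3, k4⟩ := hty e he
        have h2 := hk.hi
        rw [← k3] at k4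
        have h3 := log_le_of_ty k4
        simp only [hS, Finset.mem_product, Finset.mem_univ, true_and, Finset.mem_range]
        omega)
    refine h1.trans ?_
    have h2 : (((((Finset.univ : Finset Bool) ×ˢ range (R + 1)) ×ˢ
      (range (R + 1) ×ˢ range (R + 1))).card : ℕ) : ℝ) ≤ ((R : ℝ) + 2) ^ 4 := by
      simp only [Finset.card_product, Finset.card_univ, Fintype.card_bool, Finset.card_range]
      push_cast
      have h0 : (0 : ℝ) ≤ R := Nat.cast_nonneg R
      nlinarith only [h0, mul_nonneg h0 h0, mul_nonneg (mul_nonneg h0 h0) h0,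
        mul_nonneg (mul_nonneg (mul_nonneg h0 h0) h0) h0]
    calc Real.log (((((Finset.univ : Finset Bool) ×ˢ range (R + 1)) ×ˢ
      (range (R + 1) ×ˢ range (R + 1))).card : ℕ) : ℝ) ≤ Real.log (((R : ℝ) + 2) ^ 4) := by
          refine Real.log_le_log ?_ h2
          simp only [Finset.card_product, Finset.card_univ, Fintype.card_bool,
            Finset.card_range]
          positivity
      _ = 4 * lR := by rw [Real.log_pow, hlR]; norm_num
  have hct : CH G.p (fun ω => ty (q ω)) base ≤ 7 * lR := by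
    have h1 := CH_le_log G.isLaw (fun ω => ty (q ω)) base
      (((Finset.univ : Finset Bool) ×ˢ range (R + 1)) ×ˢ
      (range (R + 1) ×ˢ Finset.Icc (-4 : ℤ) 4)) (by
        intro ω hω
        have hk := hok ω hω
        have h2 := hk.hi
        have h3 := abs_ediv_le hk.sl (le_refl _)
        rw [Nat.sub_self, pow_zero, mul_one, abs_le] at h3
        simp only [ty, Finset.mem_product, Finset.mem_univ, true_and, Finset.mem_range,
          Finset.mem_Icc]
        omega)
    refine h1.trans ?_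
    have hc : (Finset.Icc (-4 : ℤ) 4).card = 9 := by decide
    have h2 : (((((Finset.univ : Finset Bool) ×ˢ range (R + 1)) ×ˢ
      (range (R + 1) ×ˢ Finset.Icc (-4 : ℤ) 4)).card : ℕ) : ℝ) ≤ ((R : ℝ) + 2) ^ 7 := by
      simp only [Finset.card_product, Finset.card_univ, Fintype.card_bool, Finset.card_range,
        hc]
      push_cast
      have h0 : (0 : ℝ) ≤ R := Nat.cast_nonneg R
      have h3 : (32 : ℝ) ≤ ((R : ℝ) + 2) ^ 5 := by
        calc (32 : ℝ) = 2 ^ 5 := by norm_num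
          _ ≤ ((R : ℝ) + 2) ^ 5 := pow_le_pow_left₀ (by norm_num) hR2 5
      have h4 : ((R : ℝ) + 1) * ((R : ℝ) + 1) ≤ ((R : ℝ) + 2) ^ 2 := by nlinarith only
      calc 2 * ((R : ℝ) + 1) * (((R : ℝ) + 1) * 9) =
            18 * (((R : ℝ) + 1) * ((R : ℝ) + 1)) := by ring
        _ ≤ ((R : ℝ) + 2) ^ 5 * ((R : ℝ) + 2) ^ 2 := by
              refine mul_le_mul (by linarith only [h3]) h4 (by positivity) (by positivity)
        _ = ((R : ℝ) + 2) ^ 7 := by ring
    calc Real.log (((((Finset.univ : Finset Bool) ×ˢ range (R + 1)) ×ˢ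
      (range (R + 1) ×ˢ Finset.Icc (-4 : ℤ) 4)).card : ℕ) : ℝ) ≤
            Real.log (((R : ℝ) + 2) ^ 7) := by
          refine Real.log_le_log ?_ h2
          simp only [Finset.card_product, Finset.card_univ, Fintype.card_bool,
            Finset.card_range, hc]
          positivity
      _ = 7 * lR := by rw [Real.log_pow, hlR]; norm_num
  have d1 := hcS _ (fun e => G.Z e.1)
  have d2 := hcS _ V1
  have d3 : CH G.p M base - 11 * lR ≤ CH P M1 (fun e => (V1 e, S e)) := by
    rw [← c4]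
    linarith only [c2, c3, c5, c6, hct, d2]
  have d4 : Λ * (CH G.p M base - 11 * lR) ≤ Λ * CH P M1 (fun e => (V1 e, S e)) :=
    mul_le_mul_of_nonneg_left d3 hΛ.le
  have d5 : C₀ ≤ C₀ / Real.log 2 * lR := by
    calc C₀ = C₀ / Real.log 2 * Real.log 2 := by field_simp
      _ ≤ C₀ / Real.log 2 * lR := mul_le_mul_of_nonneg_left hlR2 (by positivity)
  have hcst : cst f Λ K N G v y = ∑ i ∈ range N, Ex P (fi i) - Λ * CH G.p M base := by
    unfold cst
    rw [Finset.sum_congr rfl fun i _ => c1 i]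
  have hPsi : Psi κ G q = (w + K * N : ℕ) * Real.log 2 + Ex P F1 - CH G.p (Lab G q) G.Z := by
    rw [b1]
    rfl
  rw [hcst, hPsi]
  have hl0 : 0 ≤ lR := hl2.le.trans hlR2
  have d6 : 0 ≤ Λ * (C₀ / Real.log 2 * lR) := by positivity
  have d7 : (C₀ / Real.log 2 + 11) * (1 + Λ) * lR = C₀ / Real.log 2 * lR + 11 * lR +
      Λ * (C₀ / Real.log 2 * lR) + 11 * (Λ * lR) := by ring
  rw [d7]
  linarith only [hl2, b2, hlR2, d1, d4, d5, d6]

end Pool.KM7
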