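import Pool.Agent.H15.KM7.Step
import Pool.Agent.H70.KM7.Tow
import Pool.Agent.H58.KMF.Pnu
import Pool.Agent.H58.KMF.Linj

/-!
# The local label potential: one step, without hidden variables
-/

set_option autoImplicit false

namespace Pool.KM7

open Finset Real
open Pool.Agent.H49.Ent Pool.Agent.H32.Dense Pool.STK Pool.KA

section

variable {Y : Type} {f : Y → ℕ → ℝ} {Λ : ℝ} {K N : ℕ}

theorem adm_v {w : ℕ} {G : Fam 2 w} {y : ℕ → G.Ω → Y} (hA : Adm K N G (fun _ => ()) y)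
    {κ₁ : Type} (v : G.Ω → κ₁) : Adm K N G v y := by
  intro i hi a b ha hb hab
  refine hA i hi a b ha hb (Prod.ext (Prod.ext rfl ?_) (Prod.ext_iff.mp hab).2)
  exact (Prod.ext_iff.mp (Prod.ext_iff.mp hab).1).2

theorem cst_mono_v (hΛ : 0 ≤ Λ) {w : ℕ} (G : Fam 2 w) (y : ℕ → G.Ω → Y) {κ₁ : Type}
    (v : G.Ω → κ₁) : cst f Λ K N G (fun _ => ()) y ≤ cst f Λ K N G v y := by
  unfold cst
  have h := CH_mono_cond G.isLaw.nonneg (X := fun ω => G.T ω % 2 ^ (K * N))
    (W' := fun ω => ((v ω, (G.l ω, G.Z ω)), G.T ω / 2 ^ (K * N)))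
    (W := fun ω => (((), (G.l ω, G.Z ω)), G.T ω / 2 ^ (K * N)))
    (fun a b _ _ hab => Prod.ext (Prod.ext rfl
      (Prod.ext_iff.mp (Prod.ext_iff.mp hab).1).2) (Prod.ext_iff.mp hab).2)
  have := mul_le_mul_of_nonneg_left h hΛ
  linarith only [this]

/-- The admissibility passes to the local family. -/
theorem adm_locU {w : ℕ} {G : Fam 2 (w + K * N)} {T' : G.Ω → ℕ}
    (hT' : ∀ ω, T' ω < 2 ^ (w + K * N)) {y : ℕ → G.Ω → Y}
    (htm : ∀ ω, 0 < G.p ω → T' ω / 2 ^ (K * N) = G.T ω / 2 ^ (K * N))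
    (hA : Adm K N (setT G T' hT') (fun _ => ()) y) (qC : G.Ω → Sec) :
    Adm K N (loc (G.trc w (Nat.le_add_right w (K * N))) qC (K * N)
      (fun ω => T' ω % 2 ^ (K * N)) (fun _ => Nat.mod_lt _ (by positivity))) (fun _ => ()) y := by
  intro i hi a b ha hb hab
  have e1 := (Prod.ext_iff.mp (Prod.ext_iff.mp hab).1).2
  have e2 : T' a % 2 ^ (K * N) / 2 ^ (K * (i + 1)) = T' b % 2 ^ (K * N) / 2 ^ (K * (i + 1)) :=
    (Prod.ext_iff.mp hab).2
  have e3 := linj (G.trc w (Nat.le_add_right w (K * N))) qC (K * N)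
    (fun ω => T' ω % 2 ^ (K * N)) (fun _ => Nat.mod_lt _ (by positivity)) a b ha hb e1
  have e4 : (G.l a, G.Z a) = (G.l b, G.Z b) := (Prod.ext_iff.mp e3).1
  have e5 : G.T a / 2 ^ (w + K * N - w) = G.T b / 2 ^ (w + K * N - w) :=
    (Prod.ext_iff.mp (Prod.ext_iff.mp e3).2).1
  rw [Nat.add_sub_cancel_left] at e5
  have e6 : T' a / 2 ^ (K * N) = T' b / 2 ^ (K * N) := by rw [htm a ha, htm b hb, e5]
  exact hA i hi a b ha hb (Prod.ext (Prod.ext rfl e4) (div_of_mod hi e6 e2))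

end

/-- **One piece of a step.** -/
theorem pieceU (hSUB : SUBStmt) (hLOC1 : LOC1Stmt) (hLOC2 : LOC2Stmt) :
    ∃ C : ℝ, 0 ≤ C ∧ ∀ (κ : ℝ), 0 < κ → κ ≤ 1 → ∀ (A : ℕ), 3 ≤ κ * A →
    ∀ (Y : Type) (f : Y → ℕ → ℝ) (Λ : ℝ), 0 < Λ → ∀ (K N : ℕ), Nng f Λ K →
    ∀ δ : ℝ, 0 ≤ δ → PNU κ A f Λ K N δ →
    ∀ (w R : ℕ) (G : Fam 2 (w + K * N)) (T' : G.Ω → ℕ) (hT' : ∀ ω, T' ω < 2 ^ (w + K * N))
      (q₀ q₁ : G.Ω → Sec) (c : Bool) (h p s : ℕ) (κ₁ : Type) (v : G.Ω → κ₁)
      (y : ℕ → G.Ω → Y),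
    Two G T' q₀ q₁ c h p → h + p ≤ R → s ≤ p →
    (∀ ω, 0 < G.p ω → s = Nat.log 2 ((q₀ ω).a - (q₁ ω).a).natAbs) →
    Psi κ G q₀ = Psi κ (setT G T' hT') q₁ →
    Det G.p v (fun ω => (((G.l ω, G.Z ω), G.T ω / 2 ^ (K * N)), q₀ ω)) →
    Adm K N (setT G T' hT') (fun _ => ()) y →
    Get κ R (G.trc w (Nat.le_add_right w (K * N)))
      (Psi κ (setT G T' hT') q₁ - cst f Λ K N (setT G T' hT') v y - δ * (K * N : ℕ) - C) := by
  obtain ⟨C₀, hC₀, hS⟩ := hSUB
  obtain ⟨C₁, hC₁, hL1⟩ := hLOC1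
  obtain ⟨C₂, hC₂, hL2⟩ := hLOC2
  refine ⟨C₀ + C₁ + C₂, by linarith only [hC₀, hC₁, hC₂], ?_⟩
  intro κ hκ hκ1 A hA Y f Λ hΛ K N hf δ hδ hP w R G T' hT' q₀ q₁ c h p s κ₁ v y hTwo hhR hsp
    hs hsym hv hAdm
  have hl2 : 0 < Real.log 2 := Real.log_pos (by norm_num)
  have hup : ∀ ω, 0 < G.p ω → |(q₀ ω).a - (q₁ ω).a| < 2 ^ (s + 1) := by
    intro ω hω
    have h1 := Nat.lt_pow_succ_log_self (b := 2) (by norm_num) ((q₀ ω).a - (q₁ ω).a).natAbs
    rw [← hs ω hω] at h1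
    rw [Int.abs_eq_natAbs]
    exact_mod_cast h1
  by_cases hcase : A * (K * N) < s
  · -- the sections turn
    have hs1 : s ≠ 0 := by omega
    have hlow : ∀ ω, 0 < G.p ω → 2 ^ s ≤ |(q₀ ω).a - (q₁ ω).a| := by
      intro ω hω
      have h0 : ((q₀ ω).a - (q₁ ω).a).natAbs ≠ 0 := by
        intro h0
        have := hs ω hω
        rw [h0, Nat.log_zero_right] at this
        exact hs1 this
      have h1 := Nat.pow_log_le_self 2 h0
      rw [← hs ω hω] at h1
      rw [Int.abs_eq_natAbs]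
      exact_mod_cast h1
    have h1 := hS κ hκ.le hκ1 w (K * N) R G T' hT' q₀ q₁ c h p s hTwo hhR hsp
      (fun ω hω => ⟨hlow ω hω, hup ω hω⟩)
    refine h1.mono ?_
    rw [hsym]
    have h2 := cst_nonneg hΛ hf (setT G T' hT') v y N (adm_v hAdm v)
    have h3 : 3 * (((K * N : ℕ) : ℝ) * Real.log 2) ≤ κ * (s * Real.log 2) := by
      have h4 : ((A * (K * N) : ℕ) : ℝ) ≤ s := by exact_mod_cast hcase.le
      have h5 : (0 : ℝ) ≤ ((K * N : ℕ) : ℝ) := Nat.cast_nonneg _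
      have h6 : 3 * ((K * N : ℕ) : ℝ) ≤ κ * s := by
        calc 3 * ((K * N : ℕ) : ℝ) ≤ κ * A * ((K * N : ℕ) : ℝ) :=
              mul_le_mul_of_nonneg_right hA h5
          _ = κ * ((A * (K * N) : ℕ) : ℝ) := by push_cast; ring
          _ ≤ κ * s := mul_le_mul_of_nonneg_left h4 hκ.le
      nlinarith only [hl2, h6]
    have h7 : 0 ≤ δ * ((K * N : ℕ) : ℝ) := mul_nonneg hδ (Nat.cast_nonneg _)
    linarith only [hT', hC₁, hC₂, h2, h3, h7]
  · -- the local problem
    set G₀ := G.trc w (Nat.le_add_right w (K * N)) with hG₀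
    set qC : G.Ω → Sec := fun ω => ⟨c, h - K * N, p - s, (q₀ ω).a / 2 ^ s⟩ with hqC
    set ql : G.Ω → Sec := fun ω => ⟨false, K * N, s, (q₁ ω).a - (q₀ ω).a / 2 ^ s * 2 ^ s⟩ with hql
    have h1 := hL1 κ hκ.le hκ1 w (K * N) G T' hT' q₀ q₁ c h p s hTwo hsp hup
    have hv' : Det G.p v (fun ω => (((G.l ω, G.Z ω), G.T ω / 2 ^ (K * N)), qC ω)) := by
      intro a b ha hb hab
      have e1 := hv a b ha hb hab
      refine Prod.ext (Prod.ext_iff.mp e1).1 ?_
      have e2 : q₀ a = q₀ b := (Prod.ext_iff.mp e1).2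
      change qC a = qC b
      simp only [hqC, e2]
    have h2 := hP (loc G₀ qC (K * N) (fun ω => T' ω % 2 ^ (K * N))
      (fun _ => Nat.mod_lt _ (by positivity))) y
      (adm_locU hT' hTwo.tm hAdm qC)
      (fun ω i => by
        change |Int.fract _| ≤ 1
        rw [abs_of_nonneg (Int.fract_nonneg _)]
        exact (Int.fract_lt_one _).le) s (by omega) ql
      (fun ω hω => ⟨rfl, rfl, rfl, abs_loc_le (hup ω hω)⟩)
    have hcv := cst_mono_v (f := f) (K := K) (N := N) hΛ.le (loc G₀ qC (K * N)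
      (fun ω => T' ω % 2 ^ (K * N)) (fun _ => Nat.mod_lt _ (by positivity))) y v
    rw [cst_loc hT' y hTwo.tm qC hv'] at hcv
    have hok : ∀ ω, 0 < G₀.p ω → Ok w (h - K * N + (p - s)) (qC ω) := by
      intro ω hω
      refine ⟨?_, le_refl _, ?_⟩
      · have := hTwo.lo
        change w ≤ h - K * N
        omega
      · exact abs_ediv_le (hTwo.c0 ω hω).2.2.2 hsp
    have h3 := hL2 κ hκ.le hκ1 w (K * N) R (h - K * N + (p - s)) (K * N + s) G₀ qC
      (fun ω => T' ω % 2 ^ (K * N)) (fun _ => Nat.mod_lt _ (by positivity)) hok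
      (by have := hTwo.lo; omega) _ h2
    refine h3.mono ?_
    have h4 : Psi κ (setT G T' hT') q₁ ≤ Psi κ G₀ qC + Psi κ (loc G₀ qC (K * N)
      (fun ω => T' ω % 2 ^ (K * N)) (fun _ => Nat.mod_lt _ (by positivity))) ql + C₁ := h1
    linarith only [hT', hC₀, hcv, h4]

/-- **(STEP)** One step from the window `w + K N` to the window `w`, without hidden variables. -/
def STEPUStmt : Prop :=
  ∃ C : ℝ, 0 ≤ C ∧ ∀ (κ : ℝ), 0 < κ → κ ≤ 1 → ∀ (A : ℕ), 3 ≤ κ * A →
    ∀ (Y : Type) (f : Y → ℕ → ℝ) (Λ : ℝ), 0 < Λ → ∀ (K N : ℕ), Nng f Λ K →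
    ∀ δ : ℝ, 0 ≤ δ → PNU κ A f Λ K N δ →
    ∀ (w R : ℕ) (G : Fam 2 (w + K * N)) (y : ℕ → G.Ω → Y),
    Adm K N G (fun _ => ()) y → ∀ q : G.Ω → Sec,
    (∀ ω, 0 < G.p ω → Ok (w + K * N) R (q ω)) →
    Get κ R (G.trc w (Nat.le_add_right w (K * N)))
      (Psi κ G q - cst f Λ K N G (fun _ => ()) y - δ * (K * N : ℕ) -
        C * (1 + Λ) * Real.log (R + 2))

theorem stepU (hSUB : SUBStmt) (hLOC1 : LOC1Stmt) (hLOC2 : LOC2Stmt) : STEPUStmt := by
  obtain ⟨C₀, hC₀, hpiece⟩ := pieceU hSUB hLOC1 hLOC2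
  have hl2 : 0 < Real.log 2 := Real.log_pos (by norm_num)
  refine ⟨C₀ / Real.log 2 + 11, by positivity, ?_⟩
  intro κ hκ hκ1 A hA Y f Λ hΛ K N hf δ hδ hP w R G y hAdm q hok
  classical
  obtain ⟨v, hvdef⟩ : ∃ v : G.Ω → Unit, v = fun _ => () := ⟨_, rfl⟩
  rw [← hvdef] at hAdm ⊢
  set base : G.Ω → (Unit × (((Fin 2 → ℝ) × (Fin 2 → ℝ)) × G.ζ)) × ℕ :=
    fun ω => ((v ω, (G.l ω, G.Z ω)), G.T ω / 2 ^ (K * N)) with hbase
  set g : G.Ω → ((Unit × (((Fin 2 → ℝ) × (Fin 2 → ℝ)) × G.ζ)) × ℕ) × ((Bool × ℕ) × (ℕ × ℤ)) :=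
    fun ω => (base ω, ty (q ω)) with hg
  set P := P2 G.p g with hPdef
  have hPl : IsLaw P := P2_isLaw G.isLaw g
  have hfst : Psh P Prod.fst G.p := P2_fst G.isLaw g
  have hsnd : Psh P Prod.snd G.p := P2_snd G.isLaw g
  have hpos : ∀ e, 0 < P e → 0 < G.p e.1 ∧ 0 < G.p e.2 ∧ g e.1 = g e.2 := fun e he =>
    (P2_pos G.isLaw e).mp he
  set T' : G.Ω × G.Ω → ℕ := fun e => G.T e.2 with hT'def
  have hT' : ∀ e, T' e < 2 ^ (w + K * N) := fun e => G.tim e.2
  set S : G.Ω × G.Ω → (Bool × ℕ) × (ℕ × ℕ) := fun e =>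
    (((q e.1).c, (q e.1).h), ((q e.1).p, Nat.log 2 ((q e.1).a - (q e.2).a).natAbs)) with hS
  -- the two samples on the support
  have hg1 : ∀ e, 0 < P e → base e.1 = base e.2 := fun e he =>
    (Prod.ext_iff.mp (hpos e he).2.2).1
  have hg2 : ∀ e, 0 < P e → ty (q e.1) = ty (q e.2) := fun e he =>
    (Prod.ext_iff.mp (hpos e he).2.2).2
  have hty : ∀ e, 0 < P e → (q e.1).c = (q e.2).c ∧ (q e.1).h = (q e.2).h ∧
      (q e.1).p = (q e.2).p ∧ (q e.1).a / 2 ^ (q e.1).p = (q e.2).a / 2 ^ (q e.2).p := by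
    intro e he
    have h1 := hg2 e he
    unfold ty at h1
    simp only [Prod.mk.injEq] at h1
    exact ⟨h1.1.1, h1.1.2, h1.2.1, h1.2.2⟩
  have hline : ∀ e, 0 < P e → v e.1 = v e.2 ∧ G.u e.1 = G.u e.2 ∧ G.d e.1 = G.d e.2 ∧
      G.Z e.1 = G.Z e.2 ∧ G.T e.1 / 2 ^ (K * N) = G.T e.2 / 2 ^ (K * N) := by
    intro e he
    have h1 := hg1 e he
    simp only [hbase, Fam.l, Prod.mk.injEq] at h1
    exact ⟨rfl, h1.1.2.1.1, h1.1.2.1.2, h1.1.2.2, h1.2⟩
  have hswap : ∀ e, P2 G.p g e ≠ 0 → S e.swap = S e := by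
    intro e he
    have he' : 0 < P e := lt_of_le_of_ne (hPl.nonneg e) (Ne.symm he)
    obtain ⟨h1, h2, h3, _⟩ := hty e he'
    simp only [hS, Prod.fst_swap, Prod.snd_swap]
    rw [h1, h2, h3, ← Int.natAbs_neg, neg_sub]
  -- the pieces
  set L1 : G.Ω × G.Ω → (ℕ × Sec) × ((Fin 2 → ℤ) × (Fin 2 → ℤ)) :=
    Lab (setT (G.ext P hPl Prod.fst) T' hT') (fun e => q e.2) with hL1
  set F1 : G.Ω × G.Ω → ℝ := fun e =>
    (2 * ((q e.2).h : ℝ) + (1 - κ) * (q e.2).p) * Real.log 2 with hF1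
  set M1 : G.Ω × G.Ω → ℕ := fun e => T' e % 2 ^ (K * N) with hM1
  set V1 : G.Ω × G.Ω → ((G.Ω × G.Ω → G.Ω) → Unit) → Unit := fun _ _ => () with hV1
  clear hV1 V1
  set V1 := (fun e : G.Ω × G.Ω => ((e.1, (G.l e.1, G.Z e.1)), T' e / 2 ^ (K * N))) with hV1
  set fi : ℕ → G.Ω × G.Ω → ℝ := fun i e => f (y i e.2) (T' e / 2 ^ (K * i) % 2 ^ K) with hfi
  set x : (Bool × ℕ) × (ℕ × ℕ) → ℝ := fun s =>
    ((w + K * N : ℕ) * Real.log 2 + Ex (Pool.Agent.H49.Ent.cond P S s) F1 -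
      CH (Pool.Agent.H49.Ent.cond P S s) L1 (fun e => G.Z e.1)) -
    (∑ i ∈ range N, Ex (Pool.Agent.H49.Ent.cond P S s) (fi i) -
      Λ * CH (Pool.Agent.H49.Ent.cond P S s) M1 V1) - δ * (K * N : ℕ) - C₀ with hx
  have hmix := mix_thm κ R w ((G.ext P hPl Prod.fst).trc w (Nat.le_add_right w (K * N)))
    ((Bool × ℕ) × (ℕ × ℕ)) S (fun s hs => cond_isLaw hPl.nonneg S hs) x (by
      rintro ⟨⟨c, h⟩, ⟨p, s⟩⟩ hs
      have hs' : law P S ((c, h), (p, s)) ≠ 0 := hs
      set Q := Pool.Agent.H49.Ent.cond P S ((c, h), (p, s)) with hQ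
      have hQl : IsLaw Q := cond_isLaw hPl.nonneg S hs'
      have hQpos : ∀ e, 0 < Q e → 0 < P e ∧ (q e.1).c = c ∧ (q e.1).h = h ∧ (q e.1).p = p ∧
          Nat.log 2 ((q e.1).a - (q e.2).a).natAbs = s := by
        intro e he
        obtain ⟨h1, h2⟩ := (cond_pos_iff hPl.nonneg S _ e).mp he
        simp only [hS, Prod.mk.injEq] at h2
        exact ⟨h1, h2.1.1, h2.1.2, h2.2.1, h2.2.2⟩
      obtain ⟨e₀, he₀⟩ : ∃ e, 0 < Q e := by
        by_contra hcon
        push Not at hcon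
        have h1 := hQl.sum_one
        have h2 : ∑ e, Q e = 0 := Finset.sum_eq_zero fun e _ =>
          le_antisymm (hcon e) (hQl.nonneg e)
        rw [h2] at h1
        exact zero_ne_one h1
      set Gs := G.ext Q hQl Prod.fst with hGs
      have hTwo : Two Gs T' (fun e => q e.1) (fun e => q e.2) c h p := by
        refine ⟨fun e he => ?_, fun e he => ?_, fun e he => ?_, ?_⟩
        · exact ((hline e (hQpos e he).1).2.2.2.2).symm
        · obtain ⟨h1, h2, h3, h4, _⟩ := hQpos e he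
          refine ⟨h2, h3, h4, ?_⟩
          rw [← h4]
          exact (hok e.1 (hpos e h1).1).sl
        · obtain ⟨h1, h2, h3, h4, _⟩ := hQpos e he
          obtain ⟨k1, k2, k3, _⟩ := hty e h1
          refine ⟨k1 ▸ h2, k2 ▸ h3, k3 ▸ h4, ?_⟩
          rw [← h4, k3]
          exact (hok e.2 (hpos e h1).2.1).sl
        · obtain ⟨h1, h2, h3, h4, _⟩ := hQpos e₀ he₀
          rw [← h3]
          exact (hok e₀.1 (hpos e₀ h1).1).lo
      have hhR : h + p ≤ R := by
        obtain ⟨h1, h2, h3, h4, _⟩ := hQpos e₀ he₀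
        rw [← h3, ← h4]
        exact (hok e₀.1 (hpos e₀ h1).1).hi
      have hsp : s ≤ p := by
        obtain ⟨h1, h2, h3, h4, h5⟩ := hQpos e₀ he₀
        obtain ⟨k1, k2, k3, k4⟩ := hty e₀ h1
        rw [← h5, ← h4]
        rw [← k3] at k4
        exact log_le_of_ty k4
      have hsym : Psi κ Gs (fun e => q e.1) = Psi κ (setT Gs T' hT') (fun e => q e.2) := by
        have hsw : Psh Q Prod.swap Q := P2_sym G.p g S _ hswap
        have e1 : Ex Q (fun e => (2 * ((q e.1).h : ℝ) + (1 - κ) * (q e.1).p) * Real.log 2) =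
            Ex Q (fun e => (2 * ((q e.2).h : ℝ) + (1 - κ) * (q e.2).p) * Real.log 2) :=
          (hsw.Ex_eq (fun e => (2 * ((q e.1).h : ℝ) + (1 - κ) * (q e.1).p) *
            Real.log 2)).symm
        have e2 : CH Q (Lab G q ∘ Prod.fst) (fun e => G.Z e.1) =
            CH Q (Lab G q ∘ Prod.snd) (fun e => G.Z e.2) :=
          (hsw.CH_eq (Lab G q ∘ Prod.fst) (fun e => G.Z e.1)).symm
        have e3 : CH Q (Lab G q ∘ Prod.snd) (fun e => G.Z e.2) =
            CH Q (Lab (setT Gs T' hT') (fun e => q e.2)) (fun e => G.Z e.1) := by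
          have hlab : ∀ e, 0 < Q e → Lab G q e.2 = Lab (setT Gs T' hT') (fun e => q e.2) e := by
            intro e he
            obtain ⟨_, k2, k3, _, _⟩ := hline e (hQpos e he).1
            have hxx : G.x e.2 = (setT Gs T' hT').x e := by
              funext i
              change G.u e.2 i + (G.T e.2 : ℝ) / 2 ^ (w + K * N) * G.d e.2 i =
                G.u e.1 i + (G.T e.2 : ℝ) / 2 ^ (w + K * N) * G.d e.1 i
              rw [k2, k3]
            unfold Lab
            refine Prod.ext rfl (Prod.ext ?_ ?_)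
            · change (q e.2).lb (G.x e.2) = (q e.2).lb ((setT Gs T' hT').x e)
              rw [hxx]
            · change (q e.2).lb (fun i => G.d e.2 i / 2 ^ (w + K * N)) =
                (q e.2).lb (fun i => G.d e.1 i / 2 ^ (w + K * N))
              rw [k3]
          have hZ : ∀ e, 0 < Q e → G.Z e.2 = G.Z e.1 := fun e he =>
            ((hline e (hQpos e he).1).2.2.2.1).symm
          refine CH_congr hQl.nonneg ?_ ?_ ?_ ?_
          · intro a b ha hb hab
            rw [← hlab a ha, ← hlab b hb]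
            exact (Prod.ext_iff.mp hab).1
          · intro a b ha hb hab
            change Lab G q a.2 = Lab G q b.2
            rw [hlab a ha, hlab b hb]
            exact (Prod.ext_iff.mp hab).1
          · intro a b ha hb hab
            change G.Z a.1 = G.Z b.1
            rw [← hZ a ha, ← hZ b hb]
            exact hab
          · intro a b ha hb hab
            change G.Z a.2 = G.Z b.2
            rw [hZ a ha, hZ b hb]
            exact hab
        change (w + K * N : ℕ) * Real.log 2 + Ex Q (fun e => (2 * ((q e.1).h : ℝ) +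
            (1 - κ) * (q e.1).p) * Real.log 2) - CH Q (Lab G q ∘ Prod.fst) (fun e => G.Z e.1) =
          (w + K * N : ℕ) * Real.log 2 + Ex Q (fun e => (2 * ((q e.2).h : ℝ) +
            (1 - κ) * (q e.2).p) * Real.log 2) -
            CH Q (Lab (setT Gs T' hT') (fun e => q e.2)) (fun e => G.Z e.1)
        rw [e1, e2, e3]
      have hv : Det Gs.p (fun e : G.Ω × G.Ω => e.1) (fun e => (((Gs.l e, Gs.Z e),
          Gs.T e / 2 ^ (K * N)), q e.1)) := by
        intro a b _ _ hab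
        have hab' : a.1 = b.1 := hab
        change (((G.l a.1, G.Z a.1), G.T a.1 / 2 ^ (K * N)), q a.1) =
          (((G.l b.1, G.Z b.1), G.T b.1 / 2 ^ (K * N)), q b.1)
        rw [hab']
      have hAdm' : Adm K N (setT Gs T' hT') (fun _ : G.Ω × G.Ω => ())
          (fun i e => y i e.2) := by
        intro i hi a b ha hb hab
        have hab1 : (G.l a.1, G.Z a.1) = (G.l b.1, G.Z b.1) :=
          (Prod.ext_iff.mp (Prod.ext_iff.mp hab).1).2
        have hab2 : G.T a.2 / 2 ^ (K * (i + 1)) = G.T b.2 / 2 ^ (K * (i + 1)) :=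
          (Prod.ext_iff.mp hab).2
        obtain ⟨ha1, _⟩ := hQpos a ha
        obtain ⟨hb1, _⟩ := hQpos b hb
        have h1 := hg1 a ha1
        have h2 := hg1 b hb1
        have h1' : (G.l a.1, G.Z a.1) = (G.l a.2, G.Z a.2) :=
          (Prod.ext_iff.mp (Prod.ext_iff.mp h1).1).2
        have h2' : (G.l b.1, G.Z b.1) = (G.l b.2, G.Z b.2) :=
          (Prod.ext_iff.mp (Prod.ext_iff.mp h2).1).2
        refine hAdm i hi a.2 b.2 (hpos a ha1).2.1 (hpos b hb1).2.1 (Prod.ext (Prod.ext ?_ ?_) hab2)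
        · rw [hvdef]
        · exact h1'.symm.trans (hab1.trans h2')
      exact hpiece κ hκ hκ1 A hA Y f Λ hΛ K N hf δ hδ hP w R Gs T' hT' (fun e => q e.1)
        (fun e => q e.2) c h p s G.Ω (fun e => e.1) (fun i e => y i e.2) hTwo hhR hsp
        (fun e he => (hQpos e he).2.2.2.2.symm) hsym hv hAdm')
  have hget : Get κ R ((G.trc w (Nat.le_add_right w (K * N))).ext P hPl Prod.fst)
      (∑ s ∈ univ.image S, law P S s * x s - CH P S (fun e => G.Z e.1)) := hmix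
  have hget2 := Get.of_ext (G := G.trc w (Nat.le_add_right w (K * N))) hfst hget
  refine hget2.mono ?_
  -- the averages
  have a1 := avg_Ex hPl.nonneg S F1
  have a2 := avg_CH hPl.nonneg S L1 (fun e => G.Z e.1)
  have a3 : ∀ i, Ex P (fi i) = ∑ s ∈ univ.image S, law P S s *
      Ex (Pool.Agent.H49.Ent.cond P S s) (fi i) := fun i => avg_Ex hPl.nonneg S (fi i)
  have a4 := avg_CH hPl.nonneg S M1 V1
  have a5 : ∑ s ∈ univ.image S, law P S s = 1 := (sum_law P S).trans hPl.sum_one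
  have hsumx : ∑ s ∈ univ.image S, law P S s * x s =
      ((w + K * N : ℕ) * Real.log 2 + Ex P F1 - CH P L1 (fun e => (G.Z e.1, S e))) -
      (∑ i ∈ range N, Ex P (fi i) - Λ * CH P M1 (fun e => (V1 e, S e))) -
      δ * (K * N : ℕ) - C₀ := by
    have h1 : ∀ s, law P S s * x s = law P S s * ((w + K * N : ℕ) * Real.log 2) +
        law P S s * Ex (Pool.Agent.H49.Ent.cond P S s) F1 -
        law P S s * CH (Pool.Agent.H49.Ent.cond P S s) L1 (fun e => G.Z e.1) -
        (∑ i ∈ range N, law P S s * Ex (Pool.Agent.H49.Ent.cond P S s) (fi i) -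
          Λ * (law P S s * CH (Pool.Agent.H49.Ent.cond P S s) M1 V1)) -
        law P S s * (δ * (K * N : ℕ)) - law P S s * C₀ := by
      intro s
      rw [hx, ← Finset.mul_sum]
      ring
    rw [Finset.sum_congr rfl fun s _ => h1 s]
    simp only [Finset.sum_sub_distrib, Finset.sum_add_distrib]
    rw [← Finset.sum_mul, ← Finset.sum_mul, ← Finset.sum_mul, a5, ← a1, ← a2,
      Finset.sum_comm, ← Finset.mul_sum, ← a4]
    rw [Finset.sum_congr rfl fun i _ => (a3 i).symm]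
    ring
  rw [hsumx]
  -- the label of the second sample
  have b1 : Ex P F1 = Ex G.p (fun ω => (2 * ((q ω).h : ℝ) + (1 - κ) * (q ω).p) *
      Real.log 2) := hsnd.Ex_eq (fun ω => (2 * ((q ω).h : ℝ) + (1 - κ) * (q ω).p) *
      Real.log 2)
  have b2 : CH P L1 (fun e => (G.Z e.1, S e)) ≤ CH G.p (Lab G q) G.Z := by
    have h1 : CH P L1 (fun e => (G.Z e.1, S e)) ≤ CH P L1 (fun e => G.Z e.1) :=
      CH_mono_cond hPl.nonneg (fun a b _ _ h => (Prod.ext_iff.mp h).1)
    have h2 : CH P (fun e => Lab G q e.2) (fun e => G.Z e.2) = CH G.p (Lab G q) G.Z :=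
      hsnd.CH_eq (Lab G q) G.Z
    have hlab : ∀ e, 0 < P e → Lab G q e.2 = L1 e := by
      intro e he
      obtain ⟨_, k2, k3, _, _⟩ := hline e he
      have hxx : G.x e.2 = (setT (G.ext P hPl Prod.fst) T' hT').x e := by
        funext i
        change G.u e.2 i + (G.T e.2 : ℝ) / 2 ^ (w + K * N) * G.d e.2 i =
          G.u e.1 i + (G.T e.2 : ℝ) / 2 ^ (w + K * N) * G.d e.1 i
        rw [k2, k3]
      rw [hL1]
      unfold Lab
      refine Prod.ext rfl (Prod.ext ?_ ?_)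
      · change (q e.2).lb (G.x e.2) =
          (q e.2).lb ((setT (G.ext P hPl Prod.fst) T' hT').x e)
        rw [hxx]
      · change (q e.2).lb (fun i => G.d e.2 i / 2 ^ (w + K * N)) =
          (q e.2).lb (fun i => G.d e.1 i / 2 ^ (w + K * N))
        rw [k3]
    have hZ : ∀ e, 0 < P e → G.Z e.2 = G.Z e.1 := fun e he => ((hline e he).2.2.2.1).symm
    have h3 : CH P (fun e => Lab G q e.2) (fun e => G.Z e.2) = CH P L1 (fun e => G.Z e.1) := by
      refine CH_congr hPl.nonneg ?_ ?_ ?_ ?_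
      · intro a b ha hb hab
        rw [← hlab a ha, ← hlab b hb]
        exact (Prod.ext_iff.mp hab).1
      · intro a b ha hb hab
        change Lab G q a.2 = Lab G q b.2
        rw [hlab a ha, hlab b hb]
        exact (Prod.ext_iff.mp hab).1
      · intro a b ha hb hab
        change G.Z a.1 = G.Z b.1
        rw [← hZ a ha, ← hZ b hb]
        exact hab
      · intro a b ha hb hab
        change G.Z a.2 = G.Z b.2
        rw [hZ a ha, hZ b hb]
        exact hab
    linarith only [h1, h2, h3]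
  -- the times
  have c1 : ∀ i, Ex P (fi i) = Ex G.p (fun ω => f (y i ω) (G.T ω / 2 ^ (K * i) % 2 ^ K)) :=
    fun i => hsnd.Ex_eq (fun ω => f (y i ω) (G.T ω / 2 ^ (K * i) % 2 ^ K))
  set M : G.Ω → ℕ := fun ω => G.T ω % 2 ^ (K * N) with hM
  have c2 : CH P M1 V1 = CH G.p M g := by
    have h1 := P2_CH G.isLaw g M
    rw [← h1]
    refine CH_congr hPl.nonneg ?_ ?_ ?_ ?_
    · intro a b _ _ hab
      exact (Prod.ext_iff.mp hab).1
    · intro a b _ _ hab
      exact (Prod.ext_iff.mp hab).1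
    · intro a b _ _ hab
      exact (Prod.ext_iff.mp (Prod.ext_iff.mp hab).1).1
    · intro a b ha hb hab
      have hab' : a.1 = b.1 := hab
      refine Prod.ext (Prod.ext hab' ?_) ?_
      · change (G.l a.1, G.Z a.1) = (G.l b.1, G.Z b.1)
        rw [hab']
      · change G.T a.2 / 2 ^ (K * N) = G.T b.2 / 2 ^ (K * N)
        rw [← (hline a ha).2.2.2.2, ← (hline b hb).2.2.2.2, hab']
  have c3 : CH P M1 V1 ≤ CH P S V1 + CH P M1 (fun e => (S e, V1 e)) :=
    CH_le_add hPl.nonneg M1 S V1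
  have c4 : CH P M1 (fun e => (S e, V1 e)) = CH P M1 (fun e => (V1 e, S e)) := by
    refine CH_congr hPl.nonneg ?_ ?_ ?_ ?_
    · intro a b _ _ hab
      exact (Prod.ext_iff.mp hab).1
    · intro a b _ _ hab
      exact (Prod.ext_iff.mp hab).1
    · intro a b _ _ hh
      exact Prod.ext (Prod.ext_iff.mp hh).2 (Prod.ext_iff.mp hh).1
    · intro a b _ _ hh
      exact Prod.ext (Prod.ext_iff.mp hh).2 (Prod.ext_iff.mp hh).1
  have c5 : CH G.p M base ≤ CH G.p (fun ω => ty (q ω)) base +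
      CH G.p M (fun ω => (ty (q ω), base ω)) := CH_le_add G.isLaw.nonneg M _ base
  have c6 : CH G.p M (fun ω => (ty (q ω), base ω)) = CH G.p M g := by
    refine CH_congr G.isLaw.nonneg ?_ ?_ ?_ ?_
    · intro a b _ _ hab
      exact (Prod.ext_iff.mp hab).1
    · intro a b _ _ hab
      exact (Prod.ext_iff.mp hab).1
    · intro a b _ _ hh
      exact Prod.ext (Prod.ext_iff.mp hh).2 (Prod.ext_iff.mp hh).1
    · intro a b _ _ hh
      exact Prod.ext (Prod.ext_iff.mp hh).2 (Prod.ext_iff.mp hh).1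
  -- the cardinalities
  set lR := Real.log ((R : ℝ) + 2) with hlR
  have hR2 : (2 : ℝ) ≤ (R : ℝ) + 2 := by
    have : (0 : ℝ) ≤ R := Nat.cast_nonneg R
    linarith only
  have hlR2 : Real.log 2 ≤ lR := Real.log_le_log (by norm_num) hR2
  have hcS : ∀ (T : Type) (W : G.Ω × G.Ω → T), CH P S W ≤ 4 * lR := by
    intro T W
    have h1 := CH_le_log hPl S W (((Finset.univ : Finset Bool) ×ˢ range (R + 1)) ×ˢ
      (range (R + 1) ×ˢ range (R + 1))) (by
        intro e he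
        obtain ⟨p1, p2, _⟩ := hpos e he
        have hk := hok e.1 p1
        obtain ⟨k1, k2, k3, k4⟩ := hty e he
        have h2 := hk.hi
        rw [← k3] at k4
        have h3 := log_le_of_ty k4
        simp only [hS, Finset.mem_product, Finset.mem_univ, true_and, Finset.mem_range]
        omega)
    refine h1.trans ?_
    have h2 : (((((Finset.univ : Finset Bool) ×ˢ range (R + 1)) ×ˢ
      (range (R + 1) ×ˢ range (R + 1))).card : ℕ) : ℝ) ≤ ((R : ℝ) + 2) ^ 4 := by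
      simp only [Finset.card_product, Finset.card_univ, Fintype.card_bool, Finset.card_range]
      push_cast
      have h0 : (0 : ℝ) ≤ R := Nat.cast_nonneg R
      nlinarith only [h0, mul_nonneg h0 h0, mul_nonneg (mul_nonneg h0 h0) h0,
        mul_nonneg (mul_nonneg (mul_nonneg h0 h0) h0) h0]
    calc Real.log (((((Finset.univ : Finset Bool) ×ˢ range (R + 1)) ×ˢ
      (range (R + 1) ×ˢ range (R + 1))).card : ℕ) : ℝ) ≤ Real.log (((R : ℝ) + 2) ^ 4) := by
          refine Real.log_le_log ?_ h2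
          simp only [Finset.card_product, Finset.card_univ, Fintype.card_bool,
            Finset.card_range]
          positivity
      _ = 4 * lR := by rw [Real.log_pow, hlR]; norm_num
  have hct : CH G.p (fun ω => ty (q ω)) base ≤ 7 * lR := by
    have h1 := CH_le_log G.isLaw (fun ω => ty (q ω)) base
      (((Finset.univ : Finset Bool) ×ˢ range (R + 1)) ×ˢ
      (range (R + 1) ×ˢ Finset.Icc (-4 : ℤ) 4)) (by
        intro ω hω
        have hk := hok ω hω
        have h2 := hk.hi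
        have h3 := abs_ediv_le hk.sl (le_refl _)
        rw [Nat.sub_self, pow_zero, mul_one, abs_le] at h3
        simp only [ty, Finset.mem_product, Finset.mem_univ, true_and, Finset.mem_range,
          Finset.mem_Icc]
        omega)
    refine h1.trans ?_
    have hc : (Finset.Icc (-4 : ℤ) 4).card = 9 := by decide
    have h2 : (((((Finset.univ : Finset Bool) ×ˢ range (R + 1)) ×ˢ
      (range (R + 1) ×ˢ Finset.Icc (-4 : ℤ) 4)).card : ℕ) : ℝ) ≤ ((R : ℝ) + 2) ^ 7 := by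
      simp only [Finset.card_product, Finset.card_univ, Fintype.card_bool, Finset.card_range,
        hc]
      push_cast
      have h0 : (0 : ℝ) ≤ R := Nat.cast_nonneg R
      have h3 : (32 : ℝ) ≤ ((R : ℝ) + 2) ^ 5 := by
        calc (32 : ℝ) = 2 ^ 5 := by norm_num
          _ ≤ ((R : ℝ) + 2) ^ 5 := pow_le_pow_left₀ (by norm_num) hR2 5
      have h4 : ((R : ℝ) + 1) * ((R : ℝ) + 1) ≤ ((R : ℝ) + 2) ^ 2 := by nlinarith only
      calc 2 * ((R : ℝ) + 1) * (((R : ℝ) + 1) * 9) =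
            18 * (((R : ℝ) + 1) * ((R : ℝ) + 1)) := by ring
        _ ≤ ((R : ℝ) + 2) ^ 5 * ((R : ℝ) + 2) ^ 2 := by
              refine mul_le_mul (by linarith only [h3]) h4 (by positivity) (by positivity)
        _ = ((R : ℝ) + 2) ^ 7 := by ring
    calc Real.log (((((Finset.univ : Finset Bool) ×ˢ range (R + 1)) ×ˢ
      (range (R + 1) ×ˢ Finset.Icc (-4 : ℤ) 4)).card : ℕ) : ℝ) ≤
            Real.log (((R : ℝ) + 2) ^ 7) := by
          refine Real.log_le_log ?_ h2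
          simp only [Finset.card_product, Finset.card_univ, Fintype.card_bool,
            Finset.card_range, hc]
          positivity
      _ = 7 * lR := by rw [Real.log_pow, hlR]; norm_num
  have d1 := hcS _ (fun e => G.Z e.1)
  have d2 := hcS _ V1
  have d3 : CH G.p M base - 11 * lR ≤ CH P M1 (fun e => (V1 e, S e)) := by
    rw [← c4]
    linarith only [c2, c3, c5, c6, hct, d2]
  have d4 : Λ * (CH G.p M base - 11 * lR) ≤ Λ * CH P M1 (fun e => (V1 e, S e)) :=
    mul_le_mul_of_nonneg_left d3 hΛ.le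
  have d5 : C₀ ≤ C₀ / Real.log 2 * lR := by
    calc C₀ = C₀ / Real.log 2 * Real.log 2 := by field_simp
      _ ≤ C₀ / Real.log 2 * lR := mul_le_mul_of_nonneg_left hlR2 (by positivity)
  have hcst : cst f Λ K N G v y = ∑ i ∈ range N, Ex P (fi i) - Λ * CH G.p M base := by
    unfold cst
    rw [Finset.sum_congr rfl fun i _ => c1 i]
  have hPsi : Psi κ G q = (w + K * N : ℕ) * Real.log 2 + Ex P F1 - CH G.p (Lab G q) G.Z := by
    rw [b1]
    rfl
  rw [hcst, hPsi]
  have hl0 : 0 ≤ lR := hl2.le.trans hlR2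
  have d6 : 0 ≤ Λ * (C₀ / Real.log 2 * lR) := by positivity
  have d7 : (C₀ / Real.log 2 + 11) * (1 + Λ) * lR = C₀ / Real.log 2 * lR + 11 * lR +
      Λ * (C₀ / Real.log 2 * lR) + 11 * (Λ * lR) := by ring
  rw [d7]
  linarith only [hl2, b2, hlR2, d1, d4, d5, d6]

end Pool.KM7
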