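import Pool.Agent.H15.KM7.Defs
import Pool.Agent.H13.LK.Defs

/-!
# The local label potential: statements of the modules
-/

set_option autoImplicit false

namespace Pool.KM7

open Finset Real
open Pool.Agent.H49.Ent Pool.Agent.H32.Dense Pool.STK Pool.KA

/-- Two labels of the same line at two windows of `w + L` digits inside the same window of `w`
digits (the second time is `T'`), with sections of the same type `(c, h, p)`. -/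
structure Two {w L : ℕ} (G : Fam 2 (w + L)) (T' : G.Ω → ℕ) (q₀ q₁ : G.Ω → Sec) (c : Bool)
    (h p : ℕ) : Prop where
  tm : ∀ ω, 0 < G.p ω → T' ω / 2 ^ L = G.T ω / 2 ^ L
  c0 : ∀ ω, 0 < G.p ω → (q₀ ω).c = c ∧ (q₀ ω).h = h ∧ (q₀ ω).p = p ∧ |(q₀ ω).a| ≤ 4 * 2 ^ p
  c1 : ∀ ω, 0 < G.p ω → (q₁ ω).c = c ∧ (q₁ ω).h = h ∧ (q₁ ω).p = p ∧ |(q₁ ω).a| ≤ 4 * 2 ^ p
  lo : w + L ≤ h

/-- **(SUB)** The sections turn by `2 ^ (s - p)`: nothing is lost if `κ s ≥ 3 L`.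
Join `J = (c, h + s, p - s, a₀ / 2 ^ s)`, meet `M = (c, h - L, p - s, a₀ / 2 ^ s)`. -/
def SUBStmt : Prop :=
  ∃ C : ℝ, 0 ≤ C ∧ ∀ (κ : ℝ), 0 ≤ κ → κ ≤ 1 → ∀ (w L R : ℕ) (G : Fam 2 (w + L))
    (T' : G.Ω → ℕ) (hT' : ∀ ω, T' ω < 2 ^ (w + L)) (q₀ q₁ : G.Ω → Sec) (c : Bool) (h p s : ℕ),
    Two G T' q₀ q₁ c h p → h + p ≤ R → s ≤ p →
    (∀ ω, 0 < G.p ω → 2 ^ s ≤ |(q₀ ω).a - (q₁ ω).a| ∧ |(q₀ ω).a - (q₁ ω).a| < 2 ^ (s + 1)) →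
    Get κ R (G.trc w (Nat.le_add_right w L))
      ((Psi κ G q₀ + Psi κ (setT G T' hT') q₁) / 2 - 3 * (L * Real.log 2) +
        κ * (s * Real.log 2) - C)

/-- **(LOC1)** The potential of the second label is at most the potential of the coarse label
`(c, h - L, p - s, a₀ / 2 ^ s)` of the large window plus the potential of the local label. -/
def LOC1Stmt : Prop :=
  ∃ C : ℝ, 0 ≤ C ∧ ∀ (κ : ℝ), 0 ≤ κ → κ ≤ 1 → ∀ (w L : ℕ) (G : Fam 2 (w + L))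
    (T' : G.Ω → ℕ) (hT' : ∀ ω, T' ω < 2 ^ (w + L)) (q₀ q₁ : G.Ω → Sec) (c : Bool) (h p s : ℕ),
    Two G T' q₀ q₁ c h p → s ≤ p →
    (∀ ω, 0 < G.p ω → |(q₀ ω).a - (q₁ ω).a| < 2 ^ (s + 1)) →
    Psi κ (setT G T' hT') q₁ ≤
      Psi κ (G.trc w (Nat.le_add_right w L)) (fun ω => ⟨c, h - L, p - s, (q₀ ω).a / 2 ^ s⟩) +
      Psi κ (loc (G.trc w (Nat.le_add_right w L))
          (fun ω => ⟨c, h - L, p - s, (q₀ ω).a / 2 ^ s⟩) L (fun ω => T' ω % 2 ^ L)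
          (fun _ => Nat.mod_lt _ (by positivity)))
        (fun ω => ⟨false, L, s, (q₁ ω).a - (q₀ ω).a / 2 ^ s * 2 ^ s⟩) + C

/-- **(LOC2)** Composition of a label of the large window with a label of the local family. -/
def LOC2Stmt : Prop :=
  ∃ C : ℝ, 0 ≤ C ∧ ∀ (κ : ℝ), 0 ≤ κ → κ ≤ 1 → ∀ (w L R R₀ R' : ℕ) (G : Fam 2 w)
    (qC : G.Ω → Sec) (τ : G.Ω → ℕ) (hτ : ∀ ω, τ ω < 2 ^ L),
    (∀ ω, 0 < G.p ω → Ok w R₀ (qC ω)) → R₀ + R' ≤ R → ∀ x : ℝ,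
    Get κ R' ((loc G qC L τ hτ).trc 0 (Nat.zero_le _)) x →
    Get κ R G (Psi κ G qC + x - C)

/-- **(CONV)** From matrices to sections. -/
def CONVStmt : Prop :=
  ∀ C₀ : ℝ, ∃ C₁ : ℝ, 0 ≤ C₁ ∧ ∀ (w R : ℕ) (A : Fin 2 → Fin 2 → ℝ), w ≤ R →
    (∀ (x : Fin 2 → ℝ) (i : Fin 2),
      2 ^ w * |x i| ≤ C₀ * (|∑ j, A 0 j * x j| + |∑ j, A 1 j * x j|)) →
    (∀ i j, |A i j| ≤ C₀ * 2 ^ R) →
    ∃ q : Sec, Ok w R q ∧
      (∃ T : Fin 2 → Fin 2 → ℝ, (∀ i j, |T i j| ≤ C₁) ∧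
        ∀ (x : Fin 2 → ℝ) (i : Fin 2), q.co x i = ∑ k, T i k * ∑ j, A k j * x j) ∧
      Real.log |A 0 0 * A 1 1 - A 0 1 * A 1 0| ≤ (2 * (q.h : ℝ) + q.p) * Real.log 2 + C₁ ∧
      ∀ M : ℝ, (∀ i j, |A i j| ≤ M) → q.p * Real.log 2 ≤
        2 * Real.log M - Real.log |A 0 0 * A 1 1 - A 0 1 * A 1 0| + C₁

/-- **(DEAD)** Any law: three digits are lost for each digit of the time. -/
def DEADStmt : Prop :=
  ∃ C : ℝ, 0 ≤ C ∧ ∀ (κ : ℝ) (w L R : ℕ) (G : Fam 2 (w + L)) (q : G.Ω → Sec),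
    (∀ ω, 0 < G.p ω → Ok (w + L) R (q ω)) →
    Get κ R (G.trc w (Nat.le_add_right w L)) (Psi κ G q - 3 * (L * Real.log 2) - C)

/-! ### The base -/

/-- The family with `s` additional uniform digits of the time. -/
noncomputable def fll {L : ℕ} (G : Fam 2 L) (s : ℕ) : Fam 2 (L + s) where
  Ω := G.Ω × Fin (2 ^ s)
  ζ := G.ζ
  fin := inferInstance
  p := fun e => G.p e.1 / 2 ^ s
  u := fun e => G.u e.1
  d := fun e => G.d e.1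
  T := fun e => G.T e.1 * 2 ^ s + e.2
  Z := fun e => G.Z e.1
  isLaw := by
    refine ⟨fun e => div_nonneg (G.isLaw.nonneg _) (by positivity), ?_⟩
    rw [Fintype.sum_prod_type]
    have h : ∀ ω : G.Ω, ∑ _e : Fin (2 ^ s), G.p ω / 2 ^ s = G.p ω := by
      intro ω
      rw [Finset.sum_const, Finset.card_univ, Fintype.card_fin, nsmul_eq_mul]
      push_cast
      field_simp
    simp only [h]
    exact G.isLaw.sum_one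
  dir := fun e => G.dir e.1
  tim := fun e => by
    have h1 := G.tim e.1
    have h2 := e.2.isLt
    calc G.T e.1 * 2 ^ s + e.2 < G.T e.1 * 2 ^ s + 2 ^ s := by omega
      _ = (G.T e.1 + 1) * 2 ^ s := by ring
      _ ≤ 2 ^ L * 2 ^ s := Nat.mul_le_mul_right _ h1
      _ = 2 ^ (L + s) := by rw [pow_add]

/-- **(FIL)** Filling: the positions of the filled family have small entropy. -/
def FILStmt : Prop :=
  ∃ C : ℝ, 0 ≤ C ∧ ∀ (L s : ℕ) (G : Fam 2 L) (q : G.Ω → Sec),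
    (∀ ω, 0 < G.p ω → (q ω).c = false ∧ (q ω).h = L ∧ (q ω).p = s ∧
      |(q ω).a| ≤ 4 * 2 ^ s) →
    CH (fll G s).p ((fll G s).X (L + s)) (fll G s).W ≤
      CH G.p (Lab G q) G.Z + s * Real.log 2 - CH G.p G.T G.Z + C

/-- **(LBL)** The labels of `Pool.LK` give labels at the window `0`. -/
def LBLStmt : Prop :=
  ∀ b : ℝ, 1 ≤ b → ∃ C : ℝ, 0 ≤ C ∧ ∀ (κ : ℝ), 0 ≤ κ → κ ≤ 1 → ∀ (J : ℕ) (F : Fam 2 J)
    (B : Pool.LK.Lbl F b),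
    Get κ J (F.trc 0 (Nat.zero_le _)) ((2 - κ) * (J * Real.log 2) - B.cost - C)

/-- **(STA)** The label at the window `J` with the trivial section. -/
def STAStmt : Prop :=
  ∃ C : ℝ, 0 ≤ C ∧ ∀ (κ : ℝ) (J : ℕ) (F : Fam 2 J),
    3 * (J * Real.log 2) - CH F.p (fun ω => (F.X J ω, F.T ω)) F.Z - C ≤
      Psi κ F (fun _ => ⟨false, J, 0, 0⟩)

/-- **(FIN)** The potential at the window `0` is at most the defect of the direction. -/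
def FINStmt : Prop :=
  ∃ C : ℝ, 0 ≤ C ∧ ∀ (κ : ℝ), 0 ≤ κ → ∀ (J : ℕ) (F : Fam 2 J) (x : ℝ),
    Get κ J (F.trc 0 (Nat.zero_le _)) x →
    x ≤ 2 * (J * Real.log 2) - CH F.p (F.D J) F.Z + C

/-- **(BASL)** The base case from `LKS 2 b`: one block, the cost is `Λ` times the deficit. -/
def BASLStmt : Prop :=
  ∀ b : ℝ, 1 ≤ b → Pool.LK.LKS 2 b → ∀ (κ : ℝ), 0 < κ → κ ≤ 1 → ∀ (A : ℕ), ∃ Λ : ℝ, 0 < Λ ∧
    ∃ K₀ : ℕ, ∀ K ≥ K₀,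
      PN κ A (fun (_ : Unit) (_ : ℕ) => Λ * (K * Real.log 2)) Λ K 1 (2 * κ)

/-! ### Mixtures, one step, the tower -/

/-- **(MIX)** From the pieces of a partition. -/
def MIXStmt : Prop :=
  ∀ (κ : ℝ) (R w : ℕ) (G : Fam 2 w) (σ : Type) [DecidableEq σ] (S : G.Ω → σ)
    (h : ∀ s, law G.p S s ≠ 0 → IsLaw (cond G.p S s)) (x : σ → ℝ),
    (∀ s (hs : law G.p S s ≠ 0), Get κ R (G.res S s (h s hs)) (x s)) →
    Get κ R G (∑ s ∈ univ.image S, law G.p S s * x s - CH G.p S G.Z)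

/-- **(STEP)** One step from the window `w + K N` to the window `w`. -/
def STEPStmt : Prop :=
  ∃ C : ℝ, 0 ≤ C ∧ ∀ (κ : ℝ), 0 < κ → κ ≤ 1 → ∀ (A : ℕ), 3 ≤ κ * A →
    ∀ (Y : Type) (f : Y → ℕ → ℝ) (Λ : ℝ), 0 < Λ → ∀ (K N : ℕ), Nng f Λ K →
    ∀ δ : ℝ, 0 ≤ δ → PN κ A f Λ K N δ →
    ∀ (w R : ℕ) (G : Fam 2 (w + K * N)) (κ₁ : Type) (v : G.Ω → κ₁) (y : ℕ → G.Ω → Y),
    Adm K N G v y → ∀ q : G.Ω → Sec, (∀ ω, 0 < G.p ω → Ok (w + K * N) R (q ω)) →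
    Get κ R (G.trc w (Nat.le_add_right w (K * N)))
      (Psi κ G q - cst f Λ K N G v y - δ * (K * N : ℕ) -
        C * (1 + Λ) * Real.log (R + 2))

/-- **(TOWER)** From `N'` blocks to `N' M` blocks. -/
def TOWStmt : Prop :=
  ∃ C : ℝ, 0 ≤ C ∧ ∀ (κ : ℝ), 0 < κ → κ ≤ 1 → ∀ (A : ℕ), 3 ≤ κ * A →
    ∀ (Y : Type) (f : Y → ℕ → ℝ) (Λ : ℝ), 0 < Λ → ∀ (K N' : ℕ), 1 ≤ K → 1 ≤ N' → Nng f Λ K →
    ∀ δ : ℝ, 0 ≤ δ → PN κ A f Λ K N' δ → ∀ M : ℕ,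
      PN κ A f Λ K (N' * M)
        (δ + C * (1 + Λ) * Real.log ((1 + A) * (K * (N' * M) : ℕ) + 2) / (K * N' : ℕ))

end Pool.KM7
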