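import Pool.Agent.H15.KM7.Step
import Pool.Agent.H70.KM7.Tow

/-!
# The local label potential: from the base case to all families
-/

set_option autoImplicit false

namespace Pool.KM7

open Finset Real
open Pool.Agent.H49.Ent Pool.Agent.H32.Dense Pool.STK Pool.KA

theorem PN.mono {κ : ℝ} {A : ℕ} {Y : Type} {f : Y → ℕ → ℝ} {Λ : ℝ} {K N : ℕ} {δ δ' : ℝ}
    (h : δ ≤ δ') (hP : PN κ A f Λ K N δ) : PN κ A f Λ K N δ' := by
  intro G κ₁ v y hA hu s hs q hq
  refine (hP G κ₁ v y hA hu s hs q hq).mono ?_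
  have : δ * ((K * N : ℕ) : ℝ) ≤ δ' * ((K * N : ℕ) : ℝ) :=
    mul_le_mul_of_nonneg_right h (Nat.cast_nonneg _)
  linarith only [this]

/-- The standard local problems with `2 ^ j` blocks. -/
theorem pn_pow (hTOW : TOWStmt) : ∃ C : ℝ, 0 ≤ C ∧ ∀ (κ : ℝ), 0 < κ → κ ≤ 1 → ∀ (A : ℕ),
    3 ≤ κ * A → ∀ (Y : Type) (f : Y → ℕ → ℝ) (Λ : ℝ), 0 < Λ → ∀ (K : ℕ), 1 ≤ K → Nng f Λ K →
    ∀ δ : ℝ, 0 ≤ δ → PN κ A f Λ K 1 δ → ∀ j : ℕ,
      PN κ A f Λ K (2 ^ j) (δ + C * (1 + Λ) * Real.log ((1 + A) * K + 2) / K) := by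
  obtain ⟨C, hC, hT⟩ := hTOW
  refine ⟨6 * C, by positivity, ?_⟩
  intro κ hκ hκ1 A hA Y f Λ hΛ K hK hf δ hδ hP
  have hl2 : 0 < Real.log 2 := Real.log_pos (by norm_num)
  have hK0 : (0 : ℝ) < K := by exact_mod_cast hK
  set a := Real.log ((1 + A) * K + 2) with ha
  have ha2 : Real.log 2 ≤ a := by
    refine Real.log_le_log (by norm_num) ?_
    have : (0 : ℝ) ≤ (1 + A) * K := by positivity
    linarith only [this]
  set D : ℕ → ℝ := fun j => C * (1 + Λ) / K *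
    (2 * a * (1 - 1 / 2 ^ j) + Real.log 2 * (4 - (2 * j + 4) / 2 ^ j)) with hD
  have hD0 : ∀ j, 0 ≤ D j := by
    intro j
    have h1 : (1 : ℝ) / 2 ^ j ≤ 1 := by
      rw [div_le_one (by positivity)]
      exact one_le_pow₀ (by norm_num)
    have h2 : (2 * (j : ℝ) + 4) / 2 ^ j ≤ 4 := by
      rw [div_le_iff₀ (by positivity)]
      have h3 : (j : ℝ) + 1 ≤ 2 ^ j := by
        have h4 : j + 1 ≤ 2 ^ j := Nat.lt_two_pow_self
        exact_mod_cast h4
      nlinarith only [h3, Nat.cast_nonneg (α := ℝ) j]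
    have h5 : 0 ≤ a := hl2.le.trans ha2
    have h6 : 0 ≤ 2 * a * (1 - 1 / 2 ^ j) := mul_nonneg (by positivity) (by linarith only [h1])
    have h7 : 0 ≤ Real.log 2 * (4 - (2 * (j : ℝ) + 4) / 2 ^ j) :=
      mul_nonneg hl2.le (by linarith only [h2])
    simp only [hD]
    have h8 : 0 ≤ C * (1 + Λ) / K := by positivity
    exact mul_nonneg h8 (by linarith only [h6, h7])
  have key : ∀ j, PN κ A f Λ K (2 ^ j) (δ + D j) := by
    intro j
    induction j with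
    | zero =>
      have h1 : D 0 = 0 := by
        simp only [hD]
        norm_num
      rw [h1, add_zero, pow_zero]
      exact hP
    | succ j ih =>
      have h1 := hT κ hκ hκ1 A hA Y f Λ hΛ K (2 ^ j) hK Nat.one_le_two_pow hf (δ + D j)
        (add_nonneg hδ (hD0 j)) ih 2
      rw [← pow_succ] at h1
      refine h1.mono ?_
      have hlog : Real.log ((1 + A) * (K * 2 ^ (j + 1) : ℕ) + 2) ≤
          a + (j + 1) * Real.log 2 := by
        have h2 : (0 : ℝ) < (1 + A) * (K * 2 ^ (j + 1) : ℕ) + 2 := by positivity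
        have h3 : a + (j + 1) * Real.log 2 =
            Real.log (((1 + A) * K + 2) * 2 ^ (j + 1)) := by
          rw [Real.log_mul (by positivity) (by positivity), Real.log_pow]
          push_cast
          rfl
        rw [h3]
        refine Real.log_le_log h2 ?_
        have h4 : (1 : ℝ) ≤ 2 ^ (j + 1) := one_le_pow₀ (by norm_num)
        push_cast
        nlinarith only [h4]
      have hD1 : D (j + 1) = D j + C * (1 + Λ) * (a + (j + 1) * Real.log 2) / (K * 2 ^ j) := by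
        simp only [hD]
        push_cast
        field_simp
        ring
      rw [hD1]
      have h5 : C * (1 + Λ) * Real.log ((1 + A) * (K * 2 ^ (j + 1) : ℕ) + 2) /
          (K * 2 ^ j : ℕ) ≤ C * (1 + Λ) * (a + (j + 1) * Real.log 2) / (K * 2 ^ j) := by
        push_cast at hlog ⊢
        have h6 : 0 ≤ C * (1 + Λ) := by positivity
        gcongr
      linarith only [h5]
  intro j
  refine (key j).mono ?_
  have h5 : 0 ≤ a := hl2.le.trans ha2
  have h1 : (0 : ℝ) ≤ 1 / 2 ^ j := by positivity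
  have h2 : (0 : ℝ) ≤ (2 * (j : ℝ) + 4) / 2 ^ j := by positivity
  have h3 : 2 * a * (1 - 1 / 2 ^ j) ≤ 2 * a := by nlinarith only [hl2, h1, ha2]
  have h4 : Real.log 2 * (4 - (2 * (j : ℝ) + 4) / 2 ^ j) ≤ 4 * a := by nlinarith only [ha2, hl2, h2]
  have h6 : D j ≤ C * (1 + Λ) / K * (6 * a) := by
    simp only [hD]
    refine mul_le_mul_of_nonneg_left (by linarith only [h3, h4]) (by positivity)
  have h7 : C * (1 + Λ) / K * (6 * a) = 6 * C * (1 + Λ) * a / K := by ring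
  linarith only [h6, h7]

open TW in
/-- The whole time resolution. -/
theorem get_top {κ : ℝ} {R J : ℕ} (G : Fam 2 J) (q : G.Ω → Sec)
    (hq : ∀ ω, 0 < G.p ω → Ok J R (q ω)) : Get κ R (G.trc J (le_refl J)) (Psi κ G q) := by
  refine ⟨G.Ω, G.fin, G.p, G.isLaw, id, q, psh_of_marg (Marg.id G.p), hq, ?_⟩
  have e3 : Psi κ ((G.trc J (le_refl J)).ext G.p G.isLaw id) q =
      Psi κ (G.ext G.p G.isLaw id) q := by
    refine psi_congr (G.trc J (le_refl J)) G G.p G.isLaw id id q ?_ id id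
      Function.injective_id Function.injective_id (fun e => rfl)
    intro e
    refine ⟨?_, rfl, rfl⟩
    show G.T e / 2 ^ (J - J) = G.T e
    rw [Nat.sub_self, pow_zero, Nat.div_one]
  exact e3.ge

open TW in
theorem cs1_add {Y : Type} (f : Y → ℕ → ℝ) (Λ : ℝ) (K N₁ N₂ sh : ℕ) {J : ℕ} (G : Fam 2 J)
    {κ₁ : Type} (v : G.Ω → κ₁) (y : ℕ → G.Ω → Y) :
    cs1 f Λ K (N₁ + N₂) sh G v y = cs1 f Λ K N₁ sh G v y + cs1 f Λ K N₂ (sh + N₁) G v y := by
  have h1 := cst_add f Λ K (N₁ + N₂) sh G v y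
  have h2 := cst_add f Λ K N₁ sh G v y
  have h3 := cst_add f Λ K N₂ (sh + N₁) G v y
  rw [← add_assoc] at h1
  linarith only [h1, h2, h3]

open TW in
/-- The walk from any window to any other, by blocks of lengths powers of two. -/
theorem walk (hSTEP : STEPStmt) (hTOW : TOWStmt) : ∃ C : ℝ, 0 ≤ C ∧ ∀ (κ : ℝ), 0 < κ → κ ≤ 1 →
    ∀ (A : ℕ), 3 ≤ κ * A → ∀ (Y : Type) (f : Y → ℕ → ℝ) (Λ : ℝ), 0 < Λ → ∀ (K : ℕ), 1 ≤ K →
    Nng f Λ K → ∀ δ : ℝ, 0 ≤ δ → PN κ A f Λ K 1 δ →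
    ∀ (J R : ℕ) (G : Fam 2 J) (κ₁ : Type) (v : G.Ω → κ₁) (y : ℕ → G.Ω → Y) (b : ℕ),
    ∀ n < 2 ^ b, ∀ (w sh : ℕ) (hw : w + K * n ≤ J), J = w + K * n + K * sh →
      Adm K (sh + n) G v y → ∀ x : ℝ, Get κ R (G.trc (w + K * n) hw) x →
      Get κ R (G.trc w (by omega)) (x - cs1 f Λ K n sh G v y -
        (δ + C * (1 + Λ) * Real.log ((1 + A) * K + 2) / K) * (K * n : ℕ) -
        b * (C * (1 + Λ) * Real.log (R + 2))) := by
  obtain ⟨C₁, hC₁, hP⟩ := pn_pow hTOW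
  obtain ⟨C₂, hC₂, hS⟩ := hSTEP
  refine ⟨C₁ + C₂, by positivity, ?_⟩
  intro κ hκ hκ1 A hA Y f Λ hΛ K hK hf δ hδ hP1 J R G κ₁ v y b
  have hl2 : 0 < Real.log 2 := Real.log_pos (by norm_num)
  have hK0 : (0 : ℝ) < K := by exact_mod_cast hK
  have hlR : 0 ≤ Real.log (R + 2) := Real.log_nonneg (by
    have : (0 : ℝ) ≤ R := Nat.cast_nonneg R
    linarith only)
  have hla : 0 ≤ Real.log ((1 + A) * K + 2) := Real.log_nonneg (by
    have : (0 : ℝ) ≤ (1 + A) * K := by positivity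
    linarith only [this])
  set δ' := δ + (C₁ + C₂) * (1 + Λ) * Real.log ((1 + A) * K + 2) / K with hδ'
  have hδ'0 : 0 ≤ δ' := by positivity
  have hPN : ∀ j, PN κ A f Λ K (2 ^ j) δ' := by
    intro j
    refine (hP κ hκ hκ1 A hA Y f Λ hΛ K hK hf δ hδ hP1 j).mono ?_
    have : C₁ * (1 + Λ) * Real.log ((1 + A) * K + 2) / K ≤
        (C₁ + C₂) * (1 + Λ) * Real.log ((1 + A) * K + 2) / K := by
      have h1 : C₁ ≤ C₁ + C₂ := by linarith only [hC₂]
      gcongr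
    linarith only [this]
  have herr : 0 ≤ (C₁ + C₂) * (1 + Λ) * Real.log (R + 2) := by positivity
  induction b with
  | zero =>
    intro n hn w sh hw hJ hAdm x hx
    have hn0 : n = 0 := by
      rw [pow_zero] at hn
      omega
    subst hn0
    have h0 : cs1 f Λ K 0 sh G v y = 0 := by
      have h1 := cst_add f Λ K 0 sh G v y
      rw [add_zero] at h1
      linarith only [h1]
    have h2 : Get κ R (G.trc w (by omega)) x := get_trc (by rw [mul_zero, add_zero]) hx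
    refine h2.mono ?_
    rw [h0]
    push_cast
    simp
  | succ b ih =>
    intro n hn w sh hw hJ hAdm x hx
    by_cases hb : n < 2 ^ b
    · refine (ih n hb w sh hw hJ hAdm x hx).mono ?_
      push_cast
      nlinarith only [herr]
    · push Not at hb
      obtain ⟨m, rfl⟩ := Nat.exists_eq_add_of_le hb
      have hm : m < 2 ^ b := by
        rw [pow_succ] at hn
        omega
      have e1 : K * (2 ^ b + m) = K * m + K * 2 ^ b := by ring
      have hx' : Get κ R (G.trc (w + K * m + K * 2 ^ b) (by omega)) x :=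
        get_trc (by omega) hx
      have h1 := get_step hκ hκ1 hA hΛ hf hδ'0 (hPN b) hS (w := w + K * m) (R := R) (sh := sh)
        G v y (by omega) (by omega) (fun i hi => hAdm i (by omega)) hx'
      have h2 := ih m hm w (sh + 2 ^ b) (by omega) (by rw [Nat.mul_add]; omega)
        (fun i hi => hAdm i (by omega)) _ h1
      refine h2.mono ?_
      rw [cs1_add]
      have h3 : C₂ * (1 + Λ) * Real.log (R + 2) ≤ (C₁ + C₂) * (1 + Λ) * Real.log (R + 2) := by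
        have h1 : C₂ ≤ C₁ + C₂ := by linarith only [hC₁]
        gcongr
      have h4 : ((K * (2 ^ b + m) : ℕ) : ℝ) = (K * m : ℕ) + (K * 2 ^ b : ℕ) := by
        push_cast
        ring
      rw [h4]
      push_cast
      nlinarith only [h3]

/-- **From the base case to all families.** -/
theorem thmB (hSTEP : STEPStmt) (hTOW : TOWStmt) (hSTA : STAStmt) (hFIN : FINStmt) :
    ∃ C : ℝ, 0 ≤ C ∧ ∀ (κ : ℝ), 0 < κ → κ ≤ 1 →
    ∀ (A : ℕ), 3 ≤ κ * A → ∀ (Y : Type) (f : Y → ℕ → ℝ) (Λ : ℝ), 0 < Λ → ∀ (K : ℕ), 1 ≤ K →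
    Nng f Λ K → ∀ δ : ℝ, 0 ≤ δ → PN κ A f Λ K 1 δ →
    ∀ (N : ℕ) (F : Fam 2 (K * N)) (κ₁ : Type) (v : F.Ω → κ₁) (y : ℕ → F.Ω → Y),
      Adm K N F v y →
      CH F.p (F.D (K * N)) F.Z ≤ CH F.p (fun ω => (F.X (K * N) ω, F.T ω)) F.Z -
        (K * N : ℕ) * Real.log 2 + cst f Λ K N F v y +
        (δ + C * (1 + Λ) * Real.log ((1 + A) * K + 2) / K) * (K * N : ℕ) +
        C * (1 + Λ) * Real.log ((K * N : ℕ) + 2) ^ 2 + C := by
  obtain ⟨C₁, hC₁, hW⟩ := walk hSTEP hTOW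
  obtain ⟨C₂, hC₂, hS⟩ := hSTA
  obtain ⟨C₃, hC₃, hF⟩ := hFIN
  have hl2 : 0 < Real.log 2 := Real.log_pos (by norm_num)
  refine ⟨C₁ + 2 * C₁ / Real.log 2 + C₂ + C₃, by positivity, ?_⟩
  intro κ hκ hκ1 A hA Y f Λ hΛ K hK hf δ hδ hP1 N F κ₁ v y hAdm
  have hK0 : (0 : ℝ) < K := by exact_mod_cast hK
  set b := Nat.log 2 N + 1 with hb
  have hNb : N < 2 ^ b := Nat.lt_pow_succ_log_self (by norm_num) N
  have h1 : Get κ (K * N) (F.trc (K * N) (le_refl _))
      (Psi κ F (fun _ => ⟨false, K * N, 0, 0⟩)) :=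
    get_top F _ (fun ω _ => ⟨le_refl _, by simp, by simp⟩)
  have h2 := hW κ hκ hκ1 A hA Y f Λ hΛ K hK hf δ hδ hP1 (K * N) (K * N) F κ₁ v y b N hNb 0 0
    (by omega) (by omega) (by rw [zero_add]; exact hAdm) _ (TW.get_trc (by omega) h1)
  have h3 := hF κ hκ.le (K * N) F _ h2
  have h4 := hS κ (K * N) F
  have h5 : TW.cs1 f Λ K N 0 F v y = cst f Λ K N F v y := by
    have h6 := TW.cst_add f Λ K N 0 F v y
    rw [TW.cst_zero, zero_add, zero_add] at h6
    exact h6.symm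
  rw [h5] at h3
  set lJ := Real.log (((K * N : ℕ) : ℝ) + 2) with hlJ
  have hlJ2 : Real.log 2 ≤ lJ := by
    refine Real.log_le_log (by norm_num) ?_
    have : (0 : ℝ) ≤ ((K * N : ℕ) : ℝ) := Nat.cast_nonneg _
    linarith only
  have hbl : (b : ℝ) ≤ 2 / Real.log 2 * lJ := by
    have h6 : (Nat.log 2 N : ℝ) * Real.log 2 ≤ lJ := by
      rcases Nat.eq_zero_or_pos N with h0 | h0
      · rw [h0, Nat.log_zero_right, Nat.cast_zero, zero_mul]
        exact hl2.le.trans hlJ2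
      · have h7 := Nat.pow_log_le_self 2 h0.ne'
        have h8 : ((2 : ℝ) ^ Nat.log 2 N) ≤ ((K * N : ℕ) : ℝ) + 2 := by
          have h9 : (2 : ℝ) ^ Nat.log 2 N ≤ N := by exact_mod_cast h7
          have h10 : (N : ℝ) ≤ ((K * N : ℕ) : ℝ) := by
            exact_mod_cast Nat.le_mul_of_pos_left N hK
          linarith only [h9, h10]
        rw [← Real.log_pow]
        exact Real.log_le_log (by positivity) h8
    rw [hb]
    push_cast
    have h11 : (Nat.log 2 N : ℝ) + 1 ≤ 2 * lJ / Real.log 2 := by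
      rw [le_div_iff₀ hl2]
      nlinarith only [hlJ2, h6]
    calc (Nat.log 2 N : ℝ) + 1 ≤ 2 * lJ / Real.log 2 := h11
      _ = 2 / Real.log 2 * lJ := by ring
  have hl0 : 0 ≤ lJ := hl2.le.trans hlJ2
  have h6 : (b : ℝ) * (C₁ * (1 + Λ) * lJ) ≤ 2 * C₁ / Real.log 2 * (1 + Λ) * lJ ^ 2 := by
    calc (b : ℝ) * (C₁ * (1 + Λ) * lJ) ≤ 2 / Real.log 2 * lJ * (C₁ * (1 + Λ) * lJ) :=
          mul_le_mul_of_nonneg_right hbl (by positivity)
      _ = 2 * C₁ / Real.log 2 * (1 + Λ) * lJ ^ 2 := by ring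
  have h7 : C₁ * (1 + Λ) * Real.log ((1 + A) * K + 2) / K ≤
      (C₁ + 2 * C₁ / Real.log 2 + C₂ + C₃) * (1 + Λ) * Real.log ((1 + A) * K + 2) / K := by
    have hla : 0 ≤ Real.log ((1 + A) * K + 2) := Real.log_nonneg (by
      have : (0 : ℝ) ≤ (1 + A) * K := by positivity
      linarith only [this])
    have h8 : C₁ ≤ C₁ + 2 * C₁ / Real.log 2 + C₂ + C₃ := by
      have : 0 ≤ 2 * C₁ / Real.log 2 := by positivity
      linarith only [hC₂, hC₃, this]
    gcongr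
  have h8 : (C₁ * (1 + Λ) * Real.log ((1 + A) * K + 2) / K) * ((K * N : ℕ) : ℝ) ≤
      ((C₁ + 2 * C₁ / Real.log 2 + C₂ + C₃) * (1 + Λ) * Real.log ((1 + A) * K + 2) / K) *
        ((K * N : ℕ) : ℝ) := mul_le_mul_of_nonneg_right h7 (Nat.cast_nonneg _)
  have h9 : 2 * C₁ / Real.log 2 * (1 + Λ) * lJ ^ 2 ≤
      (C₁ + 2 * C₁ / Real.log 2 + C₂ + C₃) * (1 + Λ) * lJ ^ 2 := by
    have h10 : 2 * C₁ / Real.log 2 ≤ C₁ + 2 * C₁ / Real.log 2 + C₂ + C₃ := by linarith only [hC₁, hC₂, hC₃]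
    gcongr
  have h10 : C₂ + C₃ ≤ C₁ + 2 * C₁ / Real.log 2 + C₂ + C₃ := by
    have : 0 ≤ 2 * C₁ / Real.log 2 := by positivity
    linarith only [hC₁, this]
  rw [add_mul] at h3 ⊢
  linarith only [h4, h3, h6, h8, h9, h10]

end Pool.KM7
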