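import Pool.Agent.H20.KA.TRC
import Pool.Agent.H73.KFIN.Max

/-!
# The maximal entropy inequality: it suffices to consider multiples of a block length
-/

set_option autoImplicit false

namespace Pool.KM7

open Finset Real
open Pool.Agent.H49.Ent Pool.Agent.H32.Dense Pool.STK Pool.KA Pool.KA.TRC

/-- Comparison of the terms of the inequality for a family and for its truncation. -/
theorem trj (m : ℕ) : ∃ C : ℝ, 0 ≤ C ∧ ∀ (J x : ℕ) (hx : x ≤ J) (F : Fam m J),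
    CH F.p (F.D J) F.Z ≤ CH (F.trc x hx).p ((F.trc x hx).D x) (F.trc x hx).Z +
      m * (((J : ℝ) - x) * Real.log 2) ∧
    CH (F.trc x hx).p (fun ω => ((F.trc x hx).X x ω, (F.trc x hx).T ω)) (F.trc x hx).Z ≤
      CH F.p (fun ω => (F.X J ω, F.T ω)) F.Z + C ∧
    CH F.p F.T (fun ω => (F.l ω, F.Z ω)) ≤
      CH (F.trc x hx).p (F.trc x hx).T (fun ω => ((F.trc x hx).l ω, (F.trc x hx).Z ω)) +
        ((J : ℝ) - x) * Real.log 2 := by
  refine ⟨m * Real.log (2 * 3 + 1), by positivity, ?_⟩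
  intro J x hx F
  have hp := F.isLaw
  have hp0 := hp.nonneg
  have hx' : (((J - x : ℕ) : ℝ)) = (J : ℝ) - x := by
    rw [Nat.cast_sub hx]
  have hJx : J - x + x = J := Nat.sub_add_cancel hx
  have hxJ : x + (J - x) = J := Nat.add_sub_cancel' hx
  set T' : F.Ω → ℕ := fun ω => F.T ω / 2 ^ (J - x) with hT'
  refine ⟨?_, ?_, ?_⟩
  · -- the direction
    have h1 := CH_floor hp F.d F.Z x (J - x)
    rw [hxJ, hx'] at h1
    have h2 := CH_le_add hp0 (F.D J) (F.D x) F.Z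
    have h3 : CH F.p (F.D J) (fun ω => (F.D x ω, F.Z ω)) ≤ m * (((J : ℝ) - x) * Real.log 2) := h1
    change CH F.p (F.D J) F.Z ≤ CH F.p (F.D x) F.Z + m * (((J : ℝ) - x) * Real.log 2)
    linarith
  · -- the position with the time
    set Y : F.Ω → Fin m → ℤ := (F.trc x hx).X x with hY
    change CH F.p (fun ω => (Y ω, T' ω)) F.Z ≤ _
    have hclose : ∀ ω k, |(2 : ℝ) ^ x * (F.u ω k + (T' ω : ℝ) / 2 ^ x * F.d ω k) -
        2 ^ x * (F.u ω k + (F.T ω : ℝ) / 2 ^ J * F.d ω k)| ≤ 1 := by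
      intro ω k
      have e1 : (2 : ℝ) ^ x * (F.u ω k + (T' ω : ℝ) / 2 ^ x * F.d ω k) -
          2 ^ x * (F.u ω k + (F.T ω : ℝ) / 2 ^ J * F.d ω k) =
          2 ^ x * ((T' ω : ℝ) / 2 ^ x - (F.T ω : ℝ) / 2 ^ J) * F.d ω k := by ring
      have e2 : (2 : ℝ) ^ J = 2 ^ (J - x) * 2 ^ x := by rw [← pow_add, hJx]
      have hdm := Nat.div_add_mod (F.T ω) (2 ^ (J - x))
      have hml := Nat.mod_lt (F.T ω) (y := 2 ^ (J - x)) (by positivity)
      have e3 : (F.T ω : ℝ) = 2 ^ (J - x) * (T' ω : ℝ) + ((F.T ω % 2 ^ (J - x) : ℕ) : ℝ) := by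
        rw [hT']
        exact_mod_cast hdm.symm
      have e4 : ((F.T ω % 2 ^ (J - x) : ℕ) : ℝ) < 2 ^ (J - x) := by exact_mod_cast hml
      have p1 : (0 : ℝ) < 2 ^ (J - x) := by positivity
      have p2 : (0 : ℝ) < 2 ^ x := by positivity
      have e6 : (2 : ℝ) ^ x * ((T' ω : ℝ) / 2 ^ x - (F.T ω : ℝ) / 2 ^ J) =
          -(((F.T ω % 2 ^ (J - x) : ℕ) : ℝ) / 2 ^ (J - x)) := by
        rw [e2]
        field_simp
        linarith
      rw [e1, e6, abs_mul, abs_neg,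
        abs_of_nonneg (a := ((F.T ω % 2 ^ (J - x) : ℕ) : ℝ) / 2 ^ (J - x)) (by positivity)]
      have e7 : ((F.T ω % 2 ^ (J - x) : ℕ) : ℝ) / 2 ^ (J - x) ≤ 1 := by
        rw [div_le_one p1]
        exact e4.le
      calc _ ≤ 1 * 1 := mul_le_mul e7 (F.dir ω k) (abs_nonneg _) (by norm_num)
        _ = 1 := by norm_num
    have h1 := CH_le_add hp0 (fun ω => (Y ω, T' ω)) (fun ω => (F.X J ω, F.T ω)) F.Z
    have h2 : CH F.p (fun ω => (Y ω, T' ω)) (fun ω => ((F.X J ω, F.T ω), F.Z ω)) =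
        CH F.p Y (fun ω => ((F.X J ω, F.T ω), F.Z ω)) := by
      refine CH_congr hp0 ?_ ?_ (fun _ _ _ _ h => h) (fun _ _ _ _ h => h)
      · intro a b _ _ h
        exact (Prod.ext_iff.mp (Prod.ext_iff.mp h).1).1
      · intro a b _ _ h
        have e1 : Y a = Y b := (Prod.ext_iff.mp h).1
        have e2 : F.T a = F.T b :=
          (Prod.ext_iff.mp (Prod.ext_iff.mp (Prod.ext_iff.mp h).2).1).2
        refine Prod.ext e1 ?_
        change F.T a / 2 ^ (J - x) = F.T b / 2 ^ (J - x)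
        rw [e2]
    have h3 := CH_le_vec hp0 hp.sum_one Y (fun ω => ((F.X J ω, F.T ω), F.Z ω)) (fun _ => 3)
      (fun ω ω' _ _ h k => by
        have hX : F.X J ω k = F.X J ω' k :=
          congrFun (Prod.ext_iff.mp (Prod.ext_iff.mp h).1).1 k
        have c1 := hclose ω k
        have c2 := hclose ω' k
        change ⌊(2 : ℝ) ^ J * F.x ω k⌋ = ⌊(2 : ℝ) ^ J * F.x ω' k⌋ at hX
        change |((⌊(2 : ℝ) ^ x * (F.u ω k + (T' ω : ℝ) / 2 ^ x * F.d ω k)⌋ -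
          ⌊(2 : ℝ) ^ x * (F.u ω' k + (T' ω' : ℝ) / 2 ^ x * F.d ω' k)⌋ : ℤ) : ℝ)| ≤ 3
        have hxx : ∀ ω, F.x ω k = F.u ω k + (F.T ω : ℝ) / 2 ^ J * F.d ω k := fun _ => rfl
        rw [hxx, hxx] at hX
        set A := (2 : ℝ) ^ J * (F.u ω k + (F.T ω : ℝ) / 2 ^ J * F.d ω k) with hA
        set B := (2 : ℝ) ^ J * (F.u ω' k + (F.T ω' : ℝ) / 2 ^ J * F.d ω' k) with hB
        have e2 : (2 : ℝ) ^ J = 2 ^ (J - x) * 2 ^ x := by rw [← pow_add, hJx]
        have p1 : (1 : ℝ) ≤ 2 ^ (J - x) := one_le_pow₀ (by norm_num)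
        have a1 := Int.floor_le A
        have a2 := Int.lt_floor_add_one A
        have b1 := Int.floor_le B
        have b2 := Int.lt_floor_add_one B
        rw [hX] at a1 a2
        have hAB : |A - B| ≤ 1 := by
          rw [abs_le]
          constructor <;> linarith
        have hAB' : |(2 : ℝ) ^ x * (F.u ω k + (F.T ω : ℝ) / 2 ^ J * F.d ω k) -
            2 ^ x * (F.u ω' k + (F.T ω' : ℝ) / 2 ^ J * F.d ω' k)| ≤ 1 := by
          have e3 : A - B = 2 ^ (J - x) * ((2 : ℝ) ^ x * (F.u ω k + (F.T ω : ℝ) / 2 ^ J *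
              F.d ω k) - 2 ^ x * (F.u ω' k + (F.T ω' : ℝ) / 2 ^ J * F.d ω' k)) := by
            rw [hA, hB, e2]
            ring
          rw [e3, abs_mul, abs_of_nonneg (a := (2 : ℝ) ^ (J - x)) (by positivity)] at hAB
          nlinarith [abs_nonneg ((2 : ℝ) ^ x * (F.u ω k + (F.T ω : ℝ) / 2 ^ J *
              F.d ω k) - 2 ^ x * (F.u ω' k + (F.T ω' : ℝ) / 2 ^ J * F.d ω' k))]
        set P := (2 : ℝ) ^ x * (F.u ω k + (T' ω : ℝ) / 2 ^ x * F.d ω k) with hP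
        set Q := (2 : ℝ) ^ x * (F.u ω' k + (T' ω' : ℝ) / 2 ^ x * F.d ω' k) with hQ
        have d1 := Int.floor_le P
        have d2 := Int.lt_floor_add_one P
        have d3 := Int.floor_le Q
        have d4 := Int.lt_floor_add_one Q
        rw [abs_le] at c1 c2 hAB'
        have hlt : ((⌊P⌋ - ⌊Q⌋ : ℤ) : ℝ) < 4 := by push_cast; linarith [c1.2, c2.1, hAB'.2]
        have hgt : (-4 : ℝ) < ((⌊P⌋ - ⌊Q⌋ : ℤ) : ℝ) := by
          push_cast
          linarith [c1.1, c2.2, hAB'.1]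
        have hlt' : ⌊P⌋ - ⌊Q⌋ < 4 := by exact_mod_cast hlt
        have hgt' : -4 < ⌊P⌋ - ⌊Q⌋ := by exact_mod_cast hgt
        have : |⌊P⌋ - ⌊Q⌋| ≤ 3 := by
          rw [abs_le]
          constructor <;> omega
        exact_mod_cast this)
    rw [Ex_const hp.sum_one] at h3
    rw [h2] at h1
    linarith
  · -- the time
    change _ ≤ CH F.p T' (fun ω => (F.l ω, F.Z ω)) + _
    have h1 := CH_le_add hp0 F.T T' (fun ω => (F.l ω, F.Z ω))
    have h2 := CH_div hp F.T (fun ω => (F.l ω, F.Z ω)) (J - x)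
    rw [hx'] at h2
    have h3 : CH F.p F.T (fun ω => (T' ω, (F.l ω, F.Z ω))) ≤ ((J : ℝ) - x) * Real.log 2 := h2
    linarith

/-- **Multiples of a block length suffice.** -/
theorem mb_of_mult {m : ℕ} {β : ℝ} (hβ : 0 ≤ β)
    (h : ∀ ε > 0, ∃ K : ℕ, 1 ≤ K ∧ ∃ N₀ : ℕ, ∀ N ≥ N₀, ∀ F : Fam m (K * N),
      CH F.p (F.D (K * N)) F.Z + ((K * N : ℕ) : ℝ) * Real.log 2 -
          CH F.p (fun ω => (F.X (K * N) ω, F.T ω)) F.Z ≤
        β * (((K * N : ℕ) : ℝ) * Real.log 2 - CH F.p F.T (fun ω => (F.l ω, F.Z ω))) +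
          ε * (K * N : ℕ)) : Pool.KFIN.MB m β := by
  intro ε hε
  obtain ⟨K, hK, N₀, hN⟩ := h (ε / 2) (by positivity)
  obtain ⟨C, hC, hT⟩ := trj m
  have hl2 : 0 < Real.log 2 := Real.log_pos (by norm_num)
  set E := (m + 1) * (K * Real.log 2) + C with hE
  have hE0 : 0 ≤ E := by positivity
  refine ⟨max (K * (N₀ + 1)) ⌈2 * E / ε⌉₊, ?_⟩
  intro J hJ F
  have hJ1 : K * (N₀ + 1) ≤ J := (le_max_left _ _).trans hJ
  have hJ2 : 2 * E / ε ≤ J := (Nat.le_ceil _).trans (by exact_mod_cast (le_max_right _ _).trans hJ)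
  set N := J / K with hNdef
  have hKN : K * N ≤ J := Nat.mul_div_le J K
  have hKN2 : J < K * N + K := by
    have h1 := Nat.div_add_mod J K
    have h2 := Nat.mod_lt J hK
    rw [← hNdef] at h1
    omega
  have hNN : N₀ ≤ N := by
    rw [hNdef, Nat.le_div_iff_mul_le hK]
    nlinarith
  obtain ⟨t1, t2, t3⟩ := hT J (K * N) hKN F
  have h1 := hN N hNN (F.trc (K * N) hKN)
  have h2 : (J : ℝ) - ((K * N : ℕ) : ℝ) ≤ K := by
    have : (J : ℝ) < ((K * N + K : ℕ) : ℝ) := by exact_mod_cast hKN2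
    push_cast at this ⊢
    linarith
  have h0 : 0 ≤ (J : ℝ) - ((K * N : ℕ) : ℝ) := by
    have : (((K * N : ℕ) : ℝ)) ≤ J := by exact_mod_cast hKN
    linarith
  set x : ℝ := ((K * N : ℕ) : ℝ) with hx
  have h3 : β * (x * Real.log 2 - CH (F.trc (K * N) hKN).p (F.trc (K * N) hKN).T
      (fun ω => ((F.trc (K * N) hKN).l ω, (F.trc (K * N) hKN).Z ω))) ≤
      β * ((J : ℝ) * Real.log 2 - CH F.p F.T (fun ω => (F.l ω, F.Z ω))) := by
    refine mul_le_mul_of_nonneg_left ?_ hβ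
    linarith
  have h4 : (m : ℝ) * (((J : ℝ) - x) * Real.log 2) + ((J : ℝ) - x) * Real.log 2 ≤
      (m + 1) * (K * Real.log 2) := by
    have h5 : ((J : ℝ) - x) * Real.log 2 ≤ K * Real.log 2 :=
      mul_le_mul_of_nonneg_right h2 hl2.le
    have h6 : (0 : ℝ) ≤ (m : ℝ) + 1 := by positivity
    nlinarith [mul_le_mul_of_nonneg_left h5 h6]
  have h5 : E ≤ ε / 2 * J := by
    rw [div_le_iff₀ hε] at hJ2
    linarith
  have h6 : ε / 2 * x ≤ ε / 2 * J := mul_le_mul_of_nonneg_left (by linarith) (by positivity)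
  linarith

end Pool.KM7
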