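import Pool.Agent.H15.KM7.StepU
import Pool.Agent.H15.KM7.ThmB

/-!
# The local label potential: from the base case to all families, without hidden variables
-/

set_option autoImplicit false

namespace Pool.KM7

open Finset Real
open Pool.Agent.H49.Ent Pool.Agent.H32.Dense Pool.STK Pool.KA

/-- **(TOWER)** without hidden variables. -/
def TOWUStmt : Prop :=
  ∃ C : ℝ, 0 ≤ C ∧ ∀ (κ : ℝ), 0 < κ → κ ≤ 1 → ∀ (A : ℕ), 3 ≤ κ * A →
    ∀ (Y : Type) (f : Y → ℕ → ℝ) (Λ : ℝ), 0 < Λ → ∀ (K N' : ℕ), 1 ≤ K → 1 ≤ N' → Nng f Λ K →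
    ∀ δ : ℝ, 0 ≤ δ → PNU κ A f Λ K N' δ → ∀ M : ℕ,
      PNU κ A f Λ K (N' * M)
        (δ + C * (1 + Λ) * Real.log ((1 + A) * (K * (N' * M) : ℕ) + 2) / (K * N' : ℕ))

open TW in
/-- One step. -/
theorem get_stepU {C κ : ℝ} {A : ℕ} (hκ : 0 < κ) (hκ1 : κ ≤ 1) (hA : 3 ≤ κ * A) {Y : Type}
    {f : Y → ℕ → ℝ} {Λ : ℝ} (hΛ : 0 < Λ) {K N : ℕ} (hN : Nng f Λ K) {δ : ℝ} (hδ : 0 ≤ δ)
    (hPN : PNU κ A f Λ K N δ)
    (hS : ∀ (κ : ℝ), 0 < κ → κ ≤ 1 → ∀ (A : ℕ), 3 ≤ κ * A →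
      ∀ (Y : Type) (f : Y → ℕ → ℝ) (Λ : ℝ), 0 < Λ → ∀ (K N : ℕ), Nng f Λ K →
      ∀ δ : ℝ, 0 ≤ δ → PNU κ A f Λ K N δ →
      ∀ (w R : ℕ) (G : Fam 2 (w + K * N)) (y : ℕ → G.Ω → Y),
      Adm K N G (fun _ => ()) y → ∀ q : G.Ω → Sec,
      (∀ ω, 0 < G.p ω → Ok (w + K * N) R (q ω)) →
      Get κ R (G.trc w (Nat.le_add_right w (K * N)))
        (Psi κ G q - cst f Λ K N G (fun _ => ()) y - δ * (K * N : ℕ) -
          C * (1 + Λ) * Real.log (R + 2)))
    {J w R sh : ℕ} (G : Fam 2 J) (y : ℕ → G.Ω → Y)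
    (hw : w + K * N ≤ J) (hsh : J = w + K * N + K * sh)
    (hAdm : Adm K (sh + N) G (fun _ => ()) y) {x : ℝ} (hG : Get κ R (G.trc (w + K * N) hw) x) :
    Get κ R (G.trc w (by omega)) (x - cs1 f Λ K N sh G (fun _ => ()) y - δ * (K * N : ℕ) -
      C * (1 + Λ) * Real.log (R + 2)) := by
  obtain ⟨E, iE, p', hp', pr, q, h1, h2, h3⟩ := hG
  have hm : Marg p' G.p pr := marg_of_psh h1
  have hpos : ∀ e, 0 < p' e → 0 < G.p (pr e) := fun e he => hm.pos hp'.nonneg he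
  have hJs : J - (w + K * N) = K * sh := by omega
  have hadm : Adm K N ((G.trc (w + K * N) hw).ext p' hp' pr) (fun _ => ())
      (fun i e => y (sh + i) (pr e)) := by
    intro i hi e e' he he' hE
    have h4 := hAdm (sh + i) (by omega) (pr e) (pr e') (hpos e he) (hpos e' he')
    refine h4 ?_
    have h5 : (((), (G.l (pr e), G.Z (pr e))),
        G.T (pr e) / 2 ^ (J - (w + K * N)) / 2 ^ (K * (i + 1))) =
        (((), (G.l (pr e'), G.Z (pr e'))),
        G.T (pr e') / 2 ^ (J - (w + K * N)) / 2 ^ (K * (i + 1))) := hE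
    simp only [Prod.mk.injEq] at h5 ⊢
    refine ⟨h5.1, ?_⟩
    have h6 := h5.2
    rw [hJs, Nat.div_div_eq_div_mul, Nat.div_div_eq_div_mul, ← pow_add] at h6
    have e1 : K * (sh + i + 1) = K * sh + K * (i + 1) := by ring
    rw [e1]
    exact h6
  have h4 := hS κ hκ hκ1 A hA Y f Λ hΛ K N hN δ hδ hPN w R
    ((G.trc (w + K * N) hw).ext p' hp' pr)
    (fun i e => y (sh + i) (pr e)) hadm q h2
  have h5 := get_copy G hw p' hp' pr h1 h4
  refine get_mono ?_ h5
  have e2 : cst f Λ K N ((G.trc (w + K * N) hw).ext p' hp' pr) (fun _ => ())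
      (fun i e => y (sh + i) (pr e)) = cs1 f Λ K N sh G (fun _ => ()) y := by
    unfold cst cs1
    congr 1
    · refine Finset.sum_congr rfl fun i _ => ?_
      have h6 := hm.ex (fun ω => f (y (sh + i) ω) (G.T ω / 2 ^ (K * (sh + i)) % 2 ^ K))
      rw [← h6]
      show Ex p' (fun e => f (y (sh + i) (pr e))
        (G.T (pr e) / 2 ^ (J - (w + K * N)) / 2 ^ (K * i) % 2 ^ K)) = _
      congr 1
      funext e
      rw [hJs, Nat.div_div_eq_div_mul, ← pow_add]
      have e1 : K * (sh + i) = K * sh + K * i := by ring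
      rw [e1]
    · congr 1
      have h6 := hm.CH (fun ω => G.T ω / 2 ^ (K * sh) % 2 ^ (K * N))
        (fun ω => (((), (G.l ω, G.Z ω)), G.T ω / 2 ^ (K * (sh + N))))
      rw [← h6]
      show CH p' (fun e => G.T (pr e) / 2 ^ (J - (w + K * N)) % 2 ^ (K * N))
        (fun e => (((), (G.l (pr e), G.Z (pr e))),
          G.T (pr e) / 2 ^ (J - (w + K * N)) / 2 ^ (K * N))) = _
      congr 1
      · funext e
        rw [hJs]
      · funext e
        rw [hJs, Nat.div_div_eq_div_mul, ← pow_add]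
        have e1 : K * (sh + N) = K * sh + K * N := by ring
        rw [e1]
  rw [e2]
  linarith only [hw, hp', h3]

open TW in
/-- **(TOWER)** from the step. -/
theorem towU (hSTEP : STEPUStmt) : TOWUStmt := by
  obtain ⟨C, hC, hS⟩ := hSTEP
  refine ⟨C, hC, ?_⟩
  intro κ hκ hκ1 A hA Y f Λ hΛ K N' hK hN' hN δ hδ hPN M G y hAdm hu s hs q hq
  obtain ⟨R, hR⟩ : ∃ R, R = K * (N' * M) + s := ⟨_, rfl⟩
  obtain ⟨err, herr⟩ : ∃ err, err = δ * (K * N' : ℕ) + C * (1 + Λ) * Real.log (R + 2) :=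
    ⟨_, rfl⟩
  have key : ∀ a : ℕ, ∀ (w : ℕ) (hw : w + K * (N' * a) = K * (N' * M)),
      Get κ R (G.trc w (by omega)) (Psi κ G q - cst f Λ K (N' * a) G (fun _ => ()) y - a * err) := by
    intro a
    induction a with
    | zero =>
      intro w hw
      have hwJ : w = K * (N' * M) := by
        simpa using hw
      subst hwJ
      refine ⟨G.Ω, G.fin, G.p, G.isLaw, id, q, psh_of_marg (Marg.id G.p), ?_, ?_⟩
      · intro ω hω
        obtain ⟨c1, c2, c3, c4⟩ := hq ω hω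
        refine ⟨?_, ?_, ?_⟩
        · rw [c2]
        · rw [c2, c3, hR]
        · rw [c3]
          exact c4
      · have e0 : N' * 0 = 0 := mul_zero _
        rw [e0, cst_zero]
        have e3 : Psi κ ((G.trc (K * (N' * M)) (by omega)).ext G.p G.isLaw id) q =
            Psi κ (G.ext G.p G.isLaw id) q := by
          refine psi_congr (G.trc (K * (N' * M)) (by omega)) G G.p G.isLaw id id q ?_ id id
            Function.injective_id Function.injective_id (fun e => rfl)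
          intro e
          refine ⟨?_, rfl, rfl⟩
          show G.T e / 2 ^ (K * (N' * M) - K * (N' * M)) = G.T e
          rw [Nat.sub_self, pow_zero, Nat.div_one]
        have e1 : Psi κ G q = Psi κ (G.ext G.p G.isLaw id) q := rfl
        rw [e3, ← e1]
        push_cast
        linarith only
    | succ a ih =>
      intro w hw
      have e4 : K * (N' * (a + 1)) = K * (N' * a) + K * N' := by ring
      have h1 := ih (w + K * N') (by omega)
      have hAdm' : Adm K (N' * a + N') G (fun _ => ()) y := by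
        intro i hi
        refine hAdm i (lt_of_lt_of_le hi ?_)
        have h2 : K * (N' * (a + 1)) ≤ K * (N' * M) := by omega
        have h3 : N' * (a + 1) ≤ N' * M := Nat.le_of_mul_le_mul_left h2 (by omega)
        calc N' * a + N' = N' * (a + 1) := by ring
          _ ≤ N' * M := h3
      have h5 := get_stepU hκ hκ1 hA hΛ hN hδ hPN hS (w := w) (R := R) (sh := N' * a) G y
        (by omega) (by omega) hAdm' h1
      refine get_mono (le_of_eq ?_) h5
      have e5 : N' * (a + 1) = N' * a + N' := by ring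
      rw [e5, cst_add, herr]
      push_cast
      ring
  have h1 := key M 0 (by omega)
  rw [← hR]
  refine get_mono ?_ h1
  have hKN : (0 : ℝ) < (K * N' : ℕ) := by
    have : 0 < K * N' := Nat.mul_pos hK hN'
    exact_mod_cast this
  have e6 : ((K * (N' * M) : ℕ) : ℝ) = (K * N' : ℕ) * M := by
    push_cast
    ring
  have h2 : Real.log (R + 2) ≤ Real.log ((1 + A) * (K * (N' * M) : ℕ) + 2) := by
    refine Real.log_le_log (by positivity) ?_
    have h3 : R ≤ (1 + A) * (K * (N' * M)) := by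
      rw [hR]
      calc K * (N' * M) + s ≤ K * (N' * M) + A * (K * (N' * M)) := by omega
        _ = (1 + A) * (K * (N' * M)) := by ring
    have h4 : (R : ℝ) ≤ ((1 + A) * (K * (N' * M)) : ℕ) := by exact_mod_cast h3
    rw [Nat.cast_mul, Nat.cast_add, Nat.cast_one] at h4
    linarith only [h4]
  obtain ⟨lg, hlg⟩ : ∃ lg, lg = Real.log ((1 + A) * (K * (N' * M) : ℕ) + 2) := ⟨_, rfl⟩
  rw [← hlg] at h2 ⊢
  have h7 : (δ + C * (1 + Λ) * lg / (K * N' : ℕ)) * (K * (N' * M) : ℕ) =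
      M * (δ * (K * N' : ℕ) + C * (1 + Λ) * lg) := by
    rw [e6]
    field_simp
  rw [h7, herr]
  have h8 : (M : ℝ) * (δ * (K * N' : ℕ) + C * (1 + Λ) * Real.log (R + 2)) ≤
      M * (δ * (K * N' : ℕ) + C * (1 + Λ) * lg) := by
    refine mul_le_mul_of_nonneg_left ?_ (Nat.cast_nonneg M)
    have : C * (1 + Λ) * Real.log (R + 2) ≤ C * (1 + Λ) * lg :=
      mul_le_mul_of_nonneg_left h2 (by positivity)
    linarith only [this]
  linarith only [h8]

theorem PNU.mono {κ : ℝ} {A : ℕ} {Y : Type} {f : Y → ℕ → ℝ} {Λ : ℝ} {K N : ℕ} {δ δ' : ℝ}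
    (h : δ ≤ δ') (hP : PNU κ A f Λ K N δ) : PNU κ A f Λ K N δ' := by
  intro G y hA hu s hs q hq
  refine (hP G y hA hu s hs q hq).mono ?_
  have : δ * ((K * N : ℕ) : ℝ) ≤ δ' * ((K * N : ℕ) : ℝ) :=
    mul_le_mul_of_nonneg_right h (Nat.cast_nonneg _)
  linarith only [this]

/-- The standard local problems with `2 ^ j` blocks. -/
theorem pn_powU (hTOW : TOWUStmt) : ∃ C : ℝ, 0 ≤ C ∧ ∀ (κ : ℝ), 0 < κ → κ ≤ 1 → ∀ (A : ℕ),
    3 ≤ κ * A → ∀ (Y : Type) (f : Y → ℕ → ℝ) (Λ : ℝ), 0 < Λ → ∀ (K : ℕ), 1 ≤ K → Nng f Λ K →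
    ∀ δ : ℝ, 0 ≤ δ → PNU κ A f Λ K 1 δ → ∀ j : ℕ,
      PNU κ A f Λ K (2 ^ j) (δ + C * (1 + Λ) * Real.log ((1 + A) * K + 2) / K) := by
  obtain ⟨C, hC, hT⟩ := hTOW
  refine ⟨6 * C, by positivity, ?_⟩
  intro κ hκ hκ1 A hA Y f Λ hΛ K hK hf δ hδ hP
  have hl2 : 0 < Real.log 2 := Real.log_pos (by norm_num)
  have hK0 : (0 : ℝ) < K := by exact_mod_cast hK
  set a := Real.log ((1 + A) * K + 2) with ha
  have ha2 : Real.log 2 ≤ a := by
    refine Real.log_le_log (by norm_num) ?_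
    have : (0 : ℝ) ≤ (1 + A) * K := by positivity
    linarith only [this]
  set D : ℕ → ℝ := fun j => C * (1 + Λ) / K *
    (2 * a * (1 - 1 / 2 ^ j) + Real.log 2 * (4 - (2 * j + 4) / 2 ^ j)) with hD
  have hD0 : ∀ j, 0 ≤ D j := by
    intro j
    have h1 : (1 : ℝ) / 2 ^ j ≤ 1 := by
      rw [div_le_one (by positivity)]
      exact one_le_pow₀ (by norm_num)
    have h2 : (2 * (j : ℝ) + 4) / 2 ^ j ≤ 4 := by
      rw [div_le_iff₀ (by positivity)]
      have h3 : (j : ℝ) + 1 ≤ 2 ^ j := by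
        have h4 : j + 1 ≤ 2 ^ j := Nat.lt_two_pow_self
        exact_mod_cast h4
      nlinarith only [h3, Nat.cast_nonneg (α := ℝ) j]
    have h5 : 0 ≤ a := hl2.le.trans ha2
    have h6 : 0 ≤ 2 * a * (1 - 1 / 2 ^ j) := mul_nonneg (by positivity) (by linarith only [h1])
    have h7 : 0 ≤ Real.log 2 * (4 - (2 * (j : ℝ) + 4) / 2 ^ j) :=
      mul_nonneg hl2.le (by linarith only [h2])
    simp only [hD]
    have h8 : 0 ≤ C * (1 + Λ) / K := by positivity
    exact mul_nonneg h8 (by linarith only [h6, h7])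
  have key : ∀ j, PNU κ A f Λ K (2 ^ j) (δ + D j) := by
    intro j
    induction j with
    | zero =>
      have h1 : D 0 = 0 := by
        simp only [hD]
        norm_num
      rw [h1, add_zero, pow_zero]
      exact hP
    | succ j ih =>
      have h1 := hT κ hκ hκ1 A hA Y f Λ hΛ K (2 ^ j) hK Nat.one_le_two_pow hf (δ + D j)
        (add_nonneg hδ (hD0 j)) ih 2
      rw [← pow_succ] at h1
      refine h1.mono ?_
      have hlog : Real.log ((1 + A) * (K * 2 ^ (j + 1) : ℕ) + 2) ≤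
          a + (j + 1) * Real.log 2 := by
        have h2 : (0 : ℝ) < (1 + A) * (K * 2 ^ (j + 1) : ℕ) + 2 := by positivity
        have h3 : a + (j + 1) * Real.log 2 =
            Real.log (((1 + A) * K + 2) * 2 ^ (j + 1)) := by
          rw [Real.log_mul (by positivity) (by positivity), Real.log_pow]
          push_cast
          rfl
        rw [h3]
        refine Real.log_le_log h2 ?_
        have h4 : (1 : ℝ) ≤ 2 ^ (j + 1) := one_le_pow₀ (by norm_num)
        push_cast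
        nlinarith only [h4]
      have hD1 : D (j + 1) = D j + C * (1 + Λ) * (a + (j + 1) * Real.log 2) / (K * 2 ^ j) := by
        simp only [hD]
        push_cast
        field_simp
        ring
      rw [hD1]
      have h5 : C * (1 + Λ) * Real.log ((1 + A) * (K * 2 ^ (j + 1) : ℕ) + 2) /
          (K * 2 ^ j : ℕ) ≤ C * (1 + Λ) * (a + (j + 1) * Real.log 2) / (K * 2 ^ j) := by
        push_cast at hlog ⊢
        have h6 : 0 ≤ C * (1 + Λ) := by positivity
        gcongr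
      linarith only [h5]
  intro j
  refine (key j).mono ?_
  have h5 : 0 ≤ a := hl2.le.trans ha2
  have h1 : (0 : ℝ) ≤ 1 / 2 ^ j := by positivity
  have h2 : (0 : ℝ) ≤ (2 * (j : ℝ) + 4) / 2 ^ j := by positivity
  have h3 : 2 * a * (1 - 1 / 2 ^ j) ≤ 2 * a := by nlinarith only [hl2, h1, ha2]
  have h4 : Real.log 2 * (4 - (2 * (j : ℝ) + 4) / 2 ^ j) ≤ 4 * a := by nlinarith only [ha2, hl2, h2]
  have h6 : D j ≤ C * (1 + Λ) / K * (6 * a) := by
    simp only [hD]
    refine mul_le_mul_of_nonneg_left (by linarith only [h3, h4]) (by positivity)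
  have h7 : C * (1 + Λ) / K * (6 * a) = 6 * C * (1 + Λ) * a / K := by ring
  linarith only [h6, h7]

open TW in
/-- The walk from any window to any other, by blocks of lengths powers of two. -/
theorem walkU (hSTEP : STEPUStmt) (hTOW : TOWUStmt) : ∃ C : ℝ, 0 ≤ C ∧ ∀ (κ : ℝ), 0 < κ → κ ≤ 1 →
    ∀ (A : ℕ), 3 ≤ κ * A → ∀ (Y : Type) (f : Y → ℕ → ℝ) (Λ : ℝ), 0 < Λ → ∀ (K : ℕ), 1 ≤ K →
    Nng f Λ K → ∀ δ : ℝ, 0 ≤ δ → PNU κ A f Λ K 1 δ →
    ∀ (J R : ℕ) (G : Fam 2 J) (y : ℕ → G.Ω → Y) (b : ℕ),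
    ∀ n < 2 ^ b, ∀ (w sh : ℕ) (hw : w + K * n ≤ J), J = w + K * n + K * sh →
      Adm K (sh + n) G (fun _ => ()) y → ∀ x : ℝ, Get κ R (G.trc (w + K * n) hw) x →
      Get κ R (G.trc w (by omega)) (x - cs1 f Λ K n sh G (fun _ => ()) y -
        (δ + C * (1 + Λ) * Real.log ((1 + A) * K + 2) / K) * (K * n : ℕ) -
        b * (C * (1 + Λ) * Real.log (R + 2))) := by
  obtain ⟨C₁, hC₁, hP⟩ := pn_powU hTOW
  obtain ⟨C₂, hC₂, hS⟩ := hSTEP
  refine ⟨C₁ + C₂, by positivity, ?_⟩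
  intro κ hκ hκ1 A hA Y f Λ hΛ K hK hf δ hδ hP1 J R G y b
  have hl2 : 0 < Real.log 2 := Real.log_pos (by norm_num)
  have hK0 : (0 : ℝ) < K := by exact_mod_cast hK
  have hlR : 0 ≤ Real.log (R + 2) := Real.log_nonneg (by
    have : (0 : ℝ) ≤ R := Nat.cast_nonneg R
    linarith only)
  have hla : 0 ≤ Real.log ((1 + A) * K + 2) := Real.log_nonneg (by
    have : (0 : ℝ) ≤ (1 + A) * K := by positivity
    linarith only [this])
  set δ' := δ + (C₁ + C₂) * (1 + Λ) * Real.log ((1 + A) * K + 2) / K with hδ'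
  have hδ'0 : 0 ≤ δ' := by positivity
  have hPN : ∀ j, PNU κ A f Λ K (2 ^ j) δ' := by
    intro j
    refine (hP κ hκ hκ1 A hA Y f Λ hΛ K hK hf δ hδ hP1 j).mono ?_
    have : C₁ * (1 + Λ) * Real.log ((1 + A) * K + 2) / K ≤
        (C₁ + C₂) * (1 + Λ) * Real.log ((1 + A) * K + 2) / K := by
      have h1 : C₁ ≤ C₁ + C₂ := by linarith only [hC₂]
      gcongr
    linarith only [this]
  have herr : 0 ≤ (C₁ + C₂) * (1 + Λ) * Real.log (R + 2) := by positivity
  induction b with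
  | zero =>
    intro n hn w sh hw hJ hAdm x hx
    have hn0 : n = 0 := by
      rw [pow_zero] at hn
      omega
    subst hn0
    have h0 : cs1 f Λ K 0 sh G (fun _ => ()) y = 0 := by
      have h1 := cst_add f Λ K 0 sh G (fun _ => ()) y
      rw [add_zero] at h1
      linarith only [h1]
    have h2 : Get κ R (G.trc w (by omega)) x := get_trc (by rw [mul_zero, add_zero]) hx
    refine h2.mono ?_
    rw [h0]
    push_cast
    simp
  | succ b ih =>
    intro n hn w sh hw hJ hAdm x hx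
    by_cases hb : n < 2 ^ b
    · refine (ih n hb w sh hw hJ hAdm x hx).mono ?_
      push_cast
      nlinarith only [herr]
    · push Not at hb
      obtain ⟨m, rfl⟩ := Nat.exists_eq_add_of_le hb
      have hm : m < 2 ^ b := by
        rw [pow_succ] at hn
        omega
      have e1 : K * (2 ^ b + m) = K * m + K * 2 ^ b := by ring
      have hx' : Get κ R (G.trc (w + K * m + K * 2 ^ b) (by omega)) x :=
        get_trc (by omega) hx
      have h1 := get_stepU hκ hκ1 hA hΛ hf hδ'0 (hPN b) hS (w := w + K * m) (R := R) (sh := sh)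
        G y (by omega) (by omega) (fun i hi => hAdm i (by omega)) hx'
      have h2 := ih m hm w (sh + 2 ^ b) (by omega) (by rw [Nat.mul_add]; omega)
        (fun i hi => hAdm i (by omega)) _ h1
      refine h2.mono ?_
      rw [cs1_add]
      have h3 : C₂ * (1 + Λ) * Real.log (R + 2) ≤ (C₁ + C₂) * (1 + Λ) * Real.log (R + 2) := by
        have h1 : C₂ ≤ C₁ + C₂ := by linarith only [hC₁]
        gcongr
      have h4 : ((K * (2 ^ b + m) : ℕ) : ℝ) = (K * m : ℕ) + (K * 2 ^ b : ℕ) := by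
        push_cast
        ring
      rw [h4]
      push_cast
      nlinarith only [h3]

/-- **From the base case to all families.** -/
theorem thmBU (hSTEP : STEPUStmt) (hTOW : TOWUStmt) (hSTA : STAStmt) (hFIN : FINStmt) :
    ∃ C : ℝ, 0 ≤ C ∧ ∀ (κ : ℝ), 0 < κ → κ ≤ 1 →
    ∀ (A : ℕ), 3 ≤ κ * A → ∀ (Y : Type) (f : Y → ℕ → ℝ) (Λ : ℝ), 0 < Λ → ∀ (K : ℕ), 1 ≤ K →
    Nng f Λ K → ∀ δ : ℝ, 0 ≤ δ → PNU κ A f Λ K 1 δ →
    ∀ (N : ℕ) (F : Fam 2 (K * N)) (y : ℕ → F.Ω → Y),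
      Adm K N F (fun _ => ()) y →
      CH F.p (F.D (K * N)) F.Z ≤ CH F.p (fun ω => (F.X (K * N) ω, F.T ω)) F.Z -
        (K * N : ℕ) * Real.log 2 + cst f Λ K N F (fun _ => ()) y +
        (δ + C * (1 + Λ) * Real.log ((1 + A) * K + 2) / K) * (K * N : ℕ) +
        C * (1 + Λ) * Real.log ((K * N : ℕ) + 2) ^ 2 + C := by
  obtain ⟨C₁, hC₁, hW⟩ := walkU hSTEP hTOW
  obtain ⟨C₂, hC₂, hS⟩ := hSTA
  obtain ⟨C₃, hC₃, hF⟩ := hFIN
  have hl2 : 0 < Real.log 2 := Real.log_pos (by norm_num)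
  refine ⟨C₁ + 2 * C₁ / Real.log 2 + C₂ + C₃, by positivity, ?_⟩
  intro κ hκ hκ1 A hA Y f Λ hΛ K hK hf δ hδ hP1 N F y hAdm
  have hK0 : (0 : ℝ) < K := by exact_mod_cast hK
  set b := Nat.log 2 N + 1 with hb
  have hNb : N < 2 ^ b := Nat.lt_pow_succ_log_self (by norm_num) N
  have h1 : Get κ (K * N) (F.trc (K * N) (le_refl _))
      (Psi κ F (fun _ => ⟨false, K * N, 0, 0⟩)) :=
    get_top F _ (fun ω _ => ⟨le_refl _, by simp, by simp⟩)
  have h2 := hW κ hκ hκ1 A hA Y f Λ hΛ K hK hf δ hδ hP1 (K * N) (K * N) F y b N hNb 0 0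
    (by omega) (by omega) (by rw [zero_add]; exact hAdm) _ (TW.get_trc (by omega) h1)
  have h3 := hF κ hκ.le (K * N) F _ h2
  have h4 := hS κ (K * N) F
  have h5 : TW.cs1 f Λ K N 0 F (fun _ => ()) y = cst f Λ K N F (fun _ => ()) y := by
    have h6 := TW.cst_add f Λ K N 0 F (fun _ => ()) y
    rw [TW.cst_zero, zero_add, zero_add] at h6
    exact h6.symm
  rw [h5] at h3
  set lJ := Real.log (((K * N : ℕ) : ℝ) + 2) with hlJ
  have hlJ2 : Real.log 2 ≤ lJ := by
    refine Real.log_le_log (by norm_num) ?_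
    have : (0 : ℝ) ≤ ((K * N : ℕ) : ℝ) := Nat.cast_nonneg _
    linarith only
  have hbl : (b : ℝ) ≤ 2 / Real.log 2 * lJ := by
    have h6 : (Nat.log 2 N : ℝ) * Real.log 2 ≤ lJ := by
      rcases Nat.eq_zero_or_pos N with h0 | h0
      · rw [h0, Nat.log_zero_right, Nat.cast_zero, zero_mul]
        exact hl2.le.trans hlJ2
      · have h7 := Nat.pow_log_le_self 2 h0.ne'
        have h8 : ((2 : ℝ) ^ Nat.log 2 N) ≤ ((K * N : ℕ) : ℝ) + 2 := by
          have h9 : (2 : ℝ) ^ Nat.log 2 N ≤ N := by exact_mod_cast h7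
          have h10 : (N : ℝ) ≤ ((K * N : ℕ) : ℝ) := by
            exact_mod_cast Nat.le_mul_of_pos_left N hK
          linarith only [h9, h10]
        rw [← Real.log_pow]
        exact Real.log_le_log (by positivity) h8
    rw [hb]
    push_cast
    have h11 : (Nat.log 2 N : ℝ) + 1 ≤ 2 * lJ / Real.log 2 := by
      rw [le_div_iff₀ hl2]
      nlinarith only [hlJ2, h6]
    calc (Nat.log 2 N : ℝ) + 1 ≤ 2 * lJ / Real.log 2 := h11
      _ = 2 / Real.log 2 * lJ := by ring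
  have hl0 : 0 ≤ lJ := hl2.le.trans hlJ2
  have h6 : (b : ℝ) * (C₁ * (1 + Λ) * lJ) ≤ 2 * C₁ / Real.log 2 * (1 + Λ) * lJ ^ 2 := by
    calc (b : ℝ) * (C₁ * (1 + Λ) * lJ) ≤ 2 / Real.log 2 * lJ * (C₁ * (1 + Λ) * lJ) :=
          mul_le_mul_of_nonneg_right hbl (by positivity)
      _ = 2 * C₁ / Real.log 2 * (1 + Λ) * lJ ^ 2 := by ring
  have h7 : C₁ * (1 + Λ) * Real.log ((1 + A) * K + 2) / K ≤
      (C₁ + 2 * C₁ / Real.log 2 + C₂ + C₃) * (1 + Λ) * Real.log ((1 + A) * K + 2) / K := by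
    have hla : 0 ≤ Real.log ((1 + A) * K + 2) := Real.log_nonneg (by
      have : (0 : ℝ) ≤ (1 + A) * K := by positivity
      linarith only [this])
    have h8 : C₁ ≤ C₁ + 2 * C₁ / Real.log 2 + C₂ + C₃ := by
      have : 0 ≤ 2 * C₁ / Real.log 2 := by positivity
      linarith only [hC₂, hC₃, this]
    gcongr
  have h8 : (C₁ * (1 + Λ) * Real.log ((1 + A) * K + 2) / K) * ((K * N : ℕ) : ℝ) ≤
      ((C₁ + 2 * C₁ / Real.log 2 + C₂ + C₃) * (1 + Λ) * Real.log ((1 + A) * K + 2) / K) *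
        ((K * N : ℕ) : ℝ) := mul_le_mul_of_nonneg_right h7 (Nat.cast_nonneg _)
  have h9 : 2 * C₁ / Real.log 2 * (1 + Λ) * lJ ^ 2 ≤
      (C₁ + 2 * C₁ / Real.log 2 + C₂ + C₃) * (1 + Λ) * lJ ^ 2 := by
    have h10 : 2 * C₁ / Real.log 2 ≤ C₁ + 2 * C₁ / Real.log 2 + C₂ + C₃ := by linarith only [hC₁, hC₂, hC₃]
    gcongr
  have h10 : C₂ + C₃ ≤ C₁ + 2 * C₁ / Real.log 2 + C₂ + C₃ := by
    have : 0 ≤ 2 * C₁ / Real.log 2 := by positivity
    linarith only [hC₁, this]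
  rw [add_mul] at h3 ⊢
  linarith only [h4, h3, h6, h8, h9, h10]

end Pool.KM7
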